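import Pool.Agent.RMS.St4

/-!
# Project RMS: ASN, the simulation of a program with a tape by a program without memory (helper94)
-/

set_option autoImplicit false

open Finset
open scoped Classical

namespace Pool.Agent.RMS

open Pool.Agent.Lib_helper20.SRO (Agrees)
open Pool.Agent.TKN (Out)
open Pool.Agent.TKB (Easy)

namespace ASN

variable {X Q L : Type}

theorem rep_mono {s n n' : ℕ} {B : List (X × Bool) → Prop} (h : Rep s n B) (hn : n ≤ n') :
    Rep s n' B := by
  obtain ⟨Q, i, G, h1, h2, h3⟩ := h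
  exact ⟨Q, i, G, h1.trans hn, h2, h3⟩

/-- a program without memory as a program with one stack that is not used -/
def toP (G : Net X Q) : STK.Prog X 1 Unit Q where
  source := G.source
  sink := G.sink
  test := G.test
  push _ _ _ _ := False
  pop _ _ _ _ := False

theorem wk_of_run (G : Net X Q) {u v : Q} {st st' : Fin 1 → List Unit} {l : List (X × Bool)}
    (h : STK.Run (toP G) u st v st' l) : G.Wk u v l := by
  induction h with
  | nil u s => exact Net.Wk.nil u
  | test h1 _ ih => exact Net.Wk.cons h1 ih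
  | push i a h1 _ _ => exact absurd h1 id
  | pop i a r h1 _ _ _ => exact absurd h1 id

theorem run_of_wk (G : Net X Q) {u v : Q} {l : List (X × Bool)} (h : G.Wk u v l)
    (st : Fin 1 → List Unit) : STK.Run (toP G) u st v st l := by
  induction h with
  | nil u => exact STK.Run.nil u st
  | cons h1 _ ih => exact STK.Run.test h1 ih

theorem full_iff (G : Net X Q) (l : List (X × Bool)) :
    (toP G).Full l ↔ G.Wk G.source G.sink l := by
  constructor
  · rintro ⟨st, h⟩
    exact wk_of_run G h
  · intro h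
    exact ⟨_, run_of_wk G h _⟩

theorem cat_mem {A : Type} (F : A → List (X × Bool) → Prop) :
    ∀ (rs : List A) (l : List (X × Bool)), Cat (rs.map F) l →
      ∀ a ∈ rs, ∃ la, F a la ∧ ∀ x ∈ la, x ∈ l
  | [], _, _, a, ha => absurd ha List.not_mem_nil
  | r :: rs, l, h, a, ha => by
    obtain ⟨l1, l2, h1, h2, rfl⟩ := h
    rcases List.mem_cons.1 ha with rfl | ha
    · exact ⟨l1, h1, fun x hx => List.mem_append_left _ hx⟩
    · obtain ⟨la, h3, h4⟩ := cat_mem F rs l2 h2 a ha
      exact ⟨la, h3, fun x hx => List.mem_append_right _ (h4 x hx)⟩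

theorem cat_flatten {A : Type} (F : A → List (X × Bool) → Prop) (ls : A → List (X × Bool))
    (h : ∀ a, F a (ls a)) : ∀ rs : List A, Cat (rs.map F) (rs.map ls).flatten
  | [] => rfl
  | r :: rs => ⟨ls r, (rs.map ls).flatten, h r, cat_flatten F ls h rs, by simp⟩

theorem lift_list (S : Finset L) : ∀ vs : List (Q × L), (∀ q ∈ vs, q.2 ∈ S) →
    ∃ ws : List (Q × S), ws.map (fun q => (q.1, (q.2 : L))) = vs
  | [], _ => ⟨[], rfl⟩
  | v :: vs, h => by
    obtain ⟨ws, h1⟩ := lift_list S vs (fun q hq => h q (List.mem_cons_of_mem _ hq))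
    refine ⟨(v.1, ⟨v.2, h v List.mem_cons_self⟩) :: ws, ?_⟩
    simp [h1]

theorem ofFn_red {α : Type} : ∀ (m : ℕ) (ws : List α), ws.length ≤ m →
    (List.ofFn fun j : Fin m => ws[(j : ℕ)]?).reduceOption = ws
  | 0, ws, h => by
    have : ws = [] := List.length_eq_zero_iff.1 (Nat.le_zero.1 h)
    subst this
    simp
  | m + 1, [], _ => by
    rw [List.ofFn_succ]
    simp
  | m + 1, w :: ws, h => by
    have := ofFn_red m ws (by simpa using h)
    rw [List.ofFn_succ]
    simpa [List.reduceOption_cons_of_some] using this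

theorem red_len {α : Type} (m : ℕ) (f : Fin m → Option α) :
    (List.ofFn f).reduceOption.length ≤ m := by
  have h := List.reduceOption_length_le (List.ofFn f)
  rwa [List.length_ofFn] at h

end ASN

open ASN

theorem t_ASN (h1 : S_SHF) (h2 : S_REP) (h3 : S_CHN) (h4 : S_SND) (h5 : S_CMP) (h6 : S_MVS) :
    S_ASN := by
  intro d N s T z z1 A hN hE
  obtain ⟨Γ, Q, iΓ, iQ, g, y, G, hy0, hyz, hQ, hg1, hgz, hΓ, hbl, hcost, hacc⟩ := hE
  have hv1 : 1 ≤ Fintype.card Q := Fintype.card_pos_iff.2 ⟨G.source⟩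
  have hγ1 : 1 ≤ Fintype.card Γ := Fintype.card_pos_iff.2 ⟨G.init 0⟩
  obtain ⟨Z, m, hZ, hT, hnum⟩ := hN (Fintype.card Q) (Fintype.card Γ) g y hy0 hyz hQ hv1 hγ1 hΓ hg1
    hgz
  obtain ⟨-, -, ⟨hb0, hbm⟩, hbc⟩ := h1 d
  -- the data
  let ι : Type := Fin Z × (Fin m → Option (Q × (box d T : Finset (Cell d))))
  let tr : ι → List (Q × Cell d) := fun i =>
    (List.ofFn i.2).reduceOption.map (fun q => (q.1, (q.2 : Cell d)))
  let vs : ι → List (Q × Cell d) := fun i => (G.source, 0) :: tr i
  let e : ι → (Cell d ≃ Cell d × (Fin d → Fin Z)) := fun i => rmap d Z hZ (i.1 : ℕ)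
  let rs : ι → List (Cell d) := fun i => ((vs i).map fun q => (e i q.2).1).dedup
  let F : ι → Cell d → List (Fin N × Bool) → Prop := fun i a =>
    Chn G act (e i) a (vs i) (fun p => G.init ((e i).symm (a, p)))
  let B : ι → List (Fin N × Bool) → Prop := fun i => Cat ((rs i).map (F i))
  have htrl : ∀ i, (tr i).length ≤ m := fun i => by
    simp only [tr, List.length_map]
    exact red_len m i.2
  have hvsl : ∀ i, (vs i).length ≤ m + 1 := fun i => by
    simp only [vs, List.length_cons]
    exact Nat.succ_le_succ (htrl i)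
  have hrsl : ∀ i, (rs i).length ≤ m + 1 := fun i => by
    have h7 := (List.dedup_sublist ((vs i).map fun q => (e i q.2).1)).length_le
    rw [List.length_map] at h7
    exact h7.trans (hvsl i)
  have hcO : Fintype.card (Fin d → Fin Z) = Z ^ d := by simp
  -- the program without memory
  set n0 : ℕ := (m + 3) * (Fintype.card Γ ^ (Z ^ d) * (Fintype.card Q * Z ^ d + 1)) with hn0
  have hF : ∀ i a, Rep s n0 (F i a) := fun i a => by
    refine rep_mono (h3 (Fin N) Γ Q (Cell d) (Dir d) (Cell d) (Fin d → Fin Z) G act (e i) a s (vs i)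
      (fun p => G.init ((e i).symm (a, p))) hbl) ?_
    rw [hcO, hn0]
    exact Nat.mul_le_mul_right _ (by have := hvsl i; omega)
  have hB : ∀ i, Rep s ((m + 1) * n0 + 1) (B i) := fun i => by
    refine rep_mono ((h2 (Fin N) s n0).2 ((rs i).map (F i)) ?_) ?_
    · intro C hC
      obtain ⟨a, -, rfl⟩ := List.mem_map.1 hC
      exact hF i a
    · rw [List.length_map]
      exact Nat.add_le_add_right (Nat.mul_le_mul_right _ (hrsl i)) 1
  obtain ⟨Q', iQ', G', hcard, hbl', hrep⟩ := (h2 (Fin N) s ((m + 1) * n0 + 1)).1 ι B hB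
  have hcι : Fintype.card ι = Z * (Fintype.card Q * (2 * T + 1) ^ d + 1) ^ m := by
    simp [ι, hbc]
  -- soundness
  have hsound : ∀ (b : Fin N → Bool) (l : List (Fin N × Bool)) (i : ι), B i l → Agrees b l →
      G.Accepts act b := by
    intro b l i hBl hb
    obtain ⟨l', ms, p', c', h7, h8⟩ := h4 (Fin N) Γ Q (Cell d) (Dir d) (Cell d) (Fin d → Fin Z) G act
      (e i) b G.source 0 (tr i) G.init (by
        intro q hq
        have hqr : (e i q.2).1 ∈ rs i := by
          simp only [rs]
          rw [List.mem_dedup]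
          exact List.mem_map.2 ⟨q, hq, rfl⟩
        obtain ⟨la, h9, h10⟩ := cat_mem (F i) (rs i) l hBl _ hqr
        exact ⟨la, h9, fun x hx => hb x (h10 x hx)⟩)
    exact ⟨l', ms, ⟨p', c', h7⟩, h8⟩
  -- completeness
  have hcomp : ∀ b : Fin N → Bool, G.Accepts act b → ∃ l, (∃ i, B i l) ∧ Agrees b l ∧
      ∃ R : Finset (Fin N), R.card ≤ s ∧ Out R l ≤ T := by
    intro b hb
    obtain ⟨l, ms, ⟨p, c, hrun⟩, hag, R, hR, hcst⟩ := hcost b hb
    obtain ⟨-, hbox, hshift⟩ := h6 (Fin N) Γ Q d G G.source G.sink 0 p G.init c l ms 0 hrun hb0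
    obtain ⟨o, ho, hoc⟩ := hshift Z hZ
    have hmg : ms.length ≤ g * ms.length := Nat.le_mul_of_pos_left _ hg1
    have hmT : ms.length ≤ T := by omega
    have hmZ : ms.length < (m + 1) * Z := by
      by_contra hc
      have hc' : (m + 1) * Z ≤ ms.length := not_lt.1 hc
      have h7 : g * ((m + 1) * Z) ≤ g * ms.length := Nat.mul_le_mul_left _ hc'
      have h8 : (m + 1) * (g * Z) = g * ((m + 1) * Z) := by ring
      omega
    obtain ⟨vs', ls, hlen, hmem, hchn, hperm⟩ := h5 (Fin N) Γ Q (Cell d) (Dir d) (Cell d)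
      (Fin d → Fin Z) G act (rmap d Z hZ o) G.source 0 p G.init c l ms hrun
    have hlm : vs'.length ≤ m := by
      have h0 : Z * vs'.length ≤ ms.length := by
        refine (Nat.mul_le_mul_left Z hlen).trans (le_of_eq_of_le ?_ hoc)
        refine congrArg (fun n => Z * n) (List.countP_congr fun q _ => ?_)
        simp only [decide_eq_true_eq]
      by_contra hc
      have hc' := not_le.1 hc
      have h7 : Z * (m + 1) ≤ ms.length := (Nat.mul_le_mul_left Z hc').trans h0
      rw [mul_comm] at h7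
      omega
    obtain ⟨ws, hws⟩ := lift_list (box d T) vs' (fun q hq => by
      obtain ⟨r, hr, hr2⟩ := List.mem_map.1 (hmem q hq)
      rw [← hr2]
      exact hbm (0 + ms.length) T (by omega) (hbox r hr))
    have hwl : ws.length ≤ m := by
      have : ws.length = vs'.length := by rw [← hws, List.length_map]
      omega
    let i : ι := (⟨o, ho⟩, fun j => ws[(j : ℕ)]?)
    have htr : tr i = vs' := by
      simp only [tr, i]
      rw [ofFn_red m ws hwl, hws]
    have hvs : vs i = (G.source, 0) :: vs' := by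
      simp only [vs, htr]
    refine ⟨((rs i).map ls).flatten, ⟨i, ?_⟩, ?_, R, hR, ?_⟩
    · refine cat_flatten (F i) ls (fun a => ?_) (rs i)
      simp only [F, hvs]
      exact hchn a
    · have h7 := hperm (rs i) (List.nodup_dedup _) (fun q hq => by
        simp only [rs]
        rw [List.mem_dedup, hvs]
        exact List.mem_map.2 ⟨q, hq, rfl⟩)
      exact fun x hx => hag x (h7.mem_iff.1 hx)
    · have h7 := hperm (rs i) (List.nodup_dedup _) (fun q hq => by
        simp only [rs]
        rw [List.mem_dedup, hvs]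
        exact List.mem_map.2 ⟨q, hq, rfl⟩)
      have h8 : Out R ((rs i).map ls).flatten = Out R l := (h7.filter _).length_eq
      rw [h8]
      omega
  have haccP : ∀ b, (toP G').Accepts b ↔ A b := by
    intro b
    rw [← hacc b]
    constructor
    · rintro ⟨l, h7, h8⟩
      obtain ⟨i, hi⟩ := (hrep l).2 ((full_iff G' l).1 h7)
      exact hsound b l i hi h8
    · intro h7
      obtain ⟨l, h8, h9, -⟩ := hcomp b h7
      exact ⟨l, (full_iff G' l).2 ((hrep l).1 h8), h9⟩
  refine Or.inl ⟨Unit, Q', iQ', toP G', hbl', ?_, haccP, ?_⟩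
  · intro b hb
    obtain ⟨l, h8, h9, h10⟩ := hcomp b ((hacc b).2 ((haccP b).1 hb))
    exact ⟨l, (full_iff G' l).2 ((hrep l).1 h8), h9, h10⟩
  · refine lt_of_le_of_lt ?_ hnum
    rw [hcι] at hcard
    exact_mod_cast hcard

end Pool.Agent.RMS
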