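import Pool.Agent.RMS.St2

/-!
# Project RMS: AVD (helper74)
-/

set_option autoImplicit false

open Finset
open scoped Classical

namespace Pool.Agent.RMS

/-- AVD -/
theorem t_AVD (hSHF : S_SHF) : S_AVD := by
  intro P V Γ d R x
  obtain ⟨h1, h2, ⟨h3, h4⟩, -⟩ := hSHF d
  have hp : ∀ t, (R.conf act x (t + 1)).p = mvo act (R.op t (R.conf act x t).v
      ((R.conf act x t).c (R.conf act x t).p) x).2.2 (R.conf act x t).p := fun t => rfl
  have hsum : ∀ (Z : ℕ) (hZ : 0 < Z) (t : ℕ),
      ∑ o ∈ range Z, R.chg act (rmap d Z hZ o) x t ≤ R.movs act x t := by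
    intro Z hZ t
    have hq := hp t
    unfold TM.chg TM.movs
    rcases hc : (R.op t (R.conf act x t).v ((R.conf act x t).c (R.conf act x t).p) x).2.2 with _ | δ
    · rw [hc] at hq
      have hq' : (R.conf act x (t + 1)).p = (R.conf act x t).p := hq
      rw [hq']
      simp
    · rw [hc] at hq
      have hq' : (R.conf act x (t + 1)).p = act δ (R.conf act x t).p := hq
      rw [hq']
      have h5 := h1 Z hZ δ (R.conf act x t).p
      rw [card_filter] at h5
      rw [if_neg (by simp)]
      refine le_trans (le_of_eq ?_) h5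
      refine sum_congr rfl fun o _ => ?_
      by_cases hh : (rmap d Z hZ o (act δ (R.conf act x t).p)).1 =
          (rmap d Z hZ o (R.conf act x t).p).1
      · rw [if_pos hh, if_neg (by simpa using hh)]
      · rw [if_neg hh, if_pos hh]
  have hS : ∀ (Z : ℕ) (hZ : 0 < Z) (T : ℕ),
      ∑ o ∈ range Z, ∑ t ∈ range T, R.chg act (rmap d Z hZ o) x t ≤
        ∑ t ∈ range T, R.movs act x t := by
    intro Z hZ T
    rw [sum_comm]
    exact sum_le_sum fun t _ => hsum Z hZ t
  refine ⟨?_, fun Z hZ T => ⟨hS Z hZ T, fun m hm => ?_⟩⟩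
  · intro t
    induction t with
    | zero => exact h3
    | succ t ih =>
      rw [hp t]
      rcases (R.op t (R.conf act x t).v ((R.conf act x t).c (R.conf act x t).p) x).2.2 with _ | δ
      · exact h4 t (t + 1) (Nat.le_succ t) ih
      · exact h2 δ _ t ih
  · have h5 : (m + 1) * ((range Z).filter fun o =>
        m < ∑ t ∈ range T, R.chg act (rmap d Z hZ o) x t).card ≤
        ∑ o ∈ range Z, ∑ t ∈ range T, R.chg act (rmap d Z hZ o) x t := by
      calc (m + 1) * ((range Z).filter fun o =>
            m < ∑ t ∈ range T, R.chg act (rmap d Z hZ o) x t).card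
          = ∑ o ∈ (range Z).filter (fun o =>
            m < ∑ t ∈ range T, R.chg act (rmap d Z hZ o) x t), (m + 1) := by
            rw [sum_const, smul_eq_mul, mul_comm]
        _ ≤ ∑ o ∈ (range Z).filter (fun o =>
            m < ∑ t ∈ range T, R.chg act (rmap d Z hZ o) x t),
              ∑ t ∈ range T, R.chg act (rmap d Z hZ o) x t :=
            sum_le_sum fun o ho => (mem_filter.1 ho).2
        _ ≤ _ := sum_le_sum_of_subset (filter_subset _ _)
    have h6 := h5.trans (hS Z hZ T)
    have h7 : (m + 1) * (2 * ((range Z).filter fun o =>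
        m < ∑ t ∈ range T, R.chg act (rmap d Z hZ o) x t).card) ≤ (m + 1) * Z := by
      calc _ = 2 * ((m + 1) * ((range Z).filter fun o =>
            m < ∑ t ∈ range T, R.chg act (rmap d Z hZ o) x t).card) := by ring
        _ ≤ 2 * ∑ t ∈ range T, R.movs act x t := Nat.mul_le_mul_left 2 h6
        _ ≤ _ := hm
    exact Nat.le_of_mul_le_mul_left h7 (Nat.succ_pos m)

end Pool.Agent.RMS
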