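import Pool.Agent.RMS.St3

/-!
# Project RMS: CRD, the correlation of a machine with a tape
-/

set_option autoImplicit false

open Finset
open scoped Classical

namespace Pool.Agent.RMS

open Pool.Agent.PPS (SS Mcs HardC cube)
open Pool.Agent.PPL (sgP fP)

namespace CRDx

theorem cube_card {N : ℕ} (D : Finset (Fin N)) (w : Fin N → Bool) :
    (cube D w).card = 2 ^ D.card := by
  have h : (cube D w).card = (Fintype.piFinset fun i : Fin N =>
      if i ∈ D then (univ : Finset Bool) else {w i}).card := by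
    congr 1
    ext v
    rw [cube, Finset.mem_filter, Fintype.mem_piFinset]
    constructor
    · rintro ⟨-, h⟩ i
      by_cases hi : i ∈ D
      · rw [if_pos hi]
        exact Finset.mem_univ _
      · rw [if_neg hi, Finset.mem_singleton]
        exact h i hi
    · intro h
      refine ⟨Finset.mem_univ _, fun i hi => ?_⟩
      have h1 := h i
      rw [if_neg hi, Finset.mem_singleton] at h1
      exact h1
  rw [h, Fintype.card_piFinset]
  have h2 : ∀ i : Fin N, (if i ∈ D then (univ : Finset Bool) else {w i}).card =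
      if i ∈ D then 2 else 1 := by
    intro i
    by_cases hi : i ∈ D
    · rw [if_pos hi, if_pos hi]
      rfl
    · rw [if_neg hi, if_neg hi]
      rfl
  rw [Finset.prod_congr rfl fun i _ => h2 i, Finset.prod_ite_mem, Finset.univ_inter,
    Finset.prod_const]

end CRDx

theorem t_CRD (hS : S_SHF) (hSum : S_SUMD) (hSel : S_SEL) (hAv : S_AVD) : S_CRD := by
  intro N d τ b b1 D w Lf hbb hNum hM P hP
  obtain ⟨T, V, Γ, iV, iΓ, g, y, R, acc, hy0, hyb, hg1, hgb, hΓ, hT, hrd, hcost, hacc⟩ := hP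
  -- numbers
  have hτ : 0 ≤ τ := le_trans (Nat.cast_nonneg _) (hcost w)
  have hb0 : 0 ≤ b := le_trans (by positivity) hgb
  have hv1 : 1 ≤ Fintype.card V := Fintype.card_pos_iff.2 ⟨R.start⟩
  have hγ1 : 1 ≤ Fintype.card Γ := Fintype.card_pos_iff.2 ⟨R.init 0⟩
  have hK : ((⌊τ⌋₊ : ℕ) : ℝ) ≤ τ := Nat.floor_le hτ
  have hs : ((⌊b⌋₊ : ℕ) : ℝ) ≤ b := Nat.floor_le hb0
  obtain ⟨Z, m, q, hZ, hm, hnodes, herr⟩ := hNum T (Fintype.card V) (Fintype.card Γ) g ⌊τ⌋₊ y
    hy0 hyb hT hv1 hγ1 hΓ hg1 hgb hK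
  have hZ0 : 0 < Z := hZ
  -- bits and moves
  have hbits : ∀ x, ∑ t ∈ range T, R.bits act x t ≤ ⌊τ⌋₊ := by
    intro x
    apply Nat.le_floor
    refine le_trans ?_ (hcost x)
    exact_mod_cast Finset.sum_le_sum fun t _ => Nat.le_add_right _ _
  have hmov : ∀ x, 2 * ∑ t ∈ range T, R.movs act x t ≤ (m + 1) * Z := by
    intro x
    have h1 : ((g * ∑ t ∈ range T, R.movs act x t : ℕ) : ℝ) ≤ τ := by
      refine le_trans ?_ (hcost x)
      rw [Finset.mul_sum]
      exact_mod_cast Finset.sum_le_sum fun t _ => Nat.le_add_left _ _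
    have h2 : ((g * (2 * ∑ t ∈ range T, R.movs act x t) : ℕ) : ℝ) ≤
        ((g * ((m + 1) * Z) : ℕ) : ℝ) := by
      push_cast at h1 hm ⊢
      nlinarith
    have h3 : g * (2 * ∑ t ∈ range T, R.movs act x t) ≤ g * ((m + 1) * Z) := by
      exact_mod_cast h2
    exact Nat.le_of_mul_le_mul_left h3 hg1
  -- the choice of the shifts
  obtain ⟨f, hfZ, hf⟩ := hSel (Fin N → Bool) (cube D w) Z
    (fun o x => m < ∑ t ∈ range T, R.chg act (rmap d Z hZ0 o) x t) hZ
    (fun x _ => by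
      refine le_trans (le_of_eq ?_) (((hAv (Fin N) V Γ d R x).2 Z hZ0 T).2 m (hmov x))
      congr) q
  rw [CRDx.cube_card] at hf
  -- the sum over the traces
  obtain ⟨hS1, hS2, ⟨hS3, hS4⟩, hS5⟩ := hS d
  have hO : Fintype.card (Fin d → Fin Z) = Z ^ d := by simp
  have key := hSum (Fin N) V Γ (Cell d) (Dir d) (Cell d) (Fin d → Fin Z) R act acc T ⌊τ⌋₊ m q ⌊b⌋₊
    (fun i => rmap d Z hZ0 (f i)) (box d T) (cube D w) Lf ((2 : ℝ) ^ (-b1) * 2 ^ D.card)
    (fun x t ht => hS4 t T ht ((hAv (Fin N) V Γ d R x).1 t))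
    (fun t v a => Nat.le_floor (hrd t v a)) hbits
    (by
      intro V' iV' R' acc' T' hT' hV' hrd' hK'
      apply hM
      refine ⟨T', V', Unit, iV', R', acc', ?_, ?_, ?_, fun x => Iff.rfl⟩
      · refine le_trans ?_ hnodes
        rw [hO] at hV'
        have h1 : (T' + 1) * Fintype.card V' ≤ ((m + 1) * T + 1) *
            (1 + Fintype.card V * Z ^ d * Fintype.card Γ ^ (Z ^ d) * (m + 2) ^ q *
              (⌊τ⌋₊ + 1)) :=
          Nat.mul_le_mul (Nat.succ_le_succ hT') hV'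
        exact_mod_cast h1
      · intro t v
        refine le_trans ?_ (hs.trans hbb)
        exact_mod_cast hrd' t v
      · intro x
        refine le_trans ?_ hK
        exact_mod_cast hK' x)
  have hP' : ∀ v, sgP (P v) = sgP (acc (R.conf act v T).v) := fun v => by
    rw [propext (hacc v)]
  rw [Finset.sum_congr rfl fun v _ => by rw [hP' v]]
  refine key.trans ?_
  rw [hS5 T]
  set F := (filter (fun v => ∀ i, m < ∑ t ∈ range T, R.chg act ((fun i => rmap d Z hZ0 (f i)) i) v t)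
    (cube D w)).card with hF
  have hF2 : (F : ℝ) ≤ (2 : ℝ) ^ (-(q : ℝ)) * 2 ^ D.card := by
    have h0 : 2 ^ q * F ≤ 2 ^ D.card := by
      refine le_trans (le_of_eq ?_) hf
      rw [hF]
      congr
    have h1 : ((2 ^ q * F : ℕ) : ℝ) ≤ ((2 ^ D.card : ℕ) : ℝ) := by exact_mod_cast h0
    push_cast at h1
    rw [Real.rpow_neg (by norm_num), Real.rpow_natCast]
    have h2 : (0 : ℝ) < 2 ^ q := by positivity
    rw [inv_mul_eq_div, le_div_iff₀ h2]
    linarith
  have hD : (0 : ℝ) < 2 ^ D.card := by positivity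
  calc _ ≤ ((q * ((T + 1) * Fintype.card V * (2 * T + 1) ^ d + 1) ^ m * Fintype.card V : ℕ) : ℝ) *
        ((2 : ℝ) ^ (-b1) * 2 ^ D.card) + (2 : ℝ) ^ (-(q : ℝ)) * 2 ^ D.card :=
        add_le_add le_rfl hF2
    _ = (((q * ((T + 1) * Fintype.card V * (2 * T + 1) ^ d + 1) ^ m * Fintype.card V : ℕ) : ℝ) *
        (2 : ℝ) ^ (-b1) + (2 : ℝ) ^ (-(q : ℝ))) * 2 ^ D.card := by ring
    _ ≤ _ := mul_le_mul_of_nonneg_right herr hD.le

end Pool.Agent.RMS
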