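import Pool.Agent.RMS.St3
import Pool.Agent.PPS.MC

/-!
# Project RMS: from machines with a stack to machines with a stack or a tape
-/

set_option autoImplicit false

open Finset
open scoped Classical

namespace Pool.Agent.RMS

open Pool.Agent.PPS (SS Mcs HardC cube)
open Pool.Agent.PPL (sgP fP)

namespace HCU

theorem mct_mono {d : ℕ} {I : Type} {τ b b' : ℝ} (hb : b ≤ b') {P : (I → Bool) → Prop}
    (h : Mct d I τ b P) : Mct d I τ b' P := by
  obtain ⟨T, V, Γ, iV, iG, g, y, R, acc, h1, h2, h3, h4, h5, h6, h7, h8, h9⟩ := h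
  exact ⟨T, V, Γ, iV, iG, g, y, R, acc, h1, h2.trans hb, h3, h4.trans hb, h5, h6,
    fun t v a => (h7 t v a).trans hb, h8, h9⟩

theorem mct_false {d : ℕ} {I : Type} {τ b : ℝ} {P : (I → Bool) → Prop} (h : Mct d I τ b P) :
    Mct d I τ b fun _ => False := by
  obtain ⟨T, V, Γ, iV, iG, g, y, R, acc, h1, h2, h3, h4, h5, h6, h7, h8, h9⟩ := h
  exact ⟨T, V, Γ, iV, iG, g, y, R, fun _ => False, h1, h2, h3, h4, h5, h6, h7, h8,
    fun x => Iff.rfl⟩

end HCU

theorem t_HCU (hC : S_CRD) (hA : PPL.S_AVG) : S_HCU := by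
  intro N d τ b b1 Lf hb hN hH
  obtain ⟨⟨D, w, hne, hc⟩, -⟩ := hH
  have hbb : (2 : ℝ) ^ (-b1) * 2 ^ D.card ≤ (2 : ℝ) ^ (-(b + 3)) * 2 ^ D.card :=
    mul_le_mul_of_nonneg_right
      (Real.rpow_le_rpow_of_exponent_le (by norm_num) (by linarith)) (by positivity)
  have hb3 : (2 : ℝ) ^ (-(b + 3)) * 2 ^ D.card ≤ (2 : ℝ) ^ (-b) * 2 ^ D.card :=
    mul_le_mul_of_nonneg_right
      (Real.rpow_le_rpow_of_exponent_le (by norm_num) (by linarith)) (by positivity)
  have hall : ∀ P, Mcu d (Fin N) τ b P →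
      |∑ v ∈ cube D w, sgP (P v) * sgP (Lf v)| ≤ (2 : ℝ) ^ (-(b + 3)) * 2 ^ D.card := by
    intro P hP
    rcases hP with hP | hP
    · exact (hc P (PPS.MS.mcs_mono le_rfl (by linarith) hP)).trans hbb
    · exact hC N d τ (b + 3) b1 D w Lf hb hN hc P (HCU.mct_mono (by linarith) hP)
  refine ⟨⟨D, w, hne, fun P hP => (hall P hP).trans hb3⟩, fun W hW => ?_⟩
  refine hA (Fin N) (Mcu d (Fin N) τ b) (b + 3) Lf (cube D w) (PPS.MCx.cube_nonempty D w)
    (fun P hP => ?_) (fun P hP => ?_) W (by linarith)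
  · rcases hP with hP | hP
    · exact Or.inl (PPS.MS.mcs_false hP)
    · exact Or.inr (HCU.mct_false hP)
  · have h1 := hall P hP
    rw [PPS.MCx.cube_card]
    push_cast
    exact h1

end Pool.Agent.RMS
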