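import Pool.Agent.RMS.St2

/-!
# Project RMS, module IDX (helper26): the traces with at most `m` changes
-/

set_option autoImplicit false

open Finset
open scoped Classical

namespace Pool.Agent.RMS

namespace IDX

variable {P V Γ L D A O : Type}

/-- a finset with at most `m` elements is the range of a map from `Fin m` -/
lemma exists_map {α : Type} {m : ℕ} (S : Finset α) (h : S.card ≤ m) :
    ∃ φ : Fin m → Option α, ∀ a, a ∈ S ↔ ∃ i, φ i = some a := by
  refine ⟨fun i => if hi : i.1 < S.card then some (S.equivFin.symm ⟨i.1, hi⟩).1 else none,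
    fun a => ⟨fun ha => ?_, ?_⟩⟩
  · have h1 := (S.equivFin ⟨a, ha⟩).2
    refine ⟨⟨(S.equivFin ⟨a, ha⟩).1, h1.trans_le h⟩, ?_⟩
    simp only [h1, dif_pos, Fin.eta, Equiv.symm_apply_apply]
  · rintro ⟨i, hi⟩
    by_cases h1 : i.1 < S.card
    · simp only [h1, dif_pos] at hi
      rw [← Option.some_injective _ hi]
      exact (S.equivFin.symm ⟨i.1, h1⟩).2
    · simp only [h1, dif_neg, not_false_eq_true] at hi
      exact absurd hi (by simp)

/-- the trace given by a function on `Fin T` -/
def mk {B : Finset L} {T : ℕ} (f : Fin T → Option (V × B)) : ℕ → Option (V × L)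
  | 0 => none
  | t + 1 => if h : t < T then (f ⟨t, h⟩).map fun q => (q.1, (q.2 : L)) else none

lemma mk_succ {B : Finset L} {T : ℕ} (f : Fin T → Option (V × B)) {t : ℕ} (h : t < T) :
    mk f (t + 1) = (f ⟨t, h⟩).map fun q => (q.1, (q.2 : L)) := by
  simp only [mk, h, dif_pos]

lemma mk_succ' {B : Finset L} {T : ℕ} (f : Fin T → Option (V × B)) {t : ℕ} (h : ¬ t < T) :
    mk f (t + 1) = none := by
  simp only [mk, h, dif_neg, not_false_eq_true]

lemma emb_inj {B : Finset L} : Function.Injective fun q : V × B => (q.1, (q.2 : L)) := by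
  rintro ⟨a, b⟩ ⟨a', b'⟩ h
  simp only [Prod.mk.injEq] at h
  exact Prod.ext h.1 (Subtype.ext h.2)

lemma rm_succ [Zero L] (e : L ≃ A × O) (τ : ℕ → Option (V × L)) (t : ℕ) :
    rm e τ (t + 1) = match τ (t + 1) with
      | some q => (e q.2).1
      | none => rm e τ t := rfl

/-- the support -/
noncomputable def sup {B : Finset L} {T : ℕ} (f : Fin T → Option (V × B)) : Finset (Fin T) :=
  univ.filter fun t => f t ≠ none

/-- the room of the change at time `t` -/
def gr [Zero L] (e : L ≃ A × O) {B : Finset L} {T : ℕ} (f : Fin T → Option (V × B))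
    (t : Fin T) : A :=
  match f t with
  | some q => (e (q.2 : L)).1
  | none => (e 0).1

lemma rm_mem [Zero L] (e : L ≃ A × O) {B : Finset L} {T : ℕ} (f : Fin T → Option (V × B)) (t : ℕ) :
    rm e (mk f) t ∈ insert (e 0).1 ((sup f).image (gr e f)) := by
  induction t with
  | zero => exact mem_insert_self _ _
  | succ t ih =>
    rw [rm_succ]
    by_cases h : t < T
    · rw [mk_succ f h]
      cases hf : f ⟨t, h⟩ with
      | none => exact ih
      | some q =>
        refine mem_insert_of_mem (mem_image.2 ⟨⟨t, h⟩, ?_, ?_⟩)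
        · refine mem_filter.2 ⟨mem_univ _, ?_⟩
          rw [hf]
          simp
        · unfold gr
          rw [hf]
          rfl
    · rw [mk_succ' f h]
      exact ih

/-- the trace of the run on `x` -/
noncomputable def fx [Zero L] (R : TM P V Γ L D) (ac : D → L → L) (e : L ≃ A × O) {T : ℕ}
    {B : Finset L} (x : P → Bool) (hB : ∀ t ≤ T, (R.conf ac x t).p ∈ B) (u : Fin T) :
    Option (V × B) :=
  if (e (R.conf ac x (u.1 + 1)).p).1 = (e (R.conf ac x u.1).p).1 then none
  else some ((R.conf ac x (u.1 + 1)).v, ⟨(R.conf ac x (u.1 + 1)).p, hB _ u.2⟩)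

lemma mk_fx [Zero L] (R : TM P V Γ L D) (ac : D → L → L) (e : L ≃ A × O) {T : ℕ}
    {B : Finset L} (x : P → Bool) (hB : ∀ t ≤ T, (R.conf ac x t).p ∈ B) {u : ℕ} (hu : u < T) :
    mk (fx R ac e x hB) (u + 1) =
      if (e (R.conf ac x (u + 1)).p).1 = (e (R.conf ac x u).p).1 then none
      else some ((R.conf ac x (u + 1)).v, (R.conf ac x (u + 1)).p) := by
  rw [mk_succ _ hu]
  unfold fx
  by_cases h : (e (R.conf ac x (u + 1)).p).1 = (e (R.conf ac x u).p).1
  · rw [if_pos h, if_pos h]
    rfl
  · rw [if_neg h, if_neg h]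
    rfl

lemma tra_iff [Zero L] (R : TM P V Γ L D) (ac : D → L → L) (e : L ≃ A × O) {T : ℕ}
    {B : Finset L} (x : P → Bool) (hB : ∀ t ≤ T, (R.conf ac x t).p ∈ B)
    (f : Fin T → Option (V × B)) : Tra R ac e (mk f) x T ↔ f = fx R ac e x hB := by
  constructor
  · intro h
    funext u
    have h1 := h u.1 u.2
    rw [← mk_fx R ac e x hB u.2, mk_succ _ u.2, mk_succ _ u.2] at h1
    exact Option.map_injective emb_inj h1
  · rintro rfl u hu
    exact mk_fx R ac e x hB hu

lemma rm_fx [Zero L] (R : TM P V Γ L D) (ac : D → L → L) (e : L ≃ A × O) {T : ℕ}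
    {B : Finset L} (x : P → Bool) (hB : ∀ t ≤ T, (R.conf ac x t).p ∈ B) (t : ℕ) (ht : t ≤ T) :
    rm e (mk (fx R ac e x hB)) t = (e (R.conf ac x t).p).1 := by
  induction t with
  | zero => rfl
  | succ t ih =>
    rw [rm_succ, mk_fx R ac e x hB (by omega)]
    by_cases h : (e (R.conf ac x (t + 1)).p).1 = (e (R.conf ac x t).p).1
    · rw [if_pos h, h]
      exact ih (by omega)
    · rw [if_neg h]

lemma vld_fx [Zero L] (R : TM P V Γ L D) (ac : D → L → L) (e : L ≃ A × O) {T : ℕ}
    {B : Finset L} (x : P → Bool) (hB : ∀ t ≤ T, (R.conf ac x t).p ∈ B) :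
    Vld e (mk (fx R ac e x hB)) := by
  intro t q hq
  by_cases ht : t < T
  · rw [rm_fx R ac e x hB t ht.le]
    rw [mk_fx R ac e x hB ht] at hq
    by_cases h : (e (R.conf ac x (t + 1)).p).1 = (e (R.conf ac x t).p).1
    · rw [if_pos h] at hq
      exact absurd hq (by simp)
    · rw [if_neg h] at hq
      rw [← Option.some_injective _ hq]
      exact h
  · rw [mk_succ' _ ht] at hq
    exact absurd hq (by simp)

lemma sup_fx [Zero L] (R : TM P V Γ L D) (ac : D → L → L) (e : L ≃ A × O) {T : ℕ}
    {B : Finset L} (x : P → Bool) (hB : ∀ t ≤ T, (R.conf ac x t).p ∈ B) :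
    (sup (fx R ac e x hB)).card = ∑ t ∈ range T, R.chg ac e x t := by
  rw [Finset.sum_range]
  unfold sup
  rw [Finset.card_filter]
  refine Finset.sum_congr rfl fun u _ => ?_
  unfold fx TM.chg
  by_cases h : (e (R.conf ac x (u.1 + 1)).p).1 = (e (R.conf ac x u.1).p).1
  · rw [if_pos h, if_pos h]
    simp
  · rw [if_neg h, if_neg h]
    simp

end IDX

open IDX in
theorem t_IDX : S_IDX := by
  intro P V Γ L D A O _ _ R ac e T m B hB
  let ι : Type := {f : Fin T → Option (V × B) // (sup f).card ≤ m ∧ Vld e (mk f)}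
  have hcard : Fintype.card ι ≤ (T * Fintype.card V * B.card + 1) ^ m := by
    have h1 : ∀ i : ι, ∃ φ : Fin m → Option (Fin T × V × B), ∀ t q,
        i.1 t = some q ↔ ∃ j, φ j = some (t, q) := by
      intro i
      have h2 : ((univ : Finset (Fin T × V × B)).filter fun z => i.1 z.1 = some z.2).card ≤ m := by
        refine le_trans ?_ i.2.1
        refine Finset.card_le_card_of_injOn (fun z => z.1) ?_ ?_
        · intro z hz
          have hz' := (mem_filter.1 hz).2
          refine mem_filter.2 ⟨mem_univ _, ?_⟩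
          show i.1 z.1 ≠ none
          rw [hz']
          simp
        · intro z hz z' hz' h
          have h3 := (mem_filter.1 hz).2
          have h4 := (mem_filter.1 hz').2
          have h5 : z.1 = z'.1 := h
          rw [h5, h4] at h3
          exact Prod.ext h5 (Option.some_injective _ h3).symm
      obtain ⟨φ, hφ⟩ := exists_map _ h2
      refine ⟨φ, fun t q => ?_⟩
      rw [← hφ (t, q), mem_filter]
      simp
    choose φ hφ using h1
    have hinj : Function.Injective φ := by
      intro i i' h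
      refine Subtype.ext (funext fun t => ?_)
      refine Option.ext fun q => ?_
      rw [hφ i t q, hφ i' t q, h]
    refine (Fintype.card_le_of_injective φ hinj).trans ?_
    simp only [Fintype.card_fun, Fintype.card_option, Fintype.card_prod, Fintype.card_fin,
      Fintype.card_coe]
    rw [mul_assoc]
  refine ⟨ι, inferInstance, fun i => mk i.1, ?_, fun i => ⟨i.2.2, ?_⟩, fun x => ⟨fun hx => ?_, ?_⟩⟩
  · refine hcard.trans (Nat.pow_le_pow_left ?_ m)
    gcongr
    omega
  · refine (Finset.card_le_card (t := insert (e 0).1 ((sup i.1).image (gr e i.1))) ?_).trans ?_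
    · intro a ha
      obtain ⟨t, -, rfl⟩ := mem_image.1 ha
      exact rm_mem e i.1 t
    · refine (card_insert_le _ _).trans ?_
      exact Nat.succ_le_succ (card_image_le.trans i.2.1)
  · refine ⟨⟨fx R ac e x (hB x), ?_, vld_fx R ac e x (hB x)⟩, ?_, ?_⟩
    · rw [sup_fx]
      exact hx
    · exact (tra_iff R ac e x (hB x) _).2 rfl
    · intro i hi
      exact Subtype.ext ((tra_iff R ac e x (hB x) _).1 hi)
  · intro hx i hi
    have h1 := (tra_iff R ac e x (hB x) _).1 hi
    have h2 := i.2.1
    rw [h1, sup_fx] at h2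
    omega

end Pool.Agent.RMS
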