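import Pool.Agent.RMS.St2

/-!
# Project RMS, module LOC (helper10): the event of a trace is decided by a machine without tape
-/

set_option autoImplicit false

open Finset
open scoped Classical

namespace Pool.Agent.RMS

open Pool.Agent.PPS (SS)

namespace MLOC

variable {P V Γ L D A O : Type}

/-- the states as a product -/
def owE {j M K : ℕ} :
    Ow V O Γ j M K ≃ (V × O × (O → Γ)) × (Fin j → Fin (M + 1)) × Fin (K + 1) where
  toFun S := ((S.s.v, S.s.h, S.s.c), S.n, S.β)
  invFun q := ⟨⟨q.1.1, q.1.2.1, q.1.2.2⟩, q.2.1, q.2.2⟩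
  left_inv _ := rfl
  right_inv _ := rfl

theorem phs_none [Zero L] {R : TM P V Γ L D} {ac : D → L → L} {e : L ≃ A × O}
    {τ : ℕ → Option (V × L)} {T : ℕ} {w : V} {x : P → Bool} {a : A} {t : ℕ}
    (h : phs R ac e τ T w x a t = none) {u : ℕ} (hu : t ≤ u) :
    phs R ac e τ T w x a u = none := by
  induction u, hu using Nat.le_induction with
  | base => exact h
  | succ u hu ih =>
    show (phs R ac e τ T w x a u).bind _ = none
    rw [ih]
    rfl

/-- the list of the elements of a finite set -/
noncomputable def enu (s : Finset A) (d : A) (i : ℕ) : A :=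
  if h : i < s.card then (s.equivFin.symm ⟨i, h⟩ : A) else d

theorem enu_sum (s : Finset A) (d : A) (F : A → ℕ) :
    ∑ i ∈ range s.card, F (enu s d i) = ∑ a ∈ s, F a := by
  rw [Finset.sum_range (fun i => F (enu s d i)), ← Finset.sum_coe_sort s F,
    ← Equiv.sum_comp s.equivFin.symm (fun a : s => F a)]
  refine Finset.sum_congr rfl fun i _ => ?_
  unfold enu
  rw [dif_pos i.2]

theorem enu_surj (s : Finset A) (d : A) {a : A} (ha : a ∈ s) : ∃ i < s.card, enu s d i = a := by
  refine ⟨s.equivFin ⟨a, ha⟩, (s.equivFin ⟨a, ha⟩).2, ?_⟩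
  unfold enu
  rw [dif_pos (s.equivFin ⟨a, ha⟩).2]
  simp

/-- the run and the simulation of the rooms -/
theorem key [Zero L] (h1 : S_TRU) {R : TM P V Γ L D} {ac : D → L → L} {e : L ≃ A × O}
    {τ : ℕ → Option (V × L)} {T : ℕ} {w : V} {x : P → Bool} (hT : Tra R ac e τ x T)
    (hw : (R.conf ac x T).v = w) :
    (∀ a, phs R ac e τ T w x a T ≠ none) ∧ ∀ t < T, ∀ a,
      evb R ac e τ T w x a t = (if a = rm e τ t then R.bits ac x t else 0) ∧
      ∀ e' : L ≃ A × O, evc R ac e τ T w e' x a t =
        if a = rm e τ t then R.chg ac e' x t else 0 := by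
  have h2 := (h1 P V Γ L D A O R ac e τ T w x).1
  constructor
  · intro a
    obtain ⟨-, h3⟩ := h2 T le_rfl hT fun _ => hw
    obtain ⟨S, hS, -⟩ := h3 a
    rw [hS]
    exact Option.some_ne_none S
  intro t ht a
  obtain ⟨hr, h3⟩ := h2 t ht.le (fun u hu => hT u (hu.trans ht)) fun _ => hw
  obtain ⟨S, hS, hc, hv⟩ := h3 a
  by_cases ha : a = rm e τ t
  · obtain ⟨v1, v2⟩ := hv ha.symm
    have hp : e.symm (a, S.h) = (R.conf ac x t).p := by
      rw [v2, ha, hr]
      exact e.symm_apply_apply _
    have hl : S.c S.h = (R.conf ac x t).c (R.conf ac x t).p := by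
      rw [hc, hp]
    constructor
    · unfold evb
      rw [hS, if_pos ha]
      show bit R e τ a t S = _
      unfold bit TM.bits
      rw [if_pos ha.symm, v1, hl]
    · intro e'
      unfold evc
      rw [hS, if_pos ha]
      show cgo R ac e τ e' x a t S = _
      have hn : nxc R ac e x a t S = (R.conf ac x (t + 1)).p := by
        unfold nxc opr
        rw [hp, v1, hl]
        rfl
      unfold cgo TM.chg
      rw [hn, hp]
      by_cases hq : (e' (R.conf ac x (t + 1)).p).1 = (e' (R.conf ac x t).p).1
      · rw [if_pos hq, if_neg fun h => h.2 hq]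
      · rw [if_neg hq, if_pos ⟨ha.symm, hq⟩]
  · constructor
    · unfold evb
      rw [hS, if_neg ha]
      show bit R e τ a t S = 0
      unfold bit
      rw [if_neg fun h => ha h.symm]
    · intro e'
      unfold evc
      rw [hS, if_neg ha]
      show cgo R ac e τ e' x a t S = 0
      unfold cgo
      rw [if_neg fun h => ha h.1.symm]

/-- sums over rooms and times -/
theorem dsum {T : ℕ} {r : ℕ → A} {d : A} {F : A → ℕ → ℕ} {G : ℕ → ℕ}
    (h : ∀ t < T, ∀ a, F a t = if a = r t then G t else 0) :
    ∑ i ∈ range ((range T).image r).card, ∑ t ∈ range T, F (enu ((range T).image r) d i) t =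
      ∑ t ∈ range T, G t := by
  rw [enu_sum ((range T).image r) d (fun a => ∑ t ∈ range T, F a t), Finset.sum_comm]
  refine Finset.sum_congr rfl fun t ht => ?_
  have ht' := Finset.mem_range.1 ht
  rw [Finset.sum_congr rfl fun a _ => h t ht' a, Finset.sum_ite_eq' , if_pos]
  exact Finset.mem_image_of_mem r ht

end MLOC

open MLOC in
theorem t_LOC (hTRU : S_TRU) (hOWN : S_OWN) : S_LOC := by
  intro P V Γ L D A O _ _ _ _ R ac e τ T M K len j s w es hV hs hK hlen
  set s0 : Finset A := (range T).image (rm e τ) with hs0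
  set as : ℕ → A := enu s0 (e 0).1 with has
  letI : Fintype (Ow V O Γ j M K) := Fintype.ofEquiv _ owE.symm
  refine ⟨Option (Ow V O Γ j M K), inferInstance, own R ac e τ T w es M K as,
    fun S => (T = 0 → w = R.start) ∧ ∃ S', S = some S' ∧ ∀ i, (S'.n i).val = M,
    s0.card * T, Nat.mul_le_mul_right T hlen, ?_, ?_, ?_, ?_⟩
  · rw [Fintype.card_option, Fintype.card_congr (owE (V := V) (O := O) (Γ := Γ) (j := j) (M := M) (K := K))]
    simp only [Fintype.card_prod, Fintype.card_fun, Fintype.card_fin]
    apply le_of_eq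
    ring
  · intro t v
    cases v with
    | none => exact Nat.zero_le s
    | some S =>
      show (if _ then _ else _ : Finset P).card ≤ s
      split_ifs
      · exact hs _ _ _
      · exact Nat.zero_le s
  · intro x
    exact (hOWN P V Γ L D A O R ac e τ T M K j w es as x).1 _
  · intro x
    obtain ⟨-, h2⟩ := hOWN P V Γ L D A O R ac e τ T M K j w es as x
    obtain ⟨h3, h4⟩ := h2 s0.card
    constructor
    · rintro ⟨hT0, S', hS', hM⟩
      have h5 := (h3.1 (by rw [hS']; exact Option.some_ne_none S')).1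
      have h6 := (hTRU P V Γ L D A O R ac e τ T w x).2 hV (by
        intro t ht h7
        obtain ⟨i, hi, hai⟩ := enu_surj s0 (e 0).1
          (Finset.mem_image_of_mem (rm e τ) (Finset.mem_range.2 ht))
        apply h5 i hi
        rw [has, hai]
        exact phs_none h7 ht)
      obtain ⟨hTr, hv⟩ := h6
      have hw : (R.conf ac x T).v = w := by
        rcases Nat.eq_zero_or_pos T with h | h
        · rw [hT0 h, h]
          rfl
        · exact hv h
      refine ⟨hTr, hw, fun i => ?_⟩
      have h8 := h4 S' hS' i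
      rw [hM i] at h8
      have h9 := (key hTRU hTr hw).2
      have h10 : ∑ i' ∈ range s0.card, ∑ t ∈ range T, evc R ac e τ T w (es i) x (as i') t =
          ∑ t ∈ range T, R.chg ac (es i) x t :=
        dsum fun t ht a => (h9 t ht a).2 (es i)
      rw [h10] at h8
      omega
    · rintro ⟨hTr, hw, hM⟩
      obtain ⟨h8, h9⟩ := key hTRU hTr hw
      have h10 : ∑ i' ∈ range s0.card, ∑ t ∈ range T, evb R ac e τ T w x (as i') t =
          ∑ t ∈ range T, R.bits ac x t :=
        dsum fun t ht a => (h9 t ht a).1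
      have h11 := h3.2 ⟨fun i _ => h8 (as i), by rw [h10]; exact hK x⟩
      obtain ⟨S, hS⟩ := Option.ne_none_iff_exists'.1 h11
      refine ⟨?_, S, hS, fun i => ?_⟩
      · rintro rfl
        exact hw.symm
      · rw [h4 S hS i]
        have h12 : ∑ i' ∈ range s0.card, ∑ t ∈ range T, evc R ac e τ T w (es i) x (as i') t =
            ∑ t ∈ range T, R.chg ac (es i) x t :=
          dsum fun t ht a => (h9 t ht a).2 (es i)
        rw [h12]
        exact min_eq_left (hM i)

end Pool.Agent.RMS
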