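import Pool.Agent.RMS.St3

/-!
# Project RMS, module ND1: the numbers for time `k N` and dimension `1` (helper44)
-/

set_option autoImplicit false

namespace Pool.Agent.RMS

namespace ND1x

/-- `t ^ 6 ≤ 2 ^ t` for `t ≥ 324` -/
lemma pow6 {t : ℝ} (ht : 324 ≤ t) : t ^ 6 ≤ (2 : ℝ) ^ t := by
  have hl : (2 : ℝ) / 3 ≤ Real.log 2 := by
    have := Real.log_two_gt_d9
    linarith
  have h1 : t / 18 ≤ (2 : ℝ) ^ (t / 12) := by
    rw [Real.rpow_def_of_pos two_pos]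
    have h2 := Real.add_one_le_exp (Real.log 2 * (t / 12))
    have h3 : (2 : ℝ) / 3 * (t / 12) ≤ Real.log 2 * (t / 12) :=
      mul_le_mul_of_nonneg_right hl (by linarith)
    linarith
  have h4 : (2 : ℝ) ^ t = ((2 : ℝ) ^ (t / 12)) ^ 12 := by
    rw [← Real.rpow_natCast, ← Real.rpow_mul two_pos.le]
    congr 1
    push_cast
    ring
  rw [h4]
  have h5 : (t / 18) ^ 12 ≤ ((2 : ℝ) ^ (t / 12)) ^ 12 :=
    pow_le_pow_left₀ (by linarith) h1 12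
  refine le_trans ?_ h5
  have h6 : t ≤ (t / 18) ^ 2 := by
    rw [div_pow, le_div_iff₀ (by norm_num)]
    nlinarith
  calc t ^ 6 ≤ ((t / 18) ^ 2) ^ 6 := pow_le_pow_left₀ (by linarith) h6 6
    _ = (t / 18) ^ 12 := by ring

/-- `N ^ 3 ≤ 2 ^ (N / (8 X))` -/
lemma cube {n x : ℝ} (hx : 1 ≤ x) (hn : 2 ^ 60 * x ^ 4 ≤ n) : n ^ 3 ≤ (2 : ℝ) ^ (n / (8 * x)) := by
  have hx0 : 0 < x := by linarith
  set t := n / (8 * x) with ht
  have h1 : n = 8 * x * t := by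
    rw [ht]
    field_simp
  have h2 : 2 ^ 57 * x ^ 3 ≤ t := by
    have h3 : 8 * x * (2 ^ 57 * x ^ 3) ≤ 8 * x * t := by
      rw [← h1]
      calc 8 * x * (2 ^ 57 * x ^ 3) = 2 ^ 60 * x ^ 4 := by ring
        _ ≤ n := hn
    exact le_of_mul_le_mul_left h3 (by positivity)
  have hx3 : x ≤ x ^ 3 := by
    calc x = x ^ 1 := (pow_one x).symm
      _ ≤ x ^ 3 := pow_le_pow_right₀ hx (by norm_num)
  have h8 : 8 * x ≤ t := by linarith
  have ht0 : 324 ≤ t := by linarith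
  have h9 : n ≤ t ^ 2 := by
    rw [h1, pow_two]
    exact mul_le_mul_of_nonneg_right h8 (by linarith)
  have hn0 : 0 ≤ n := by
    rw [h1]
    have : 0 ≤ t := by linarith
    positivity
  calc n ^ 3 ≤ (t ^ 2) ^ 3 := pow_le_pow_left₀ hn0 h9 3
    _ = t ^ 6 := by ring
    _ ≤ 2 ^ t := pow6 ht0

lemma rp_add (a b : ℝ) : (2 : ℝ) ^ a * (2 : ℝ) ^ b = (2 : ℝ) ^ (a + b) :=
  (Real.rpow_add two_pos a b).symm

lemma rp_le {a b : ℝ} (h : a ≤ b) : (2 : ℝ) ^ a ≤ (2 : ℝ) ^ b :=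
  Real.rpow_le_rpow_of_exponent_le one_le_two h

lemma rp_nat (n : ℕ) : (2 : ℝ) ^ (n : ℝ) = ((2 ^ n : ℕ) : ℝ) := by
  rw [Real.rpow_natCast]
  push_cast
  rfl

/-- the number of the nodes -/
lemma nodes {m T v Z W q K : ℕ} (hv : 1 ≤ v) (hZ : 1 ≤ Z) (hW : 1 ≤ W) :
    ((m + 1) * T + 1) * (1 + v * Z * W * (m + 2) ^ q * (K + 1)) ≤
      (2 * (m + 2) * Z * (K + 1)) * ((T + 1) * v) * W * (m + 2) ^ q := by
  have h1 : (m + 1) * T + 1 ≤ (m + 2) * (T + 1) := by nlinarith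
  have h2 : 1 ≤ v * Z * W * (m + 2) ^ q * (K + 1) := by
    have h3 : 0 < v * Z * W * (m + 2) ^ q * (K + 1) := by positivity
    exact h3
  calc ((m + 1) * T + 1) * (1 + v * Z * W * (m + 2) ^ q * (K + 1)) ≤
        ((m + 2) * (T + 1)) * (2 * (v * Z * W * (m + 2) ^ q * (K + 1))) :=
        Nat.mul_le_mul h1 (by omega)
    _ = (2 * (m + 2) * Z * (K + 1)) * ((T + 1) * v) * W * (m + 2) ^ q := by ring

/-- the second inequality -/
lemma tail {b b1 P Q v : ℝ} {q m : ℕ} (hP : P ≤ (2 : ℝ) ^ (2 * b + 2)) (hP0 : 0 ≤ P)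
    (hq : (q : ℝ) ≤ (2 : ℝ) ^ (b1 / 8)) (hv0 : 0 ≤ v) (hv : v ≤ (2 : ℝ) ^ b)
    (hm : (2 * b + 2) * m ≤ b1 / 8) (h0 : 0 ≤ b1) (hb : 2 * b + 1 ≤ b1 / 2) (hQ : Q = (q : ℝ))
    (hqb : b + 1 ≤ Q) :
    ((q : ℝ) * P ^ m * v) * (2 : ℝ) ^ (-b1) + (2 : ℝ) ^ (-(q : ℝ)) ≤ (2 : ℝ) ^ (-b) := by
  have h1 : P ^ m ≤ (2 : ℝ) ^ (b1 / 8) := by
    calc P ^ m ≤ ((2 : ℝ) ^ (2 * b + 2)) ^ m := pow_le_pow_left₀ hP0 hP m
      _ = (2 : ℝ) ^ ((2 * b + 2) * m) := by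
          rw [← Real.rpow_natCast, ← Real.rpow_mul two_pos.le]
      _ ≤ _ := rp_le hm
  have h2 : (q : ℝ) * P ^ m * v ≤ (2 : ℝ) ^ (b1 / 8) * (2 : ℝ) ^ (b1 / 8) * (2 : ℝ) ^ b := by
    refine mul_le_mul (mul_le_mul hq h1 (by positivity) (by positivity)) hv hv0 (by positivity)
  have h3 : ((q : ℝ) * P ^ m * v) * (2 : ℝ) ^ (-b1) ≤ (2 : ℝ) ^ (-b - 1) := by
    calc ((q : ℝ) * P ^ m * v) * (2 : ℝ) ^ (-b1) ≤
          ((2 : ℝ) ^ (b1 / 8) * (2 : ℝ) ^ (b1 / 8) * (2 : ℝ) ^ b) * (2 : ℝ) ^ (-b1) :=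
          mul_le_mul_of_nonneg_right h2 (by positivity)
      _ = (2 : ℝ) ^ (b1 / 8 + b1 / 8 + b + -b1) := by rw [rp_add, rp_add, rp_add]
      _ ≤ _ := rp_le (by linarith)
  have h4 : (2 : ℝ) ^ (-(q : ℝ)) ≤ (2 : ℝ) ^ (-b - 1) := rp_le (by rw [← hQ]; linarith)
  have h5 : (2 : ℝ) ^ (-b) = (2 : ℝ) ^ (-b - 1) + (2 : ℝ) ^ (-b - 1) := by
    have h6 : -b = (-b - 1) + 1 := by ring
    rw [h6, Real.rpow_add two_pos, Real.rpow_one]
    have h7 : -b - 1 + 1 - 1 = -b - 1 := by ring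
    rw [h7]
    ring
  rw [h5]
  exact add_le_add h3 h4

end ND1x

open ND1x

theorem t_ND1 : S_ND1 := by
  intro k X N hk hX hN T v γ g K y hy0 hyb hTv hv hγ hγg hg hgb hK
  rw [pow_one] at hyb
  -- the numbers
  have κ2 : (2 : ℝ) ≤ (k : ℝ) := by exact_mod_cast hk
  have x1 : (1 : ℝ) ≤ (X : ℝ) := by exact_mod_cast hX
  have hn : (2 : ℝ) ^ 60 * ((k : ℝ) * X) ^ 4 ≤ (N : ℝ) := by exact_mod_cast hN
  generalize hnn : (N : ℝ) = n at *
  generalize hκκ : (k : ℝ) = κ at *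
  generalize hxx : (X : ℝ) = x at *
  have κ0 : 0 < κ := by linarith
  have x0 : 0 < x := by linarith
  have hκx : 2 ≤ κ * x := κ2.trans (le_mul_of_one_le_right κ0.le x1)
  have hκx0 : 0 < κ * x := by positivity
  have hn0 : 0 < n := lt_of_lt_of_le (by positivity) hn
  set b : ℝ := n / (2 ^ 16 * κ * x ^ 2) with hb
  set b1 : ℝ := n / x with hb1
  have e1 : b1 = 65536 * (κ * x) * b := by
    rw [hb, hb1]
    field_simp
    norm_num
  have hbig : (2 : ℝ) ^ 44 ≤ b := by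
    rw [hb, le_div_iff₀ (by positivity)]
    calc (2 : ℝ) ^ 44 * (2 ^ 16 * κ * x ^ 2) = 2 ^ 60 * (κ * x ^ 2) := by ring
      _ ≤ 2 ^ 60 * (κ * x) ^ 4 := by
          refine mul_le_mul_of_nonneg_left ?_ (by positivity)
          rw [mul_pow]
          refine mul_le_mul ?_ ?_ (by positivity) (by positivity)
          · calc κ = κ ^ 1 := (pow_one κ).symm
              _ ≤ κ ^ 4 := pow_le_pow_right₀ (by linarith) (by norm_num)
          · exact pow_le_pow_right₀ x1 (by norm_num)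
      _ ≤ n := hn
  have hb0 : 0 < b := lt_of_lt_of_le (by norm_num) hbig
  have hb1b : 131072 * b ≤ b1 := by
    have h1 := mul_le_mul_of_nonneg_right hκx hb0.le
    rw [e1]
    linarith
  have hb10 : 0 < b1 := by linarith
  have hb1n : b1 ≤ n := by
    rw [hb1, div_le_iff₀ x0]
    exact le_mul_of_one_le_right hn0.le x1
  have hnb1 : n = b1 * x := by
    rw [hb1]
    field_simp
  have hg1 : (1 : ℝ) ≤ (g : ℝ) := by exact_mod_cast hg
  have hg0 : (0 : ℝ) < (g : ℝ) := by linarith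
  have hcube : n ^ 3 ≤ (2 : ℝ) ^ (b1 / 8) := by
    have h1 : 2 ^ 60 * x ^ 4 ≤ n := by
      refine le_trans ?_ hn
      refine mul_le_mul_of_nonneg_left ?_ (by positivity)
      exact pow_le_pow_left₀ x0.le (le_mul_of_one_le_left x0.le (by linarith)) 4
    have h2 := cube x1 h1
    have h3 : n / (8 * x) = b1 / 8 := by
      rw [hb1]
      field_simp
    rwa [h3] at h2
  -- Z
  obtain ⟨Z, hZu, hZl⟩ : ∃ Z : ℕ, (Z : ℝ) ≤ b1 / (8 * g) ∧ b1 / (8 * g) < Z + 1 :=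
    ⟨⌊b1 / (8 * g)⌋₊, Nat.floor_le (by positivity), Nat.lt_floor_add_one _⟩
  have hZu' : (g : ℝ) * Z ≤ b1 / 8 := by
    rw [le_div_iff₀ (by positivity)] at hZu
    linarith
  have hZl' : b1 / 16 ≤ (g : ℝ) * Z := by
    rw [div_lt_iff₀ (by positivity)] at hZl
    have h1 : ((Z : ℝ) + 1) * (8 * g) = 8 * (g * Z) + 8 * g := by ring
    rw [h1] at hZl
    linarith
  have hZ1 : 1 ≤ Z := by
    rcases Nat.eq_zero_or_pos Z with h | h
    · rw [h] at hZl'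
      push_cast at hZl'
      linarith
    · exact h
  have hZn : (Z : ℝ) ≤ n := by
    have h0 : (0 : ℝ) ≤ (Z : ℝ) := Nat.cast_nonneg Z
    have h1 : (Z : ℝ) ≤ g * Z := le_mul_of_one_le_left h0 hg1
    linarith
  -- m
  obtain ⟨m, hm⟩ : ∃ m : ℕ, m = 32 * k * X := ⟨_, rfl⟩
  have hmr : (m : ℝ) = 32 * (κ * x) := by
    rw [hm]
    push_cast
    rw [hκκ, hxx]
    ring
  have hm33 : (m : ℝ) + 2 ≤ 33 * (κ * x) := by linarith
  -- q
  obtain ⟨q, hqu, hql⟩ : ∃ q : ℕ, (q : ℝ) ≤ b1 / (8 * ((m : ℝ) + 2)) ∧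
      b1 / (8 * ((m : ℝ) + 2)) < q + 1 :=
    ⟨⌊b1 / (8 * ((m : ℝ) + 2))⌋₊, Nat.floor_le (by positivity), Nat.lt_floor_add_one _⟩
  have hqu' : ((m : ℝ) + 2) * q ≤ b1 / 8 := by
    rw [le_div_iff₀ (by positivity)] at hqu
    linarith
  have hqb : b + 1 ≤ (q : ℝ) := by
    rw [div_lt_iff₀ (by positivity)] at hql
    have h0 : (0 : ℝ) ≤ (q : ℝ) := Nat.cast_nonneg q
    have h1 : b1 < 264 * (κ * x) * (q + 1) := by
      refine hql.trans_le ?_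
      calc ((q : ℝ) + 1) * (8 * ((m : ℝ) + 2)) ≤ ((q : ℝ) + 1) * (8 * (33 * (κ * x))) :=
            mul_le_mul_of_nonneg_left (by linarith) (by linarith)
        _ = 264 * (κ * x) * (q + 1) := by ring
    rw [e1] at h1
    have h2 : (κ * x) * (65536 * b) < (κ * x) * (264 * (q + 1)) := by linarith
    have h3 := lt_of_mul_lt_mul_left h2 hκx0.le
    linarith
  have hqn : (q : ℝ) ≤ n := by
    have h0 : (0 : ℝ) ≤ (q : ℝ) := Nat.cast_nonneg q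
    have hm0 : (0 : ℝ) ≤ (m : ℝ) := Nat.cast_nonneg m
    have h1 : (q : ℝ) ≤ ((m : ℝ) + 2) * q := le_mul_of_one_le_left h0 (by linarith)
    linarith
  have hn1 : 1 ≤ n := by linarith
  have hq3 : (q : ℝ) ≤ (2 : ℝ) ^ (b1 / 8) := by
    refine le_trans (hqn.trans ?_) hcube
    calc n = n ^ 1 := (pow_one n).symm
      _ ≤ n ^ 3 := pow_le_pow_right₀ hn1 (by norm_num)
  -- T, v
  have hTv' : (((T + 1) * v : ℕ) : ℝ) ≤ (2 : ℝ) ^ b := hTv.trans (rp_le hyb)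
  have hv1 : (1 : ℝ) ≤ (v : ℝ) := by exact_mod_cast hv
  have hT0 : (0 : ℝ) ≤ (T : ℝ) := Nat.cast_nonneg T
  have hTb : (T : ℝ) + 1 ≤ (2 : ℝ) ^ b := by
    refine le_trans ?_ hTv'
    push_cast
    exact le_mul_of_one_le_right (by linarith) hv1
  have hvb : (v : ℝ) ≤ (2 : ℝ) ^ b := by
    refine le_trans ?_ hTv'
    push_cast
    exact le_mul_of_one_le_left (by linarith) (by linarith)
  have hm0 : (0 : ℝ) ≤ (m : ℝ) := Nat.cast_nonneg m
  refine ⟨Z, m, q, hZ1, ?_, ?_, ?_⟩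
  · -- 2 τ ≤ (m + 1) g Z
    have h1 : ((m : ℝ) + 1) * (b1 / 16) ≤ ((m : ℝ) + 1) * (g * Z) :=
      mul_le_mul_of_nonneg_left hZl' (by linarith)
    refine le_trans ?_ h1
    rw [hmr, hnb1]
    have h2 : (32 * (κ * x) + 1) * (b1 / 16) = 2 * (κ * (b1 * x)) + b1 / 16 := by ring
    rw [h2]
    linarith
  · -- nodes
    rw [pow_one]
    have hW : 1 ≤ γ ^ Z := Nat.one_le_pow _ _ hγ
    have h1 := nodes (m := m) (T := T) (q := q) (K := K) hv hZ1 hW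
    have h2 : ((((m + 1) * T + 1) * (1 + v * Z * γ ^ Z * (m + 2) ^ q * (K + 1)) : ℕ) : ℝ) ≤
        (((2 * (m + 2) * Z * (K + 1)) * ((T + 1) * v) * γ ^ Z * (m + 2) ^ q : ℕ) : ℝ) := by
      exact_mod_cast h1
    refine h2.trans ?_
    have a1 : ((2 * (m + 2) * Z * (K + 1) : ℕ) : ℝ) ≤ (2 : ℝ) ^ (b1 / 8) := by
      refine le_trans ?_ hcube
      push_cast
      have hK0 : (0 : ℝ) ≤ (K : ℝ) := Nat.cast_nonneg K
      have hK2 : (K : ℝ) + 1 ≤ 2 * κ * n := by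
        have h3 : 1 ≤ κ * n := one_le_mul_of_one_le_of_one_le (by linarith) hn1
        linarith
      have hZ0 : (0 : ℝ) ≤ (Z : ℝ) := Nat.cast_nonneg Z
      have c1 : 2 * ((m : ℝ) + 2) * Z ≤ 66 * (κ * x) * n := by
        have c2 : 2 * ((m : ℝ) + 2) ≤ 66 * (κ * x) := by linarith
        exact mul_le_mul c2 hZn hZ0 (by positivity)
      have c3 : 2 * ((m : ℝ) + 2) * Z * ((K : ℝ) + 1) ≤ 66 * (κ * x) * n * (2 * κ * n) :=
        mul_le_mul c1 hK2 (by positivity) (by positivity)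
      refine c3.trans ?_
      have c4 : 132 * (κ ^ 2 * x) ≤ n := by
        refine le_trans ?_ hn
        have c5 : κ ^ 2 * x ≤ (κ * x) ^ 4 := by
          rw [mul_pow]
          refine mul_le_mul ?_ ?_ x0.le (by positivity)
          · exact pow_le_pow_right₀ (by linarith) (by norm_num)
          · calc x = x ^ 1 := (pow_one x).symm
              _ ≤ x ^ 4 := pow_le_pow_right₀ x1 (by norm_num)
        have c6 : (0 : ℝ) ≤ (κ * x) ^ 4 := by positivity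
        have c7 : (0 : ℝ) ≤ κ ^ 2 * x := by positivity
        calc 132 * (κ ^ 2 * x) ≤ 132 * (κ * x) ^ 4 := by linarith
          _ ≤ 2 ^ 60 * (κ * x) ^ 4 := mul_le_mul_of_nonneg_right (by norm_num) c6
      calc 66 * (κ * x) * n * (2 * κ * n) = (132 * (κ ^ 2 * x)) * n ^ 2 := by ring
        _ ≤ n * n ^ 2 := mul_le_mul_of_nonneg_right c4 (by positivity)
        _ = n ^ 3 := by ring
    have a2 : ((γ ^ Z : ℕ) : ℝ) ≤ (2 : ℝ) ^ (b1 / 8) := by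
      have c1 : γ ^ Z ≤ 2 ^ (g * Z) := by
        rw [pow_mul]
        exact Nat.pow_le_pow_left hγg Z
      have c2 : ((γ ^ Z : ℕ) : ℝ) ≤ ((2 ^ (g * Z) : ℕ) : ℝ) := by exact_mod_cast c1
      refine c2.trans ?_
      rw [← rp_nat]
      refine rp_le ?_
      push_cast
      exact hZu'
    have a3 : (((m + 2) ^ q : ℕ) : ℝ) ≤ (2 : ℝ) ^ (b1 / 8) := by
      have c1 : (m + 2) ^ q ≤ 2 ^ ((m + 2) * q) := by
        rw [pow_mul]
        exact Nat.pow_le_pow_left (Nat.lt_two_pow_self (n := m + 2)).le q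
      have c2 : (((m + 2) ^ q : ℕ) : ℝ) ≤ ((2 ^ ((m + 2) * q) : ℕ) : ℝ) := by exact_mod_cast c1
      refine c2.trans ?_
      rw [← rp_nat]
      refine rp_le ?_
      push_cast
      exact hqu'
    have a4 : (((2 * (m + 2) * Z * (K + 1)) * ((T + 1) * v) * γ ^ Z * (m + 2) ^ q : ℕ) : ℝ) =
        ((2 * (m + 2) * Z * (K + 1) : ℕ) : ℝ) * (((T + 1) * v : ℕ) : ℝ) * ((γ ^ Z : ℕ) : ℝ) *
          (((m + 2) ^ q : ℕ) : ℝ) := by
      rw [Nat.cast_mul, Nat.cast_mul, Nat.cast_mul]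
    rw [a4]
    calc ((2 * (m + 2) * Z * (K + 1) : ℕ) : ℝ) * (((T + 1) * v : ℕ) : ℝ) * ((γ ^ Z : ℕ) : ℝ) *
          (((m + 2) ^ q : ℕ) : ℝ) ≤
          (2 : ℝ) ^ (b1 / 8) * (2 : ℝ) ^ b * (2 : ℝ) ^ (b1 / 8) * (2 : ℝ) ^ (b1 / 8) := by
          refine mul_le_mul (mul_le_mul (mul_le_mul a1 hTv' (Nat.cast_nonneg _) (by positivity))
            a2 (Nat.cast_nonneg _) (by positivity)) a3 (Nat.cast_nonneg _) (by positivity)
      _ = (2 : ℝ) ^ (b1 / 8 + b + b1 / 8 + b1 / 8) := by rw [rp_add, rp_add, rp_add]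
      _ ≤ (2 : ℝ) ^ b1 := rp_le (by linarith)
  · -- the tail
    have hP : (((T + 1) * v * (2 * T + 1) ^ 1 + 1 : ℕ) : ℝ) ≤ (2 : ℝ) ^ (2 * b + 2) := by
      have d1 : (((T + 1) * v * (2 * T + 1) ^ 1 + 1 : ℕ) : ℝ) =
          (((T + 1) * v : ℕ) : ℝ) * (2 * (T : ℝ) + 1) + 1 := by
        push_cast
        ring
      rw [d1]
      have d2 : 2 * (T : ℝ) + 1 ≤ 2 * (2 : ℝ) ^ b := by linarith
      have d3 : (((T + 1) * v : ℕ) : ℝ) * (2 * (T : ℝ) + 1) ≤ (2 : ℝ) ^ b * (2 * (2 : ℝ) ^ b) :=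
        mul_le_mul hTv' d2 (by positivity) (by positivity)
      have d4 : (2 : ℝ) ^ (2 * b + 2) = 4 * ((2 : ℝ) ^ b * (2 : ℝ) ^ b) := by
        rw [rp_add, Real.rpow_add two_pos]
        have : (2 : ℝ) ^ (2 : ℝ) = 4 := by
          rw [Real.rpow_two]
          norm_num
        rw [this, show 2 * b = b + b by ring]
        ring
      have d5 : 1 ≤ (2 : ℝ) ^ b * (2 : ℝ) ^ b := by
        rw [rp_add]
        exact Real.one_le_rpow one_le_two (by linarith)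
      rw [d4]
      linarith
    have hpow : ((q * ((T + 1) * v * (2 * T + 1) ^ 1 + 1) ^ m * v : ℕ) : ℝ) =
        (q : ℝ) * (((T + 1) * v * (2 * T + 1) ^ 1 + 1 : ℕ) : ℝ) ^ m * (v : ℝ) := by
      rw [Nat.cast_mul, Nat.cast_mul, Nat.cast_pow]
    rw [hpow]
    refine tail hP (Nat.cast_nonneg _) hq3 (by linarith) hvb ?_ hb10.le (by linarith) rfl hqb
    rw [hmr]
    have f1 : (2 * b + 2) * (32 * (κ * x)) ≤ 4 * b * (32 * (κ * x)) :=
      mul_le_mul_of_nonneg_right (by linarith) (by positivity)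
    refine f1.trans ?_
    rw [e1]
    have f2 : 0 ≤ (κ * x) * b := by positivity
    linarith

end Pool.Agent.RMS
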