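import Mathlib

/-!
# Project RMS: powers and logarithms for large `N`
-/

set_option autoImplicit false

namespace Pool.Agent.RMS

open Filter Asymptotics

/-- `C N ^ a (log N) ^ j ≤ N ^ b` for large `N`, if `a < b` -/
theorem pw (C a b : ℝ) (j : ℕ) (h : a < b) : ∃ N0 : ℕ, ∀ N : ℕ, N0 ≤ N →
    C * (N : ℝ) ^ a * Real.log N ^ j ≤ (N : ℝ) ^ b := by
  have h1 : (fun x : ℝ => Real.log x ^ (j : ℝ)) =o[atTop] fun x => x ^ (b - a) :=
    isLittleO_log_rpow_rpow_atTop j (by linarith)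
  have h2 := h1.def (c := 1 / (|C| + 1)) (by positivity)
  have h3 := (tendsto_natCast_atTop_atTop (R := ℝ)).eventually
    ((h2.and (eventually_ge_atTop (1 : ℝ))))
  obtain ⟨N0, hN0⟩ := eventually_atTop.1 h3
  refine ⟨N0, fun N hN => ?_⟩
  obtain ⟨h4, h5⟩ := hN0 N hN
  have hN1 : (0 : ℝ) < N := by linarith
  have hl : 0 ≤ Real.log (N : ℝ) := Real.log_nonneg h5
  rw [Real.rpow_natCast, Real.norm_of_nonneg (pow_nonneg hl j),
    Real.norm_of_nonneg (Real.rpow_nonneg hN1.le _)] at h4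
  have h6 : (|C| + 1) * Real.log (N : ℝ) ^ j ≤ (N : ℝ) ^ (b - a) := by
    have h7 := mul_le_mul_of_nonneg_left h4 (by positivity : (0 : ℝ) ≤ |C| + 1)
    refine h7.trans (le_of_eq ?_)
    field_simp
  have h8 : C * Real.log (N : ℝ) ^ j ≤ (N : ℝ) ^ (b - a) := by
    refine le_trans ?_ h6
    apply mul_le_mul_of_nonneg_right _ (pow_nonneg hl j)
    linarith [le_abs_self C]
  calc C * (N : ℝ) ^ a * Real.log N ^ j = (N : ℝ) ^ a * (C * Real.log N ^ j) := by ring
    _ ≤ (N : ℝ) ^ a * (N : ℝ) ^ (b - a) :=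
        mul_le_mul_of_nonneg_left h8 (Real.rpow_nonneg hN1.le _)
    _ = (N : ℝ) ^ b := by
        rw [← Real.rpow_add hN1]
        congr 1
        ring

end Pool.Agent.RMS
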