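import Pool.Agent.RMS.St3
import Pool.Agent.RMS.Pw

/-!
# Project RMS: the numbers for superlinear time, deterministic machines
-/

set_option autoImplicit false

open Finset

namespace Pool.Agent.RMS

theorem nd2_two_pow (a b : ℝ) : (2 : ℝ) ^ a * 2 ^ b = 2 ^ (a + b) :=
  (Real.rpow_add (by norm_num) a b).symm

theorem nd2_one_le (l : ℝ) (hl : 0 ≤ l) : (1 : ℝ) ≤ 2 ^ l :=
  Real.one_le_rpow (by norm_num) hl

theorem nd2_two (w : ℝ) : 2 * (2 : ℝ) ^ w = 2 ^ (1 + w) := by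
  rw [← nd2_two_pow, Real.rpow_one]

/-- the number of the nodes -/
theorem nd2_nodes (Z v T d m γ g q K : ℕ) (l y X : ℝ)
    (hZ1 : 1 ≤ Z) (hZd : (Z : ℝ) ^ d ≤ 2 ^ l) (hv1 : 1 ≤ v)
    (hv : (((T + 1) * v : ℕ) : ℝ) ≤ 2 ^ y) (hm : ((m + 2 : ℕ) : ℝ) ≤ 2 ^ (4 * l))
    (hK : ((K + 1 : ℕ) : ℝ) ≤ 2 ^ (4 * l)) (hγ1 : 1 ≤ γ) (hγ : γ ≤ 2 ^ g)
    (hg : (g : ℝ) * (Z : ℝ) ^ d ≤ X / 8)
    (hX : 1 + 9 * l + y + X / 8 + 4 * l * q ≤ X) :
    (((((m + 1) * T + 1) * (1 + v * Z ^ d * γ ^ (Z ^ d) * (m + 2) ^ q * (K + 1)) : ℕ) : ℝ) ≤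
      (2 : ℝ) ^ X) := by
  have h1 : ((m + 1) * T + 1) * (1 + v * Z ^ d * γ ^ (Z ^ d) * (m + 2) ^ q * (K + 1)) ≤
      2 * ((m + 2) * (((T + 1) * v) * (Z ^ d * (γ ^ (Z ^ d) * ((m + 2) ^ q * (K + 1)))))) := by
    obtain ⟨R, hR⟩ : ∃ R, R = v * Z ^ d * γ ^ (Z ^ d) * (m + 2) ^ q * (K + 1) := ⟨_, rfl⟩
    have hR1 : 1 ≤ R := by
      rw [hR]
      have e1 : 0 < Z ^ d := pow_pos hZ1 _
      have e2 : 0 < γ ^ (Z ^ d) := Nat.pow_pos (by omega)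
      have e3 : 0 < (m + 2) ^ q := Nat.pow_pos (by omega)
      have e4 : 0 < K + 1 := Nat.succ_pos K
      exact Nat.mul_pos (Nat.mul_pos (Nat.mul_pos (Nat.mul_pos (by omega) e1) e2) e3) e4
    have e : 2 * ((m + 2) * (((T + 1) * v) * (Z ^ d * (γ ^ (Z ^ d) * ((m + 2) ^ q * (K + 1)))))) =
        ((m + 2) * (T + 1)) * (2 * R) := by rw [hR]; ring
    rw [e, ← hR]
    have e2 : (m + 1) * T + 1 ≤ (m + 2) * (T + 1) := by ring_nf; omega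
    exact Nat.mul_le_mul e2 (by omega)
  have h2 : ((((m + 1) * T + 1) * (1 + v * Z ^ d * γ ^ (Z ^ d) * (m + 2) ^ q * (K + 1)) : ℕ) : ℝ) ≤
      2 * (((m + 2 : ℕ) : ℝ) * ((((T + 1) * v : ℕ) : ℝ) * ((Z : ℝ) ^ d * ((γ : ℝ) ^ (Z ^ d) *
        (((m + 2 : ℕ) : ℝ) ^ q * ((K + 1 : ℕ) : ℝ)))))) := by
    exact_mod_cast h1
  have p2 : (0 : ℝ) < 2 := by norm_num
  have hG : (γ : ℝ) ^ (Z ^ d) ≤ 2 ^ (X / 8) := by
    have h3 : (γ : ℝ) ≤ 2 ^ g := by exact_mod_cast hγ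
    calc (γ : ℝ) ^ (Z ^ d) ≤ ((2 : ℝ) ^ g) ^ (Z ^ d) := pow_le_pow_left₀ (by positivity) h3 _
      _ = 2 ^ ((g : ℝ) * (Z : ℝ) ^ d) := by
          rw [← pow_mul, ← Real.rpow_natCast]
          push_cast
          rfl
      _ ≤ 2 ^ (X / 8) := Real.rpow_le_rpow_of_exponent_le (by norm_num) hg
  have hQ : ((m + 2 : ℕ) : ℝ) ^ q ≤ 2 ^ (4 * l * q) := by
    rw [Real.rpow_mul_natCast p2.le]
    exact pow_le_pow_left₀ (by positivity) hm q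
  calc _ ≤ _ := h2
    _ ≤ 2 * (2 ^ (4 * l) * (2 ^ y * (2 ^ l * (2 ^ (X / 8) * (2 ^ (4 * l * q) * 2 ^ (4 * l)))))) := by
        gcongr
    _ = 2 ^ (1 + 9 * l + y + X / 8 + 4 * l * q) := by
        simp only [nd2_two_pow, nd2_two]
        congr 1
        ring
    _ ≤ 2 ^ X := Real.rpow_le_rpow_of_exponent_le (by norm_num) hX

/-- the error -/
theorem nd2_err (v T d m q : ℕ) (l y b X : ℝ) (hy : 0 ≤ y) (hv1 : 1 ≤ v)
    (hv : (((T + 1) * v : ℕ) : ℝ) ≤ 2 ^ y) (hq : (q : ℝ) ≤ 2 ^ (4 * l)) (hqb : b + 1 ≤ q)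
    (hX : 4 * l + (d + 1) * (y + 1) * m + y + b + 1 ≤ X) :
    ((q * ((T + 1) * v * (2 * T + 1) ^ d + 1) ^ m * v : ℕ) : ℝ) * (2 : ℝ) ^ (-X) +
      (2 : ℝ) ^ (-(q : ℝ)) ≤ (2 : ℝ) ^ (-b) := by
  have p2 : (0 : ℝ) < 2 := by norm_num
  have hT : ((T + 1 : ℕ) : ℝ) ≤ 2 ^ y := by
    refine le_trans ?_ hv
    exact_mod_cast Nat.le_mul_of_pos_right (T + 1) hv1
  have hv' : (v : ℝ) ≤ 2 ^ y := by
    refine le_trans ?_ hv
    exact_mod_cast Nat.le_mul_of_pos_left v (Nat.succ_pos T)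
  have hT2 : ((2 * T + 1 : ℕ) : ℝ) ≤ 2 ^ (1 + y) := by
    rw [← nd2_two]
    push_cast at hT ⊢
    linarith
  have hB : (((T + 1) * v : ℕ) : ℝ) * ((2 * T + 1 : ℕ) : ℝ) ^ d + 1 ≤ 2 ^ ((d + 1) * (y + 1)) := by
    have h3 : ((2 * T + 1 : ℕ) : ℝ) ^ d ≤ 2 ^ ((1 + y) * d) := by
      rw [Real.rpow_mul_natCast p2.le]
      exact pow_le_pow_left₀ (by positivity) hT2 d
    have h4 : (((T + 1) * v : ℕ) : ℝ) * ((2 * T + 1 : ℕ) : ℝ) ^ d ≤ 2 ^ y * 2 ^ ((1 + y) * d) :=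
      mul_le_mul hv h3 (by positivity) (by positivity)
    have h5 : (1 : ℝ) ≤ 2 ^ y * 2 ^ ((1 + y) * d) := by
      rw [nd2_two_pow]
      exact nd2_one_le _ (by positivity)
    have e : (2 : ℝ) ^ ((d + 1) * (y + 1)) = 2 * (2 ^ y * 2 ^ ((1 + y) * d)) := by
      rw [nd2_two_pow, nd2_two]
      congr 1
      ring
    rw [e]
    linarith
  have hBm : ((((T + 1) * v : ℕ) : ℝ) * ((2 * T + 1 : ℕ) : ℝ) ^ d + 1) ^ m ≤
      2 ^ ((d + 1) * (y + 1) * m) := by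
    rw [Real.rpow_mul_natCast p2.le]
    exact pow_le_pow_left₀ (by positivity) hB m
  have h6 : ((q * ((T + 1) * v * (2 * T + 1) ^ d + 1) ^ m * v : ℕ) : ℝ) =
      (q : ℝ) * (((((T + 1) * v : ℕ) : ℝ) * ((2 * T + 1 : ℕ) : ℝ) ^ d + 1) ^ m * (v : ℝ)) := by
    push_cast
    ring
  have h7 : (q : ℝ) * (((((T + 1) * v : ℕ) : ℝ) * ((2 * T + 1 : ℕ) : ℝ) ^ d + 1) ^ m * (v : ℝ)) ≤
      2 ^ (4 * l) * (2 ^ ((d + 1) * (y + 1) * m) * 2 ^ y) := by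
    gcongr
  have h8 : (2 : ℝ) ^ (4 * l) * (2 ^ ((d + 1) * (y + 1) * m) * 2 ^ y) * 2 ^ (-X) ≤
      2 ^ (-b - 1) := by
    simp only [nd2_two_pow]
    apply Real.rpow_le_rpow_of_exponent_le (by norm_num)
    linarith
  have h9 : (2 : ℝ) ^ (-(q : ℝ)) ≤ 2 ^ (-b - 1) :=
    Real.rpow_le_rpow_of_exponent_le (by norm_num) (by linarith)
  have h10 : 2 * (2 : ℝ) ^ (-b - 1) = 2 ^ (-b) := by
    rw [nd2_two]
    congr 1
    ring
  rw [h6]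
  have h11 := mul_le_mul_of_nonneg_right h7 (Real.rpow_nonneg p2.le (-X))
  linarith

theorem nd2_le_two (x : ℝ) (hx : 1 ≤ x) : x ≤ 2 ^ (2 * Real.log x) := by
  have h1 : (0 : ℝ) < x := by linarith
  have h2 : x = 2 ^ (Real.log x / Real.log 2) := by
    rw [Real.rpow_def_of_pos (by norm_num), mul_div_cancel₀ _ (Real.log_pos (by norm_num)).ne',
      Real.exp_log h1]
  have h3 : Real.log x / Real.log 2 ≤ 2 * Real.log x := by
    rw [div_le_iff₀ (Real.log_pos (by norm_num))]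
    have := Real.log_two_gt_d9
    have h4 := Real.log_nonneg hx
    nlinarith
  calc x = 2 ^ (Real.log x / Real.log 2) := h2
    _ ≤ _ := Real.rpow_le_rpow_of_exponent_le (by norm_num) h3

theorem nd2_pow_le_two (x : ℝ) (hx : 1 ≤ x) (k : ℕ) : x ^ k ≤ 2 ^ (k * (2 * Real.log x)) := by
  rw [mul_comm, Real.rpow_mul_natCast (by norm_num)]
  exact pow_le_pow_left₀ (by linarith) (nd2_le_two x hx) k

/-- ND2. -/
theorem t_ND2 : S_ND2 := by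
  intro d ε hd hε hε1
  have hd0 : (0 : ℝ) < d := by exact_mod_cast hd
  have hd1 : (1 : ℝ) ≤ d := by exact_mod_cast hd
  obtain ⟨e, he⟩ : ∃ e : ℝ, e = ε / (4 * d) := ⟨_, rfl⟩
  have he0 : 0 < e := by rw [he]; positivity
  have hed : 4 * e * d = ε := by rw [he]; field_simp
  have he4 : e ≤ ε / 4 := by
    rw [he]
    apply div_le_div_of_nonneg_left hε.le (by norm_num)
    linarith
  obtain ⟨α, hα⟩ : ∃ α : ℝ, α = 1 + e - (1 - e) / d := ⟨_, rfl⟩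
  obtain ⟨β, hβ⟩ : ∃ β : ℝ, β = (1 - ε) / d := ⟨_, rfl⟩
  have hβ0 : 0 ≤ β := by rw [hβ]; apply div_nonneg <;> linarith
  have hq : (1 - e) / d ≤ 1 - e := by
    rw [div_le_iff₀ hd0]
    nlinarith
  have hα0 : 0 ≤ α := by rw [hα]; linarith
  have hα1 : α ≤ 1 + e := by
    rw [hα]
    have : 0 ≤ (1 - e) / d := by apply div_nonneg <;> linarith
    linarith
  have hab : α + β ≤ 1 - 2 * e := by
    have h1 : α + β = 1 + e - (ε - e) / d := by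
      rw [hα, hβ]; ring
    have h2 : (ε - e) / d = 4 * e - e / d := by
      rw [← hed]; field_simp
    have h3 : e / d ≤ e := div_le_self he0.le hd1
    rw [h1, h2]
    linarith
  obtain ⟨n1, h1⟩ := pw (1320 * (d + 1)) (α + β) (1 - e) 0 (by linarith)
  obtain ⟨n2, h2⟩ := pw 384 (1 - ε) (1 - e) 1 (by linarith)
  obtain ⟨n3, h3⟩ := pw 32 (1 - ε) (1 - e) 0 (by linarith)
  obtain ⟨n5, h5⟩ := pw 48 0 (1 - e) 0 (by linarith)
  obtain ⟨n6, h6⟩ := pw 320 0 (1 - e) 1 (by linarith)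
  refine ⟨n1 + n2 + n3 + n5 + n6 + 6, fun N hN τ hτ0 hT => ?_⟩
  rw [← he] at hT ⊢
  have hN6 : (6 : ℝ) ≤ N := by exact_mod_cast (by omega : 6 ≤ N)
  have hN1 : (1 : ℝ) ≤ N := by linarith
  have hN0 : (0 : ℝ) < N := by linarith
  obtain ⟨X, hX⟩ : ∃ X : ℝ, X = (N : ℝ) ^ (1 - e) := ⟨_, rfl⟩
  obtain ⟨z, hz⟩ : ∃ z : ℝ, z = (N : ℝ) ^ (1 - ε) := ⟨_, rfl⟩
  obtain ⟨L, hL⟩ : ∃ L : ℝ, L = Real.log N := ⟨_, rfl⟩
  have hL0 : 0 ≤ L := by rw [hL]; exact Real.log_nonneg hN1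
  have g1 := h1 N (by omega)
  have g2 := h2 N (by omega)
  have g3 := h3 N (by omega)
  have g5 := h5 N (by omega)
  have g6 := h6 N (by omega)
  rw [← hX] at g1 g2 g3 g5 g6 ⊢
  rw [← hz] at g2 g3 ⊢
  rw [← hL] at g1 g2 g3 g5 g6
  rw [pow_zero, mul_one] at g1 g3 g5
  rw [pow_one] at g2 g6
  rw [Real.rpow_zero, mul_one] at g5 g6
  have hz1 : 1 ≤ z := by rw [hz]; exact Real.one_le_rpow hN1 (by linarith)
  have hXN : X ≤ N := by
    rw [hX]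
    calc (N : ℝ) ^ (1 - e) ≤ (N : ℝ) ^ (1 : ℝ) :=
          Real.rpow_le_rpow_of_exponent_le hN1 (by linarith)
      _ = N := Real.rpow_one _
  have hX0 : 0 < X := by linarith
  obtain ⟨b, hb⟩ : ∃ b : ℝ, b = z + 3 := ⟨_, rfl⟩
  rw [← hb]
  have hb4 : b ≤ 4 * z := by linarith
  have hb1 : 1 ≤ b := by linarith
  have hb8 : 8 * b ≤ X := by linarith
  refine ⟨by linarith, ?_⟩
  intro T v γ g K y hy hyz hv hv1 hγ1 hγ hg1 hgz hKτ
  have hg0 : (0 : ℝ) < g := by exact_mod_cast hg1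
  have hg1' : (1 : ℝ) ≤ g := by exact_mod_cast hg1
  -- bounds for y
  have hyb : y ≤ b := by
    rcases le_or_gt y 1 with h | h
    · linarith
    · exact (le_self_pow₀ h.le (by omega)).trans hyz
  have hyB : y ≤ 4 * (N : ℝ) ^ β := by
    have h7 : y = (y ^ d) ^ ((1 : ℝ) / d) := by
      rw [← Real.rpow_natCast, ← Real.rpow_mul hy, mul_one_div_cancel hd0.ne', Real.rpow_one]
    have h8 : (N : ℝ) ^ β = z ^ ((1 : ℝ) / d) := by
      rw [hz, ← Real.rpow_mul hN0.le, hβ]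
      congr 1
      ring
    have h9 : (4 : ℝ) ^ ((1 : ℝ) / d) ≤ 4 := by
      calc (4 : ℝ) ^ ((1 : ℝ) / d) ≤ (4 : ℝ) ^ (1 : ℝ) := by
            apply Real.rpow_le_rpow_of_exponent_le (by norm_num)
            rw [div_le_iff₀ hd0]
            linarith
        _ = 4 := Real.rpow_one _
    calc y = (y ^ d) ^ ((1 : ℝ) / d) := h7
      _ ≤ (4 * z) ^ ((1 : ℝ) / d) :=
          Real.rpow_le_rpow (by positivity) (hyz.trans hb4) (by positivity)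
      _ = 4 ^ ((1 : ℝ) / d) * z ^ ((1 : ℝ) / d) := Real.mul_rpow (by norm_num) (by linarith)
      _ ≤ 4 * z ^ ((1 : ℝ) / d) := by gcongr
      _ = 4 * (N : ℝ) ^ β := by rw [h8]
  -- the number Z
  obtain ⟨s, hs'⟩ : ∃ s : ℝ, s = (X / (8 * g)) ^ ((1 : ℝ) / d) := ⟨_, rfl⟩
  have hc1 : 1 ≤ X / (8 * g) := by
    rw [le_div_iff₀ (by positivity)]
    linarith
  have hc0 : 0 < X / (8 * g) := by linarith
  have hs1 : 1 ≤ s := by rw [hs']; exact Real.one_le_rpow hc1 (by positivity)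
  have hsd : s ^ d = X / (8 * g) := by
    rw [hs', ← Real.rpow_natCast, ← Real.rpow_mul hc0.le, one_div_mul_cancel hd0.ne', Real.rpow_one]
  obtain ⟨Z, hZ⟩ : ∃ Z : ℕ, Z = ⌊s⌋₊ := ⟨_, rfl⟩
  have hZ1 : 1 ≤ Z := by rw [hZ]; exact (Nat.one_le_floor_iff s).2 hs1
  have hZq : (Z : ℝ) ≤ s := by rw [hZ]; exact Nat.floor_le (by linarith)
  have hqZ : s < Z + 1 := by rw [hZ]; exact Nat.lt_floor_add_one s
  have hZ1' : (1 : ℝ) ≤ Z := by exact_mod_cast hZ1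
  have hZd : (Z : ℝ) ^ d ≤ X / (8 * g) := by
    rw [← hsd]
    exact pow_le_pow_left₀ (by linarith) hZq d
  have hgZ : (g : ℝ) * (Z : ℝ) ^ d ≤ X / 8 := by
    calc (g : ℝ) * (Z : ℝ) ^ d ≤ g * (X / (8 * g)) := by gcongr
      _ = X / 8 := by field_simp
  have hZdN : (Z : ℝ) ^ d ≤ N := by
    have : (Z : ℝ) ^ d ≤ (g : ℝ) * (Z : ℝ) ^ d := le_mul_of_one_le_left (by positivity) hg1'
    linarith
  -- the number U
  obtain ⟨U, hU⟩ : ∃ U : ℝ, U = (X / 8) ^ ((1 : ℝ) / d) := ⟨_, rfl⟩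
  have hU0 : 0 < U := by rw [hU]; positivity
  have hgU : U ≤ g * s := by
    have h7 : U = (g : ℝ) ^ ((1 : ℝ) / d) * s := by
      rw [hU, hs', ← Real.mul_rpow hg0.le hc0.le]
      congr 1
      field_simp
    rw [h7]
    apply mul_le_mul_of_nonneg_right _ (by linarith)
    calc (g : ℝ) ^ ((1 : ℝ) / d) ≤ (g : ℝ) ^ (1 : ℝ) := by
          apply Real.rpow_le_rpow_of_exponent_le hg1'
          rw [div_le_iff₀ hd0]
          linarith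
      _ = g := Real.rpow_one _
  have hgZU : U / 2 ≤ g * Z := by
    have h7 : s ≤ 2 * Z := by linarith
    have h8 : (g : ℝ) * s ≤ g * (2 * Z) := by gcongr
    linarith
  have hUN : (N : ℝ) ^ ((1 - e) / d) / 8 ≤ U := by
    have h7 : U = (N : ℝ) ^ ((1 - e) / d) / 8 ^ ((1 : ℝ) / d) := by
      rw [hU, hX, Real.div_rpow (by positivity) (by norm_num), ← Real.rpow_mul hN0.le]
      congr 2
      ring
    rw [h7]
    apply div_le_div_of_nonneg_left (by positivity) (by positivity)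
    calc (8 : ℝ) ^ ((1 : ℝ) / d) ≤ (8 : ℝ) ^ (1 : ℝ) := by
          apply Real.rpow_le_rpow_of_exponent_le (by norm_num)
          rw [div_le_iff₀ hd0]
          linarith
      _ = 8 := Real.rpow_one _
  obtain ⟨m, hm⟩ : ∃ m : ℕ, m = ⌈4 * τ / U⌉₊ := ⟨_, rfl⟩
  have hm1 : 4 * τ / U ≤ m := by rw [hm]; exact Nat.le_ceil _
  have hm2 : (m : ℝ) < 4 * τ / U + 1 := by
    rw [hm]
    exact Nat.ceil_lt_add_one (by positivity)
  have hNα : 1 ≤ (N : ℝ) ^ α := Real.one_le_rpow hN1 hα0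
  have hNβ : 1 ≤ (N : ℝ) ^ β := Real.one_le_rpow hN1 hβ0
  have hm3 : (m : ℝ) ≤ 33 * (N : ℝ) ^ α := by
    have h7 : 4 * τ / U ≤ 32 * (N : ℝ) ^ α := by
      rw [div_le_iff₀ hU0]
      have h8 : (N : ℝ) ^ (1 + e) = (N : ℝ) ^ α * (N : ℝ) ^ ((1 - e) / d) := by
        rw [← Real.rpow_add hN0, hα]
        congr 1
        ring
      have h9 : 32 * (N : ℝ) ^ α * ((N : ℝ) ^ ((1 - e) / d) / 8) ≤ 32 * (N : ℝ) ^ α * U := by
        gcongr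
      have h10 : 32 * (N : ℝ) ^ α * ((N : ℝ) ^ ((1 - e) / d) / 8) = 4 * (N : ℝ) ^ (1 + e) := by
        rw [h8]; ring
      linarith
    linarith
  have hTN : τ ≤ (N : ℝ) ^ 2 := by
    refine hT.trans ?_
    rw [← Real.rpow_natCast]
    apply Real.rpow_le_rpow_of_exponent_le hN1
    push_cast
    linarith
  have hmN : (m : ℝ) ≤ 33 * (N : ℝ) ^ 2 := by
    refine hm3.trans ?_
    have : (N : ℝ) ^ α ≤ (N : ℝ) ^ 2 := by
      rw [← Real.rpow_natCast]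
      apply Real.rpow_le_rpow_of_exponent_le hN1
      push_cast
      linarith
    linarith
  have hl := nd2_le_two N hN1
  rw [← hL] at hl
  have hN36 : (36 : ℝ) ≤ (N : ℝ) ^ 2 := by
    calc (36 : ℝ) = 6 ^ 2 := by norm_num
      _ ≤ (N : ℝ) ^ 2 := pow_le_pow_left₀ (by norm_num) hN6 2
  have hN4 : (36 : ℝ) * (N : ℝ) ^ 2 ≤ (N : ℝ) ^ 4 := by
    have h9 : (36 : ℝ) * (N : ℝ) ^ 2 ≤ (N : ℝ) ^ 2 * (N : ℝ) ^ 2 :=
      mul_le_mul_of_nonneg_right hN36 (by positivity)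
    have h10 : (N : ℝ) ^ 4 = (N : ℝ) ^ 2 * (N : ℝ) ^ 2 := by ring
    rw [h10]
    exact h9
  have h4l : (N : ℝ) ^ 4 ≤ 2 ^ (4 * (2 * L)) := by
    have h7 := nd2_pow_le_two N hN1 4
    rw [← hL] at h7
    exact_mod_cast h7
  obtain ⟨q, hqq⟩ : ∃ q : ℕ, q = ⌈b⌉₊ + 1 := ⟨_, rfl⟩
  have hq1 : b + 1 ≤ q := by
    rw [hqq]
    push_cast
    have := Nat.le_ceil b
    linarith
  have hq2 : (q : ℝ) ≤ b + 2 := by
    rw [hqq]
    push_cast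
    have := Nat.ceil_lt_add_one (a := b) (by linarith)
    linarith
  refine ⟨Z, m, q, hZ1, ?_, ?_, ?_⟩
  · have h8 : ((m : ℝ) + 1) * (U / 2) ≤ (m + 1) * (g * Z) := by gcongr
    have h9 : 4 * τ ≤ m * U := by rwa [div_le_iff₀ hU0] at hm1
    linarith
  · refine nd2_nodes Z v T d m γ g q K (2 * L) y X hZ1 (hZdN.trans hl) hv1 hv ?_ ?_ hγ1 hγ hgZ ?_
    · refine le_trans ?_ h4l
      push_cast
      linarith
    · refine le_trans ?_ h4l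
      push_cast
      linarith
    · have k1 : 4 * (2 * L) * q ≤ 4 * (2 * L) * (6 * z) := by
        apply mul_le_mul_of_nonneg_left _ (by positivity)
        linarith
      have k2 : 4 * (2 * L) * (6 * z) = (384 * z * L) / 8 := by ring
      linarith
  · refine nd2_err v T d m q (2 * L) y b X hy hv1 hv ?_ hq1 ?_
    · refine le_trans ?_ h4l
      have : (N : ℝ) ≤ (N : ℝ) ^ 2 := le_self_pow₀ hN1 (by norm_num)
      linarith
    · have k1 : (N : ℝ) ^ (α + β) = (N : ℝ) ^ α * (N : ℝ) ^ β := Real.rpow_add hN0 _ _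
      rw [k1] at g1
      have k2 : ((d : ℝ) + 1) * (y + 1) * m ≤
          (d + 1) * (5 * (N : ℝ) ^ β) * (33 * (N : ℝ) ^ α) := by
        have k3 : y + 1 ≤ 5 * (N : ℝ) ^ β := by linarith
        gcongr
      have k4 : ((d : ℝ) + 1) * (5 * (N : ℝ) ^ β) * (33 * (N : ℝ) ^ α) =
          (1320 * (d + 1) * ((N : ℝ) ^ α * (N : ℝ) ^ β)) / 8 := by ring
      linarith

end Pool.Agent.RMS
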