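import Pool.Agent.RMS.St2

/-!
# Project RMS, module OWN (helper98): the machine which treats the rooms one after the other
-/

set_option autoImplicit false

open Finset
open scoped Classical

namespace Pool.Agent.RMS

open Pool.Agent.PPS (SS Op)

namespace OWNx

section

variable {P V Γ L D A O : Type} [Zero L] {j M K : ℕ} {R : TM P V Γ L D} {ac : D → L → L}
  {e : L ≃ A × O} {τ : ℕ → Option (V × L)} {T : ℕ} {w : V} {es : Fin j → L ≃ A × O} {as : ℕ → A}
  {x : P → Bool}

theorem conf_none {n : ℕ} (h : ((own R ac e τ T w es M K as).conf x n).1 = none) :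
    ((own R ac e τ T w es M K as).conf x (n + 1)).1 = none := by
  show (((own R ac e τ T w es M K as).op n ((own R ac e τ T w es M K as).conf x n).1 x).app
    ((own R ac e τ T w es M K as).conf x n).2).1 = none
  rw [h]
  rfl

theorem conf_some {n : ℕ} {S : Ow V O Γ j M K}
    (h : ((own R ac e τ T w es M K as).conf x n).1 = some S) :
    ((own R ac e τ T w es M K as).conf x (n + 1)).1 =
      ows R ac e τ T w es x (as (n / T)) (n % T) (rst R e (as (n / T)) (n % T) S) := by
  show (((own R ac e τ T w es M K as).op n ((own R ac e τ T w es M K as).conf x n).1 x).app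
    ((own R ac e τ T w es M K as).conf x n).2).1 = _
  rw [h]
  rfl

theorem rst_β {a : A} {t : ℕ} {S : Ow V O Γ j M K} : (rst R e a t S).β = S.β := by
  unfold rst
  split_ifs <;> rfl

theorem rst_n {a : A} {t : ℕ} {S : Ow V O Γ j M K} : (rst R e a t S).n = S.n := by
  unfold rst
  split_ifs <;> rfl

theorem ows_none {a : A} {t : ℕ} {S : Ow V O Γ j M K}
    (h : ¬ S.β.val + bit R e τ a t S.s ≤ K) : ows R ac e τ T w es x a t S = none := by
  unfold ows
  rw [if_neg h]

theorem ows_none' {a : A} {t : ℕ} {S : Ow V O Γ j M K}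
    (h : stp R ac e τ T w x a t S.s = none) : ows R ac e τ T w es x a t S = none := by
  unfold ows
  split_ifs
  · rw [h]
  · rfl

theorem ows_some {a : A} {t : ℕ} {S : Ow V O Γ j M K} {s' : Rs V O Γ}
    (hK : S.β.val + bit R e τ a t S.s ≤ K) (h : stp R ac e τ T w x a t S.s = some s') :
    ows R ac e τ T w es x a t S = some ⟨s', fun i => cap M ((S.n i).val +
      cgo R ac e τ (es i) x a t S.s), cap K (S.β.val + bit R e τ a t S.s)⟩ := by
  unfold ows
  rw [if_pos hK, h]

theorem cap_val {m n : ℕ} : (cap m n).val = min m n := rfl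

/-- the bits read -/
theorem inv (n : ℕ) :
    (∀ S, ((own R ac e τ T w es M K as).conf x n).1 = some S →
      ∑ u ∈ range n, ((own R ac e τ T w es M K as).rd u
        ((own R ac e τ T w es M K as).conf x u).1).card = S.β.val) ∧
    (((own R ac e τ T w es M K as).conf x n).1 = none →
      ∑ u ∈ range n, ((own R ac e τ T w es M K as).rd u
        ((own R ac e τ T w es M K as).conf x u).1).card ≤ K) := by
  induction n with
  | zero =>
    refine ⟨fun S hS => ?_, fun _ => by simp⟩
    have h1 : ((own R ac e τ T w es M K as).conf x 0).1 =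
        some ⟨ini R e (as 0), fun _ => cap M 0, cap K 0⟩ := rfl
    rw [h1] at hS
    have h2 := Option.some.inj hS
    rw [← h2]
    simp [cap_val]
  | succ n ih =>
    obtain ⟨ih1, ih2⟩ := ih
    rw [Finset.sum_range_succ]
    rcases h : ((own R ac e τ T w es M K as).conf x n).1 with _ | S
    · have h1 := conf_none h
      have h2 : ((own R ac e τ T w es M K as).rd n none).card = 0 := rfl
      refine ⟨fun S hS => ?_, fun _ => ?_⟩
      · rw [h1] at hS
        exact absurd hS (by simp)
      · rw [h2, add_zero]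
        exact ih2 h
    · have h1 := conf_some h
      have h2 := ih1 S h
      set a := as (n / T) with ha
      set t := n % T with ht
      set S' := rst R e a t S with hS'
      have hβ : S'.β = S.β := rst_β
      have h3 : ((own R ac e τ T w es M K as).rd n (some S)).card =
          if rm e τ t = a ∧ S'.β.val + bit R e τ a t S'.s ≤ K then bit R e τ a t S'.s else 0 := by
        have h4 : (own R ac e τ T w es M K as).rd n (some S) =
            if rm e τ t = a ∧ S'.β.val + bit R e τ a t S'.s ≤ K then
              R.rd t S'.s.v (S'.s.c S'.s.h) else ∅ := rfl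
        rw [h4]
        by_cases hc : rm e τ t = a ∧ S'.β.val + bit R e τ a t S'.s ≤ K
        · rw [if_pos hc, if_pos hc]
          unfold bit
          rw [if_pos hc.1]
        · rw [if_neg hc, if_neg hc]
          rfl
      rw [h3, h2, h1]
      by_cases hK : S'.β.val + bit R e τ a t S'.s ≤ K
      · have h5 : (if rm e τ t = a ∧ S'.β.val + bit R e τ a t S'.s ≤ K then
            bit R e τ a t S'.s else 0) = bit R e τ a t S'.s := by
          by_cases hr : rm e τ t = a
          · rw [if_pos ⟨hr, hK⟩]
          · rw [if_neg fun hh => hr hh.1]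
            unfold bit
            rw [if_neg hr]
        rw [h5, ← hβ]
        rcases h6 : stp R ac e τ T w x a t S'.s with _ | s'
        · rw [ows_none' h6]
          exact ⟨fun S2 hS2 => absurd hS2 (by simp), fun _ => hK⟩
        · rw [ows_some hK h6]
          refine ⟨fun S2 hS2 => ?_, fun hS2 => absurd hS2 (by simp)⟩
          have h7 := Option.some.inj hS2
          rw [← h7]
          show _ = (cap K (S'.β.val + bit R e τ a t S'.s)).val
          rw [cap_val, min_eq_right hK]
      · rw [ows_none hK, if_neg fun hh => hK hh.2, add_zero]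
        exact ⟨fun S2 hS2 => absurd hS2 (by simp), fun _ => Nat.lt_succ_iff.1 S.β.isLt⟩

/-- the main invariant at time `i * T + t`, `t ≤ T` -/
def Inv (R : TM P V Γ L D) (ac : D → L → L) (e : L ≃ A × O) (τ : ℕ → Option (V × L)) (T : ℕ)
    (w : V) (es : Fin j → L ≃ A × O) (M K : ℕ) (as : ℕ → A) (x : P → Bool) (i t : ℕ) : Prop :=
  (((own R ac e τ T w es M K as).conf x (i * T + t)).1 ≠ none ↔
    (∀ i' < i, phs R ac e τ T w x (as i') T ≠ none) ∧ phs R ac e τ T w x (as i) t ≠ none ∧
      ∑ i' ∈ range i, ∑ t' ∈ range T, evb R ac e τ T w x (as i') t' +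
        ∑ t' ∈ range t, evb R ac e τ T w x (as i) t' ≤ K) ∧
  ∀ S, ((own R ac e τ T w es M K as).conf x (i * T + t)).1 = some S →
    (0 < t → phs R ac e τ T w x (as i) t = some S.s) ∧
    S.β.val = ∑ i' ∈ range i, ∑ t' ∈ range T, evb R ac e τ T w x (as i') t' +
        ∑ t' ∈ range t, evb R ac e τ T w x (as i) t' ∧
    ∀ k, (S.n k).val = min M (∑ i' ∈ range i, ∑ t' ∈ range T,
      evc R ac e τ T w (es k) x (as i') t' +
        ∑ t' ∈ range t, evc R ac e τ T w (es k) x (as i) t')

theorem inv_zero : Inv R ac e τ T w es M K as x 0 0 := by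
  have h1 : ((own R ac e τ T w es M K as).conf x (0 * T + 0)).1 =
      some ⟨ini R e (as 0), fun _ => cap M 0, cap K 0⟩ := by
    rw [zero_mul, add_zero]
    rfl
  have h2 : phs R ac e τ T w x (as 0) 0 = some (ini R e (as 0)) := rfl
  unfold Inv
  rw [h1, h2]
  refine ⟨⟨fun _ => ⟨fun i' hi' => absurd hi' (Nat.not_lt_zero _), by simp, by simp⟩,
    fun _ => by simp⟩, fun S hS => ?_⟩
  have h3 := Option.some.inj hS
  rw [← h3]
  refine ⟨fun h => absurd h (lt_irrefl _), ?_, fun k => ?_⟩
  · simp [cap_val]
  · simp [cap_val]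

theorem inv_next {i : ℕ} (h : Inv R ac e τ T w es M K as x i T) :
    Inv R ac e τ T w es M K as x (i + 1) 0 := by
  obtain ⟨h1, h2⟩ := h
  have e1 : (i + 1) * T + 0 = i * T + T := by ring
  unfold Inv
  rw [e1]
  refine ⟨?_, fun S hS => ?_⟩
  · rw [h1]
    constructor
    · rintro ⟨ha, hb, hc⟩
      refine ⟨fun i' hi' => ?_, ?_, ?_⟩
      · rcases Nat.lt_succ_iff_lt_or_eq.1 hi' with h3 | h3
        · exact ha i' h3
        · rw [h3]
          exact hb
      · show some (ini R e (as (i + 1))) ≠ none
        simp
      · rw [Finset.sum_range_succ, Finset.range_zero, Finset.sum_empty, add_zero]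
        exact hc
    · rintro ⟨ha, -, hc⟩
      rw [Finset.sum_range_succ, Finset.range_zero, Finset.sum_empty, add_zero] at hc
      exact ⟨fun i' hi' => ha i' (hi'.trans (Nat.lt_succ_self i)), ha i (Nat.lt_succ_self i), hc⟩
  · obtain ⟨-, h4, h5⟩ := h2 S hS
    refine ⟨fun h => absurd h (lt_irrefl _), ?_, fun k => ?_⟩
    · rw [Finset.sum_range_succ, Finset.range_zero, Finset.sum_empty, add_zero]
      exact h4
    · rw [Finset.sum_range_succ, Finset.range_zero, Finset.sum_empty, add_zero]
      exact h5 k

theorem phs_mono {a : A} {t : ℕ} (h : phs R ac e τ T w x a (t + 1) ≠ none) :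
    phs R ac e τ T w x a t ≠ none := by
  intro h1
  apply h
  show (phs R ac e τ T w x a t).bind (stp R ac e τ T w x a t) = none
  rw [h1]
  rfl

theorem inv_step {i t : ℕ} (ht : t < T) (h : Inv R ac e τ T w es M K as x i t) :
    Inv R ac e τ T w es M K as x i (t + 1) := by
  obtain ⟨h1, h2⟩ := h
  have hT : 0 < T := lt_of_le_of_lt (Nat.zero_le t) ht
  have ed : (i * T + t) / T = i := by
    rw [mul_comm, Nat.mul_add_div hT, Nat.div_eq_of_lt ht, add_zero]
  have em : (i * T + t) % T = t := by
    rw [mul_comm, Nat.mul_add_mod, Nat.mod_eq_of_lt ht]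
  have e1 : i * T + (t + 1) = i * T + t + 1 := rfl
  unfold Inv
  rw [e1]
  rcases h : ((own R ac e τ T w es M K as).conf x (i * T + t)).1 with _ | S
  · have h3 := conf_none h
    rw [h3]
    refine ⟨⟨fun hh => absurd rfl hh, ?_⟩, fun S hS => absurd hS (by simp)⟩
    rintro ⟨ha, hb, hc⟩
    exfalso
    refine (h1.2 ⟨ha, phs_mono hb, ?_⟩) h
    refine le_trans ?_ hc
    rw [Finset.sum_range_succ]
    omega
  · have h3 := conf_some h
    rw [ed, em] at h3
    obtain ⟨h4, h5, h6⟩ := h2 S h
    obtain ⟨h7, -, -⟩ := h1.1 (by rw [h]; simp)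
    set S' := rst R e (as i) t S with hS'
    have hβ : S'.β = S.β := rst_β
    have hn : S'.n = S.n := rst_n
    have hp : phs R ac e τ T w x (as i) t = some S'.s := by
      rcases Nat.eq_zero_or_pos t with h0 | h0
      · subst h0
        rw [hS']
        unfold rst
        rw [if_pos rfl]
        rfl
      · rw [h4 h0, hS']
        unfold rst
        rw [if_neg h0.ne']
    have hp1 : phs R ac e τ T w x (as i) (t + 1) = stp R ac e τ T w x (as i) t S'.s := by
      show (phs R ac e τ T w x (as i) t).bind (stp R ac e τ T w x (as i) t) = _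
      rw [hp]
      rfl
    have hb : evb R ac e τ T w x (as i) t = bit R e τ (as i) t S'.s := by
      unfold evb
      rw [hp]
    have hc : ∀ k, evc R ac e τ T w (es k) x (as i) t = cgo R ac e τ (es k) x (as i) t S'.s := by
      intro k
      unfold evc
      rw [hp]
    rw [h3]
    rw [Finset.sum_range_succ, hb, ← add_assoc, ← h5, ← hβ]
    by_cases hK : S'.β.val + bit R e τ (as i) t S'.s ≤ K
    · rcases h8 : stp R ac e τ T w x (as i) t S'.s with _ | s'
      · rw [ows_none' h8]
        refine ⟨⟨fun hh => absurd rfl hh, ?_⟩, fun S hS => absurd hS (by simp)⟩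
        rintro ⟨-, hb', -⟩
        exact absurd (hp1.trans h8) hb'
      · rw [ows_some hK h8]
        refine ⟨⟨fun _ => ⟨h7, ?_, hK⟩, fun _ => by simp⟩, fun S2 hS2 => ?_⟩
        · rw [hp1, h8]
          simp
        · have h9 := Option.some.inj hS2
          rw [← h9]
          refine ⟨fun _ => hp1.trans h8, ?_, fun k => ?_⟩
          · show (cap K (S'.β.val + bit R e τ (as i) t S'.s)).val = _
            rw [cap_val, min_eq_right hK]
          · show (cap M ((S'.n k).val + cgo R ac e τ (es k) x (as i) t S'.s)).val = _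
            rw [cap_val, hn, h6 k, Finset.sum_range_succ, hc k]
            omega
    · rw [ows_none hK]
      refine ⟨⟨fun hh => absurd rfl hh, ?_⟩, fun S hS => absurd hS (by simp)⟩
      rintro ⟨-, -, hc'⟩
      exact absurd hc' hK

theorem inv_all (i : ℕ) : ∀ t ≤ T, Inv R ac e τ T w es M K as x i t := by
  induction i with
  | zero =>
    intro t
    induction t with
    | zero => exact fun _ => inv_zero
    | succ t ih => exact fun h => inv_step h (ih (Nat.le_of_succ_le h))
  | succ i ih =>
    intro t
    induction t with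
    | zero => exact fun _ => inv_next (ih T le_rfl)
    | succ t ih2 => exact fun h => inv_step h (ih2 (Nat.le_of_succ_le h))

end

end OWNx

open OWNx in
theorem t_OWN : S_OWN := by
  intro P V Γ L D A O _ R ac e τ T M K j w es as x
  refine ⟨fun n => ?_, fun len => ?_⟩
  · obtain ⟨h1, h2⟩ := inv (R := R) (ac := ac) (e := e) (τ := τ) (T := T) (w := w) (es := es)
      (M := M) (K := K) (as := as) (x := x) n
    rcases h : ((own R ac e τ T w es M K as).conf x n).1 with _ | S
    · exact h2 h
    · rw [h1 S h]
      exact Nat.lt_succ_iff.1 S.β.isLt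
  · obtain ⟨h1, h2⟩ := inv_all (R := R) (ac := ac) (e := e) (τ := τ) (T := T) (w := w)
      (es := es) (M := M) (K := K) (as := as) (x := x) len 0 (Nat.zero_le T)
    simp only [add_zero, Finset.range_zero, Finset.sum_empty] at h1 h2
    refine ⟨?_, fun S hS k => ?_⟩
    · rw [h1]
      constructor
      · rintro ⟨ha, -, hc⟩
        exact ⟨ha, hc⟩
      · rintro ⟨ha, hc⟩
        refine ⟨ha, ?_, hc⟩
        show some (ini R e (as len)) ≠ none
        simp
    · exact (h2 S hS).2.2 k

end Pool.Agent.RMS
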