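import Pool.Agent.RMS.St2

/-!
# RMS, module SEL: the choice of the shifts (helper9)
-/

set_option autoImplicit false

open Finset

open scoped Classical in
theorem Pool.Agent.RMS.t_SEL : Pool.Agent.RMS.S_SEL := by
  intro X H Z bad hZ hbad q
  induction q with
  | zero =>
    refine ⟨Fin.elim0, fun i => i.elim0, ?_⟩
    rw [pow_zero, one_mul]
    exact card_le_card (filter_subset _ _)
  | succ q ih =>
    obtain ⟨f, hf, hc⟩ := ih
    obtain ⟨B, hB⟩ : ∃ B, B = H.filter fun x => ∀ i, bad (f i) x := ⟨_, rfl⟩
    have hBH : ∀ x ∈ B, x ∈ H := fun x hx => by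
      rw [hB] at hx
      exact (mem_filter.1 hx).1
    have h : ∃ o, o < Z ∧ 2 * (B.filter fun x => bad o x).card ≤ B.card := by
      by_contra hcon
      push Not at hcon
      have h1 : ∑ o ∈ range Z, B.card < ∑ o ∈ range Z, 2 * (B.filter fun x => bad o x).card :=
        sum_lt_sum_of_nonempty ⟨0, mem_range.2 hZ⟩ fun o ho => hcon o (mem_range.1 ho)
      have h2 : ∑ o ∈ range Z, 2 * (B.filter fun x => bad o x).card =
          ∑ x ∈ B, 2 * ((range Z).filter fun o => bad o x).card := by
        rw [← mul_sum, ← mul_sum]
        congr 1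
        simp only [card_filter]
        exact sum_comm
      have h3 : ∑ x ∈ B, 2 * ((range Z).filter fun o => bad o x).card ≤ ∑ x ∈ B, Z :=
        sum_le_sum fun x hx => hbad x (hBH x hx)
      rw [sum_const, card_range, smul_eq_mul] at h1
      rw [sum_const, smul_eq_mul] at h3
      rw [h2] at h1
      nlinarith
    obtain ⟨o, ho, hob⟩ := h
    refine ⟨Fin.snoc f o, ?_, ?_⟩
    · intro i
      induction i using Fin.lastCases with
      | last => rw [Fin.snoc_last]; exact ho
      | cast i => rw [Fin.snoc_castSucc]; exact hf i
    · have e : (H.filter fun x => ∀ i, bad ((Fin.snoc f o : Fin (q + 1) → ℕ) i) x) =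
          B.filter fun x => bad o x := by
        ext x
        rw [mem_filter, mem_filter, hB, mem_filter]
        constructor
        · rintro ⟨h1, h2⟩
          refine ⟨⟨h1, fun i => ?_⟩, ?_⟩
          · have := h2 (Fin.castSucc i)
            rwa [Fin.snoc_castSucc] at this
          · have := h2 (Fin.last q)
            rwa [Fin.snoc_last] at this
        · rintro ⟨⟨h1, h2⟩, h3⟩
          refine ⟨h1, fun i => ?_⟩
          induction i using Fin.lastCases with
          | last => rw [Fin.snoc_last]; exact h3
          | cast i => rw [Fin.snoc_castSucc]; exact h2 i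
      rw [e, pow_succ]
      rw [← hB] at hc
      calc 2 ^ q * 2 * (B.filter fun x => bad o x).card =
            2 ^ q * (2 * (B.filter fun x => bad o x).card) := by ring
        _ ≤ 2 ^ q * B.card := Nat.mul_le_mul_left _ hob
        _ ≤ H.card := hc
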