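import Pool.Agent.RMS.St1

/-!
# Project RMS, module SHF: the shifts of the rooms and the boxes (helper95)
-/

set_option autoImplicit false

open Finset
open scoped Classical

namespace Pool.Agent.RMS

namespace SHF

theorem dvd_up (Z : ℕ) (hZ : 0 < Z) (a : ℤ) (h : (a + 1) / (Z : ℤ) ≠ a / (Z : ℤ)) :
    (Z : ℤ) ∣ a + 1 := by
  have h1 : (0 : ℤ) < Z := by exact_mod_cast hZ
  have h2 := Int.emod_nonneg a h1.ne'
  have h3 := Int.emod_lt_of_pos a h1
  have h4 := Int.emod_add_mul_ediv a Z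
  by_cases h5 : a % (Z : ℤ) + 1 = Z
  · exact ⟨a / Z + 1, by rw [mul_add, mul_one]; linarith⟩
  · exfalso
    apply h
    have h6 : a % (Z : ℤ) + 1 < Z := by omega
    have h7 : a + 1 = (a % (Z : ℤ) + 1) + (Z : ℤ) * (a / Z) := by linarith
    rw [h7, Int.add_mul_ediv_left _ _ h1.ne', Int.ediv_eq_zero_of_lt (by linarith) h6, zero_add]

theorem dvd_down (Z : ℕ) (hZ : 0 < Z) (a : ℤ) (h : (a - 1) / (Z : ℤ) ≠ a / (Z : ℤ)) :
    (Z : ℤ) ∣ a := by
  have h1 := dvd_up Z hZ (a - 1) (by rw [sub_add_cancel]; exact fun h2 => h h2.symm)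
  rwa [sub_add_cancel] at h1

theorem eq_of_dvd (Z : ℕ) (b : ℤ) (o o' : ℕ) (ho : o < Z) (ho' : o' < Z)
    (h : (Z : ℤ) ∣ b + o) (h' : (Z : ℤ) ∣ b + o') : o = o' := by
  have h1 : (Z : ℤ) ∣ (o : ℤ) - o' := by
    have h2 := dvd_sub h h'
    have h3 : b + (o : ℤ) - (b + o') = (o : ℤ) - o' := by ring
    rwa [h3] at h2
  obtain ⟨c, hc⟩ := h1
  have hZ : (0 : ℤ) < Z := by
    have : 0 < Z := by omega
    exact_mod_cast this
  have ho1 : (o : ℤ) < Z := by exact_mod_cast ho
  have ho2 : (o' : ℤ) < Z := by exact_mod_cast ho'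
  have ho3 : (0 : ℤ) ≤ o := Int.natCast_nonneg _
  have ho4 : (0 : ℤ) ≤ o' := Int.natCast_nonneg _
  have h4 : c = 0 := by
    by_contra hne
    rcases lt_or_gt_of_ne hne with h5 | h5
    · have h6 : (Z : ℤ) * c ≤ (Z : ℤ) * (-1) := mul_le_mul_of_nonneg_left (by omega) hZ.le
      linarith
    · have h6 : (Z : ℤ) * 1 ≤ (Z : ℤ) * c := mul_le_mul_of_nonneg_left (by omega) hZ.le
      linarith
  rw [h4, mul_zero] at hc
  omega

end SHF

theorem t_SHF : S_SHF := by
  intro d
  refine ⟨?_, ?_, ⟨?_, ?_⟩, ?_⟩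
  · intro Z hZ δ p
    rw [Finset.card_le_one]
    intro o ho o' ho'
    rw [Finset.mem_filter, Finset.mem_range] at ho ho'
    have key : ∀ o : ℕ, (rmap d Z hZ o (act δ p)).1 ≠ (rmap d Z hZ o p).1 →
        ((act δ p) δ.1 + o) / (Z : ℤ) ≠ (p δ.1 + o) / (Z : ℤ) := by
      intro o h h2
      apply h
      funext i
      change ((act δ p) i + o) / (Z : ℤ) = (p i + o) / (Z : ℤ)
      by_cases hi : i = δ.1
      · rw [hi]
        exact h2
      · have h3 : act δ p i = p i := by
          unfold act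
          exact Function.update_of_ne hi _ _
        rw [h3]
    have hval : (act δ p) δ.1 = if δ.2 = true then p δ.1 + 1 else p δ.1 - 1 := by
      unfold act
      exact Function.update_self _ _ _
    have h1 := key o ho.2
    have h2 := key o' ho'.2
    rw [hval] at h1 h2
    by_cases hδ : δ.2 = true
    · rw [if_pos hδ] at h1 h2
      have e1 : p δ.1 + 1 + (o : ℤ) = (p δ.1 + o) + 1 := by ring
      have e2 : p δ.1 + 1 + (o' : ℤ) = (p δ.1 + o') + 1 := by ring
      rw [e1] at h1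
      rw [e2] at h2
      have h3 := SHF.dvd_up Z hZ _ h1
      have h4 := SHF.dvd_up Z hZ _ h2
      rw [← e1] at h3
      rw [← e2] at h4
      exact SHF.eq_of_dvd Z _ o o' ho.1 ho'.1 h3 h4
    · rw [if_neg hδ] at h1 h2
      have e1 : p δ.1 - 1 + (o : ℤ) = (p δ.1 + o) - 1 := by ring
      have e2 : p δ.1 - 1 + (o' : ℤ) = (p δ.1 + o') - 1 := by ring
      rw [e1] at h1
      rw [e2] at h2
      exact SHF.eq_of_dvd Z _ o o' ho.1 ho'.1 (SHF.dvd_down Z hZ _ h1) (SHF.dvd_down Z hZ _ h2)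
  · intro δ p r hp
    unfold box at hp ⊢
    rw [Fintype.mem_piFinset] at hp ⊢
    intro i
    have h1 := hp i
    rw [Finset.mem_Icc] at h1 ⊢
    unfold act
    by_cases hi : i = δ.1
    · have h2 := hp δ.1
      rw [Finset.mem_Icc] at h2
      rw [hi, Function.update_self]
      push_cast
      split_ifs <;> constructor <;> omega
    · rw [Function.update_of_ne hi]
      push_cast
      constructor <;> omega
  · unfold box
    rw [Fintype.mem_piFinset]
    intro i
    rw [Finset.mem_Icc]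
    simp
  · intro r r' hr p hp
    unfold box at hp ⊢
    rw [Fintype.mem_piFinset] at hp ⊢
    intro i
    have h1 := hp i
    rw [Finset.mem_Icc] at h1 ⊢
    have h2 : (r : ℤ) ≤ r' := by exact_mod_cast hr
    constructor <;> omega
  · intro r
    unfold box
    rw [Fintype.card_piFinset]
    simp only [Int.card_Icc, Finset.prod_const, Finset.card_univ, Fintype.card_fin]
    congr 1
    omega

end Pool.Agent.RMS
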