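import Pool.Agent.RMS.St2

/-!
# Project RMS, module SUMD (helper71): the sum over the traces
-/

set_option autoImplicit false

open Finset
open scoped Classical

namespace Pool.Agent.RMS

open Pool.Agent.PPS (SS)
open Pool.Agent.PPL (sgP)

namespace SUMD

lemma sgP_eq' (P : Prop) : sgP P = 1 - 2 * (if P then 1 else 0) := by
  unfold sgP
  split_ifs <;> norm_num

lemma sgP_abs' (P : Prop) : |sgP P| ≤ 1 := by
  unfold sgP
  split_ifs <;> simp

/-- the sum over an event -/
lemma half {X : Type} (H : Finset X) (E : X → Prop) (g : X → ℝ) (κ : ℝ)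
    (h1 : |∑ v ∈ H, sgP (E v) * g v| ≤ κ) (h2 : |∑ v ∈ H, g v| ≤ κ) :
    |∑ v ∈ H, (if E v then g v else 0)| ≤ κ := by
  have h3 : ∑ v ∈ H, (if E v then g v else 0) =
      ((∑ v ∈ H, g v) - ∑ v ∈ H, sgP (E v) * g v) / 2 := by
    rw [← Finset.sum_sub_distrib, Finset.sum_div]
    refine Finset.sum_congr rfl fun v _ => ?_
    rw [sgP_eq']
    split_ifs <;> ring
  rw [h3, abs_div, abs_two]
  have h4 := abs_sub (∑ v ∈ H, g v) (∑ v ∈ H, sgP (E v) * g v)
  linarith

/-- the sum over the cases -/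
lemma cases {X J : Type} [Fintype J] (H : Finset X) (E : J → X → Prop) (c : J → ℝ)
    (bad : X → Prop) (F g : X → ℝ) (κ : ℝ) (hc : ∀ a, |c a| ≤ 1) (hF : ∀ v, |F v| ≤ 1)
    (hg : ∀ v, |g v| ≤ 1) (h1 : ∀ v, ¬ bad v → ∃! a, E a v)
    (h2 : ∀ a v, E a v → ¬ bad v ∧ c a = F v)
    (hκ : ∀ a, |∑ v ∈ H, (if E a v then g v else 0)| ≤ κ) :
    |∑ v ∈ H, F v * g v| ≤ (Fintype.card J : ℝ) * κ + ((H.filter bad).card : ℝ) := by
  have h3 : ∀ v, F v * g v =
      ∑ a, c a * (if E a v then g v else 0) + (if bad v then F v * g v else 0) := by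
    intro v
    by_cases hb : bad v
    · rw [if_pos hb, Finset.sum_eq_zero, zero_add]
      intro a _
      rw [if_neg fun h => (h2 a v h).1 hb, mul_zero]
    · obtain ⟨a, ha, hu⟩ := h1 v hb
      rw [if_neg hb, add_zero, Finset.sum_eq_single a]
      · rw [if_pos ha, (h2 a v ha).2]
      · intro b _ hba
        rw [if_neg fun h => hba (hu b h), mul_zero]
      · intro h
        exact absurd (Finset.mem_univ a) h
  have h4 : ∑ v ∈ H, F v * g v = ∑ a, c a * ∑ v ∈ H, (if E a v then g v else 0) +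
      ∑ v ∈ H.filter bad, F v * g v := by
    rw [Finset.sum_filter, Finset.sum_congr rfl fun v _ => h3 v, Finset.sum_add_distrib,
      Finset.sum_comm]
    congr 1
    refine Finset.sum_congr rfl fun a _ => ?_
    rw [Finset.mul_sum]
  rw [h4]
  refine (abs_add_le _ _).trans (add_le_add ?_ ?_)
  · refine (Finset.abs_sum_le_sum_abs _ _).trans ?_
    have h5 : ∀ a ∈ (Finset.univ : Finset J),
        |c a * ∑ v ∈ H, (if E a v then g v else 0)| ≤ κ := by
      intro a _
      rw [abs_mul]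
      have h6 := mul_le_mul (hc a) (hκ a) (abs_nonneg _) zero_le_one
      linarith
    have h6 := Finset.sum_le_card_nsmul _ _ _ h5
    rwa [nsmul_eq_mul, Finset.card_univ] at h6
  · refine (Finset.abs_sum_le_sum_abs _ _).trans ?_
    have h5 : ∀ v ∈ H.filter bad, |F v * g v| ≤ 1 := by
      intro v _
      rw [abs_mul]
      have h6 := mul_le_mul (hF v) (hg v) (abs_nonneg _) zero_le_one
      linarith
    have h6 := Finset.sum_le_card_nsmul _ _ _ h5
    rwa [nsmul_eq_mul, mul_one] at h6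

end SUMD

theorem t_SUMD (hLOC : S_LOC) (hIDX : S_IDX) : S_SUMD := by
  intro P V Γ L D A O _ _ _ _ R ac acc T K m q s es B H Lf κ hB hs hK hκ
  -- `κ ≥ 0`
  have hκ0 : 0 ≤ κ := by
    let R0 : SS P Unit Unit := ⟨(), fun _ _ => ∅, fun _ _ _ => .stay (), fun _ _ _ _ _ => rfl⟩
    have h := hκ Unit R0 (fun _ => False) 0 (Nat.zero_le _) (by
      rw [Fintype.card_unit]
      exact Nat.le_add_right _ _) (fun t v => by simp [R0]) (fun x => by simp)
    exact (abs_nonneg _).trans h
  have hI := fun j : Fin q => hIDX P V Γ L D A O R ac (es j) T m B hB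
  choose ι hι τ hcard hv hx using hI
  let J : Type := (j : Fin q) × (ι j × V)
  let E : J → (P → Bool) → Prop := fun a x => Tra R ac (es a.1) (τ a.1 a.2.1) x T ∧
    (R.conf ac x T).v = a.2.2 ∧
    ∀ i : Fin a.1.val, m + 1 ≤ ∑ t ∈ range T, R.chg ac (es ⟨i.val, i.2.trans a.1.2⟩) x t
  have key := SUMD.cases (J := J) H E (fun a => sgP (acc a.2.2))
    (fun v => ∀ i, m < ∑ t ∈ range T, R.chg ac (es i) v t)
    (fun v => sgP (acc (R.conf ac v T).v)) (fun v => sgP (Lf v)) κ
    (fun a => SUMD.sgP_abs' _) (fun v => SUMD.sgP_abs' _) (fun v => SUMD.sgP_abs' _) ?_ ?_ ?_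
  · refine key.trans (add_le_add ?_ (le_of_eq (by congr)))
    refine mul_le_mul_of_nonneg_right ?_ hκ0
    have h1 : Fintype.card J ≤
        q * ((T + 1) * Fintype.card V * B.card + 1) ^ m * Fintype.card V := by
      show Fintype.card ((j : Fin q) × (ι j × V)) ≤ _
      rw [Fintype.card_sigma]
      calc ∑ j : Fin q, Fintype.card (ι j × V)
          ≤ ∑ _j : Fin q, ((T + 1) * Fintype.card V * B.card + 1) ^ m * Fintype.card V := by
            refine Finset.sum_le_sum fun j _ => ?_
            rw [Fintype.card_prod]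
            exact Nat.mul_le_mul_right _ (hcard j)
        _ = q * ((T + 1) * Fintype.card V * B.card + 1) ^ m * Fintype.card V := by
            rw [Finset.sum_const, Finset.card_univ, Fintype.card_fin, smul_eq_mul]
            ring
    exact_mod_cast h1
  · -- exactly one case
    intro v hb
    push Not at hb
    let S : Finset (Fin q) := Finset.univ.filter fun i => ∑ t ∈ range T, R.chg ac (es i) v t ≤ m
    have hS : S.Nonempty := by
      obtain ⟨i, hi⟩ := hb
      exact ⟨i, Finset.mem_filter.2 ⟨Finset.mem_univ _, hi⟩⟩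
    have hj : S.min' hS ∈ S := Finset.min'_mem S hS
    have hj2 := (Finset.mem_filter.1 hj).2
    obtain ⟨i0, hi0, hu⟩ := (hx (S.min' hS) v).1 hj2
    refine ⟨⟨S.min' hS, i0, (R.conf ac v T).v⟩, ⟨hi0, rfl, ?_⟩, ?_⟩
    · intro i
      by_contra hlt
      have h1 : (⟨i.val, i.2.trans (S.min' hS).2⟩ : Fin q) ∈ S :=
        Finset.mem_filter.2 ⟨Finset.mem_univ _, by omega⟩
      have h2 := Finset.min'_le S _ h1
      have h3 : (S.min' hS).val ≤ i.val := h2
      exact absurd i.2 (not_lt.2 h3)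
    · rintro ⟨j, i, w⟩ ⟨h1, h2, h3⟩
      have hjS : j ∈ S := by
        refine Finset.mem_filter.2 ⟨Finset.mem_univ _, ?_⟩
        by_contra hlt
        exact (hx j v).2 (not_le.1 hlt) i h1
      have hjm : j = S.min' hS := by
        refine le_antisymm ?_ (Finset.min'_le S _ hjS)
        by_contra hlt
        have h4 : (S.min' hS).val < j.val := not_le.1 hlt
        have h5 : m + 1 ≤ ∑ t ∈ range T, R.chg ac (es (S.min' hS)) v t := h3 ⟨_, h4⟩
        omega
      subst hjm
      have h4 : i = i0 := hu i h1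
      subst h4
      have h5 : (R.conf ac v T).v = w := h2
      subst h5
      rfl
  · rintro ⟨j, i, w⟩ v ⟨h1, h2, h3⟩
    refine ⟨?_, ?_⟩
    · intro hb
      exact (hx j v).2 (hb j) i h1
    · have h4 : (R.conf ac v T).v = w := h2
      show sgP (acc w) = sgP (acc (R.conf ac v T).v)
      rw [h4]
  · rintro ⟨j, i, w⟩
    obtain ⟨V', hV', R', acc', T', hT', hc', hr', hK', ha'⟩ :=
      hLOC P V Γ L D A O R ac (es j) (τ j i) T (m + 1) K (m + 1) j.val s w
        (fun a => es ⟨a.val, a.2.trans j.2⟩) (hv j i).1 hs hK (hv j i).2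
    have hc2 : Fintype.card V' ≤ 1 + Fintype.card V * Fintype.card O *
        Fintype.card Γ ^ Fintype.card O * (m + 2) ^ q * (K + 1) := by
      refine hc'.trans ?_
      have h1 : (m + 1 + 1) ^ j.val ≤ (m + 2) ^ q := Nat.pow_le_pow_right (by omega) j.2.le
      have h2 := Nat.mul_le_mul_right (K + 1) (Nat.mul_le_mul_left
        (Fintype.card V * Fintype.card O * Fintype.card Γ ^ Fintype.card O) h1)
      omega
    have e1 := hκ V' R' acc' T' hT' hc2 hr' hK'
    have e2 := hκ V' R' (fun _ => False) T' hT' hc2 hr' hK'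
    have e3 : ∑ v ∈ H, sgP False * sgP (Lf v) = ∑ v ∈ H, sgP (Lf v) := by
      refine Finset.sum_congr rfl fun v _ => ?_
      rw [SUMD.sgP_eq' False]
      simp
    rw [e3] at e2
    refine SUMD.half H (E ⟨j, i, w⟩) (fun v => sgP (Lf v)) κ ?_ e2
    have e4 : ∀ v, (acc' (R'.conf v T').1) = E ⟨j, i, w⟩ v := fun v => propext (ha' v)
    simp only [e4] at e1
    exact e1

end Pool.Agent.RMS
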