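import Pool.Agent.RMS.St3
import Pool.Agent.UM.Modes

/-!
# Project RMS, module TAX: PP mode is a part of PSPACE mode for the machines with a stack or a tape;
with `N + 1` coins PP mode gives every function
-/

set_option autoImplicit false

open Finset
open scoped Classical

namespace Pool.Agent.RMS

open Pool.Agent.PPS (Mcs)

theorem t_TAX (hAUX : PPS.S_AUX) : S_TAX := by
  refine ⟨fun d I τ b W L h => ?_, fun d N b L hN hb h2 => ?_⟩
  · refine UM.MODES.pp (fun P c hP => ?_) h
    rcases hP with hP | hP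
    · left
      obtain ⟨T, V, G, hV, R, acc, h1, h2, h3, h4⟩ := hP
      exact ⟨T, V, G, hV, R, fun _ => c, h1, h2, h3, fun x => Iff.rfl⟩
    · right
      obtain ⟨T, V, Γ, hV, hΓ, g, y, R, acc, h1, h2, h3, h4, h5, h6, h7, h8, h9⟩ := hP
      exact ⟨T, V, Γ, hV, hΓ, g, y, R, fun _ => c, h1, h2, h3, h4, h5, h6, h7, h8,
        fun x => Iff.rfl⟩
  · obtain ⟨P, hP, hL⟩ := hAUX.2 N b L hN hb h2
    exact ⟨P, fun w => Or.inl (hP w), hL⟩

end Pool.Agent.RMS
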