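import Pool.Agent.RMS.St3

/-!
# Project RMS: TC1, the lower bound for machines with a stack or a tape, fixed `k`
-/

set_option autoImplicit false

open Finset
open scoped Classical

namespace Pool.Agent.RMS

open Pool.Agent.PPS (SS Mcs HardC cube)
open Pool.Agent.PPL (sgP fP)
open Pool.Agent.TKN.ONE (size Bas Lay)

namespace TC1x

/-- a smaller `b` is easier -/
theorem numD_mono {d : ℕ} {τ b b' b1 : ℝ} (h : b ≤ b') (hN : NumD d τ b' b1) : NumD d τ b b1 := by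
  intro T v γ g K y hy hyd hT hv hγ hγg hg hgb hK
  obtain ⟨Z, m, q, a1, a2, a3, a4⟩ :=
    hN T v γ g K y hy (hyd.trans h) hT hv hγ hγg hg (hgb.trans h) hK
  refine ⟨Z, m, q, a1, a2, a3, a4.trans ?_⟩
  exact Real.rpow_le_rpow_of_exponent_le (by norm_num) (by linarith)

theorem nums1 (A1 k : ℕ) (hk : 2 ≤ k) :
    2 ^ 60 * (k * k ^ (A1 * k)) ^ 4 ≤ k ^ ((4 * A1 + 40) * k) := by
  have h1 : (2 : ℕ) ^ 60 ≤ k ^ 60 := Nat.pow_le_pow_left hk 60
  calc 2 ^ 60 * (k * k ^ (A1 * k)) ^ 4 ≤ k ^ 60 * (k * k ^ (A1 * k)) ^ 4 :=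
        Nat.mul_le_mul_right _ h1
    _ = k ^ (64 + 4 * (A1 * k)) := by
        rw [← pow_succ', ← pow_mul, ← pow_add]
        congr 1
        ring
    _ ≤ k ^ ((4 * A1 + 40) * k) := by
        refine Nat.pow_le_pow_right (by omega) ?_
        have : (4 * A1 + 40) * k = 4 * (A1 * k) + 40 * k := by ring
        omega

theorem nums2 (A1 k : ℕ) (hk : 2 ≤ k) :
    4 * (2 ^ 16 * k * (k ^ (A1 * k)) ^ 2) ≤ k ^ ((4 * A1 + 40) * k) := by
  have h1 : (2 : ℕ) ^ 18 ≤ k ^ 18 := Nat.pow_le_pow_left hk 18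
  calc 4 * (2 ^ 16 * k * (k ^ (A1 * k)) ^ 2) = 2 ^ 18 * (k * (k ^ (A1 * k)) ^ 2) := by ring
    _ ≤ k ^ 18 * (k * (k ^ (A1 * k)) ^ 2) := Nat.mul_le_mul_right _ h1
    _ = k ^ (19 + 2 * (A1 * k)) := by
        rw [← pow_mul, ← pow_succ', ← pow_add]
        congr 1
        ring
    _ ≤ k ^ ((4 * A1 + 40) * k) := by
        refine Nat.pow_le_pow_right (by omega) ?_
        have : (4 * A1 + 40) * k = 4 * (A1 * k) + 40 * k := by ring
        omega

theorem nums3 (A1 k : ℕ) (hk : 2 ≤ k) : 2 ^ 56 ≤ k ^ ((4 * A1 + 40) * k) := by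
  calc 2 ^ 56 ≤ k ^ 56 := Nat.pow_le_pow_left hk 56
    _ ≤ k ^ ((4 * A1 + 40) * k) := by
        refine Nat.pow_le_pow_right (by omega) ?_
        have : (4 * A1 + 40) * k = 4 * (A1 * k) + 40 * k := by ring
        omega

theorem nums4 (A1 k : ℕ) (hk : 2 ≤ k) : k ^ (A1 * k) ≤ k ^ ((4 * A1 + 40) * k) := by
  refine Nat.pow_le_pow_right (by omega) ?_
  have : (4 * A1 + 40) * k = 4 * (A1 * k) + 40 * k := by ring
  omega

end TC1x

open TC1x in
theorem t_TC1 (hH : S_HCU) (hN1 : S_ND1) (hM : PPS.S_MC1) (hS : TKN.ONE.S_SIZ) : S_TC1 := by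
  obtain ⟨A1, hA1⟩ := hM
  refine ⟨4 * A1 + 40, ?_⟩
  intro k M hk hkM β ly N c hN hc
  subst hN
  have n1 := (nums3 A1 k hk).trans hkM
  have hsz : 2 * M ≤ size M := (hS M n1).1.1
  have hY : k ^ ((4 * A1 + 40) * k) ≤ size M := by omega
  have hMC := hA1 k M hk ((nums4 A1 k hk).trans hkM) β ly (size M) _ rfl rfl
  set X : ℕ := k ^ (A1 * k) with hX
  have hX1 : 1 ≤ X := Nat.one_le_pow _ _ (by omega)
  have hXr : (0 : ℝ) < X := by exact_mod_cast hX1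
  have hkr : (0 : ℝ) < k := by exact_mod_cast (by omega : 0 < k)
  have e1 : 1 / (k : ℝ) ^ (A1 * k) * (size M : ℕ) = (size M : ℝ) / X := by
    rw [hX]
    push_cast
    ring
  rw [e1] at hMC
  have hND := hN1 k X (size M) hk hX1 ((nums1 A1 k hk).trans hY)
  set Y : ℝ := (k : ℝ) ^ ((4 * A1 + 40) * k) with hYd
  have hY0 : 0 < Y := pow_pos hkr _
  set Z : ℝ := 2 ^ 16 * k * (X : ℝ) ^ 2 with hZd
  have hZ0 : 0 < Z := by positivity
  have hZX : (X : ℝ) ≤ Z := by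
    have h1 : (1 : ℝ) ≤ X := by exact_mod_cast hX1
    have h2 : (1 : ℝ) ≤ k := by exact_mod_cast (by omega : 1 ≤ k)
    have h3 : (X : ℝ) ≤ (X : ℝ) ^ 2 := by nlinarith
    have h4 : (1 : ℝ) ≤ 2 ^ 16 * k := by nlinarith
    calc (X : ℝ) ≤ (X : ℝ) ^ 2 := h3
      _ = 1 * (X : ℝ) ^ 2 := (one_mul _).symm
      _ ≤ 2 ^ 16 * k * (X : ℝ) ^ 2 := mul_le_mul_of_nonneg_right h4 (by positivity)
  have h4Z : 4 * Z ≤ Y := by
    have := nums2 A1 k hk
    rw [hZd, hYd, hX]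
    exact_mod_cast this
  have hNY : 1 ≤ (size M : ℝ) / Y := by
    rw [le_div_iff₀ hY0, one_mul, hYd]
    exact_mod_cast hY
  have hNZ : 4 * ((size M : ℝ) / Y) ≤ (size M : ℝ) / Z := by
    rw [← mul_div_assoc, div_le_div_iff₀ hY0 hZ0]
    have : (0 : ℝ) ≤ size M := Nat.cast_nonneg _
    nlinarith
  have hcN : c * (size M : ℕ) = (size M : ℝ) / Y := by
    rw [hc]
    ring
  have hb3 : c * (size M : ℕ) + 3 ≤ (size M : ℝ) / Z := by
    rw [hcN]
    linarith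
  have hZX' : (size M : ℝ) / Z ≤ (size M : ℝ) / X :=
    div_le_div_of_nonneg_left (Nat.cast_nonneg _) hXr hZX
  exact hH (size M) 1 (k * (size M : ℕ)) (c * (size M : ℕ)) ((size M : ℝ) / X) _
    (hb3.trans hZX') (numD_mono hb3 hND) hMC

end Pool.Agent.RMS
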