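import Pool.Agent.RMS.St3
import Pool.Agent.RMS.Pw

/-!
# Project RMS: TC2, the lower bound for machines with a stack or a tape, superlinear time
-/

set_option autoImplicit false

open Finset
open scoped Classical

namespace Pool.Agent.RMS

open Pool.Agent.PPS (SS Mcs HardC cube)
open Pool.Agent.PPL (sgP fP)
open Pool.Agent.TKN.ONE (size Bas Lay)

theorem t_TC2 (hH : S_HCU) (hN2 : S_ND2) (hM : PPS.S_MC2) (hS : TKN.ONE.S_SIZ) : S_TC2 := by
  intro d ε hd hε hε1
  have hdr : (1 : ℝ) ≤ d := by exact_mod_cast hd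
  have hd0 : (0 : ℝ) < 4 * d := by linarith
  have he0 : 0 < ε / (4 * d) := div_pos hε hd0
  have he1 : ε / (4 * d) < 1 := by
    rw [div_lt_one hd0]
    linarith
  obtain ⟨c, hc, M0, hM0⟩ := hM _ he0 he1
  obtain ⟨N1, hN1⟩ := hN2 d ε hd hε hε1
  obtain ⟨N3, hN3⟩ := pw c 1 (1 + ε / (4 * d)) 1 (by linarith)
  refine ⟨c, hc, M0 + N1 + N3 + 2 ^ 56, fun M hMM β ly N b hN hb => ?_⟩
  have hsz : 2 * M ≤ size M := (hS M (by omega)).1.1
  have hNM : M ≤ N := by omega
  have hN16 : (3 : ℝ) ^ 3 ≤ N := by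
    have h1 : 3 ^ 3 ≤ N := le_trans (by norm_num) (le_trans (by omega : 2 ^ 56 ≤ M) hNM)
    exact_mod_cast h1
  have hNr : (0 : ℝ) < N := by linarith
  have hl3 : (3 : ℝ) ≤ Real.log N := by
    rw [Real.le_log_iff_exp_le hNr]
    refine le_trans ?_ hN16
    have h1 : Real.exp 3 = Real.exp 1 ^ 3 := by
      rw [← Real.exp_nat_mul]
      norm_num
    rw [h1]
    have h2 := Real.exp_one_lt_d9
    have h3 : Real.exp 1 ≤ 3 := by linarith
    exact pow_le_pow_left₀ (Real.exp_pos 1).le h3 3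
  have hll : 1 ≤ Real.log (Real.log N) := by
    rw [Real.le_log_iff_exp_le (by linarith)]
    have h2 := Real.exp_one_lt_d9
    linarith
  have hτ0 : 0 ≤ c * N * Real.log N / Real.log (Real.log N) := by positivity
  have hτ1 : c * N * Real.log N / Real.log (Real.log N) ≤ (N : ℝ) ^ (1 + ε / (4 * d)) := by
    have h1 := hN3 N (by omega)
    rw [Real.rpow_one, pow_one] at h1
    refine le_trans ?_ h1
    exact div_le_self (by positivity) hll
  obtain ⟨h3, h4⟩ := hN1 N (by omega) _ hτ0 hτ1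
  have hMC := hM0 M (by omega) β ly N _ hN rfl
  subst hN
  subst hb
  exact hH (size M) d _ _ _ _ h3 h4 hMC

end Pool.Agent.RMS
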