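import Pool.Agent.RMS.St2

/-!
# Project RMS, module TRU (helper31): the simulation of the rooms and the run
-/

set_option autoImplicit false

open Finset
open scoped Classical

namespace Pool.Agent.RMS

namespace TRU

section

variable {P V Γ L D A O : Type} [Zero L] (R : TM P V Γ L D) (ac : D → L → L)
  (e : L ≃ A × O) (τ : ℕ → Option (V × L)) (T : ℕ) (w : V) (x : P → Bool)

/-- `S` is the state of the simulation of the room `a` at time `t` -/
def Good (a : A) (t : ℕ) (S : Rs V O Γ) : Prop :=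
  (∀ o, S.c o = (R.conf ac x t).c (e.symm (a, o))) ∧
    (rm e τ t = a → S.v = (R.conf ac x t).v ∧ S.h = (e (R.conf ac x t).p).2)

omit [Zero L] in
lemma symm_ne {a : A} {o : O} {p : L} (h : (e p).1 ≠ a) : e.symm (a, o) ≠ p := by
  intro h1
  apply h
  rw [← h1, Equiv.apply_symm_apply]

lemma rm_some {t : ℕ} {q : V × L} (h : τ (t + 1) = some q) : rm e τ (t + 1) = (e q.2).1 := by
  simp only [rm, h]

lemma rm_none {t : ℕ} (h : τ (t + 1) = none) : rm e τ (t + 1) = rm e τ t := by
  simp only [rm, h]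

lemma conf_succ (t : ℕ) : R.conf ac x (t + 1) =
    ⟨(R.op t (R.conf ac x t).v ((R.conf ac x t).c (R.conf ac x t).p) x).1,
      mvo ac (R.op t (R.conf ac x t).v ((R.conf ac x t).c (R.conf ac x t).p) x).2.2
        (R.conf ac x t).p,
      Function.update (R.conf ac x t).c (R.conf ac x t).p
        (R.op t (R.conf ac x t).v ((R.conf ac x t).c (R.conf ac x t).p) x).2.1⟩ := rfl

variable {R ac e τ x}

lemma facts {a : A} {t : ℕ} {S : Rs V O Γ} (hg : Good R ac e τ x a t S) (ha : rm e τ t = a)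
    (hr : rm e τ t = (e (R.conf ac x t).p).1) :
    (opr R x t S).1 = (R.conf ac x (t + 1)).v ∧
    nxc R ac e x a t S = (R.conf ac x (t + 1)).p ∧
    ∀ o, Function.update S.c S.h (opr R x t S).2.1 o =
      (R.conf ac x (t + 1)).c (e.symm (a, o)) := by
  obtain ⟨hc, hv⟩ := hg
  obtain ⟨hv, hh⟩ := hv ha
  have hp : e.symm (a, S.h) = (R.conf ac x t).p := by
    rw [Equiv.symm_apply_eq]
    refine Prod.ext ?_ ?_
    · rw [← hr, ha]
    · rw [hh]
  have ho : opr R x t S = R.op t (R.conf ac x t).v ((R.conf ac x t).c (R.conf ac x t).p) x := by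
    unfold opr
    rw [hv, hc, hp]
  refine ⟨?_, ?_, ?_⟩
  · rw [ho, conf_succ]
  · unfold nxc
    rw [ho, hp, conf_succ]
  · intro o
    rw [ho, conf_succ]
    by_cases h : o = S.h
    · subst h
      rw [Function.update_self, hp]
      simp only [Function.update_self]
    · have h1 : e.symm (a, o) ≠ (R.conf ac x t).p := by
        rw [← hp]
        intro h2
        have h3 := e.symm.injective h2
        exact h (Prod.ext_iff.1 h3).2
      rw [Function.update_of_ne h, hc]
      simp only [Function.update_of_ne h1]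

lemma facts' {a : A} {t : ℕ} {S : Rs V O Γ} (hg : Good R ac e τ x a t S) (ha : rm e τ t ≠ a)
    (hr : rm e τ t = (e (R.conf ac x t).p).1) :
    ∀ o, S.c o = (R.conf ac x (t + 1)).c (e.symm (a, o)) := by
  intro o
  have h1 : e.symm (a, o) ≠ (R.conf ac x t).p := symm_ne e (by rw [← hr]; exact ha)
  rw [hg.1, conf_succ]
  simp only [Function.update_of_ne h1]

variable {T w}

/-- the room at time `t + 1` -/
lemma rm_step {t : ℕ} (hT : Tra R ac e τ x (t + 1)) (hr : rm e τ t = (e (R.conf ac x t).p).1) :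
    rm e τ (t + 1) = (e (R.conf ac x (t + 1)).p).1 := by
  have h := hT t (Nat.lt_succ_self t)
  by_cases h1 : (e (R.conf ac x (t + 1)).p).1 = (e (R.conf ac x t).p).1
  · rw [if_pos h1] at h
    rw [rm_none e τ h, hr, h1]
  · rw [if_neg h1] at h
    rw [rm_some e τ h]

lemma stp_step {t : ℕ} (hT : Tra R ac e τ x (t + 1)) (hr : rm e τ t = (e (R.conf ac x t).p).1)
    (hw : t + 1 = T → (R.conf ac x T).v = w) {a : A} {S : Rs V O Γ}
    (hg : Good R ac e τ x a t S) :
    ∃ S', stp R ac e τ T w x a t S = some S' ∧ Good R ac e τ x a (t + 1) S' := by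
  have h := hT t (Nat.lt_succ_self t)
  by_cases ha : rm e τ t = a
  · obtain ⟨h1, h2, h3⟩ := facts hg ha hr
    have hn : ¬ (t + 1 = T ∧ (opr R x t S).1 ≠ w) := by
      rintro ⟨h4, h5⟩
      apply h5
      rw [h1, ← hw h4, h4]
    unfold stp
    rw [if_pos ha, if_neg hn]
    by_cases h4 : (e (R.conf ac x (t + 1)).p).1 = (e (R.conf ac x t).p).1
    · rw [if_pos h4] at h
      rw [h]
      have h5 : (e (nxc R ac e x a t S)).1 = a := by
        rw [h2, h4, ← hr, ha]
      refine ⟨_, if_pos h5, h3, fun _ => ⟨h1, ?_⟩⟩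
      show (e (nxc R ac e x a t S)).2 = _
      rw [h2]
    · rw [if_neg h4] at h
      rw [h]
      refine ⟨_, if_pos ⟨h1, h2⟩, h3, fun _ => ⟨rfl, rfl⟩⟩
  · have h3 := facts' hg ha hr
    unfold stp
    rw [if_neg ha]
    by_cases h4 : (e (R.conf ac x (t + 1)).p).1 = (e (R.conf ac x t).p).1
    · rw [if_pos h4] at h
      rw [h]
      refine ⟨S, rfl, h3, fun h5 => ?_⟩
      rw [rm_none e τ h] at h5
      exact absurd h5 ha
    · rw [if_neg h4] at h
      rw [h]
      exact ⟨_, rfl, h3, fun _ => ⟨rfl, rfl⟩⟩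

lemma part1 : ∀ t ≤ T, Tra R ac e τ x t → (t = T → (R.conf ac x T).v = w) →
    rm e τ t = (e (R.conf ac x t).p).1 ∧ ∀ a, ∃ S, phs R ac e τ T w x a t = some S ∧
      Good R ac e τ x a t S := by
  intro t
  induction t with
  | zero =>
    intro _ _ _
    refine ⟨rfl, fun a => ⟨ini R e a, rfl, fun o => rfl, fun _ => ⟨rfl, rfl⟩⟩⟩
  | succ t ih =>
    intro ht hT hw
    obtain ⟨hr, h1⟩ := ih (by omega) (fun u hu => hT u (by omega)) (fun h => by omega)
    refine ⟨rm_step hT hr, fun a => ?_⟩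
    obtain ⟨S, hS, hg⟩ := h1 a
    obtain ⟨S', hS', hg'⟩ := stp_step hT hr hw hg
    refine ⟨S', ?_, hg'⟩
    show (phs R ac e τ T w x a t).bind (stp R ac e τ T w x a t) = some S'
    rw [hS, Option.bind_some, hS']

lemma back {t : ℕ} (hV : Vld e τ) (ht : t < T) (hT : Tra R ac e τ x t)
    (hn : phs R ac e τ T w x (rm e τ t) (t + 1) ≠ none) :
    Tra R ac e τ x (t + 1) ∧ (t + 1 = T → (R.conf ac x T).v = w) := by
  obtain ⟨hr, h1⟩ := part1 (w := w) t ht.le hT (fun h => by omega)
  obtain ⟨S, hS, hg⟩ := h1 (rm e τ t)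
  obtain ⟨h2, h3, h4⟩ := facts hg rfl hr
  have hn' : stp R ac e τ T w x (rm e τ t) t S ≠ none := by
    intro h
    apply hn
    show (phs R ac e τ T w x (rm e τ t) t).bind (stp R ac e τ T w x (rm e τ t) t) = none
    rw [hS, Option.bind_some, h]
  unfold stp at hn'
  rw [if_pos rfl] at hn'
  by_cases h5 : t + 1 = T ∧ (opr R x t S).1 ≠ w
  · rw [if_pos h5] at hn'
    exact absurd rfl hn'
  rw [if_neg h5] at hn'
  refine ⟨?_, ?_⟩
  · intro u hu
    rcases Nat.lt_succ_iff_lt_or_eq.1 hu with hu | rfl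
    · exact hT u hu
    · rcases hq : τ (u + 1) with _ | q
      · rw [hq] at hn'
        have h6 : (e (nxc R ac e x (rm e τ u) u S)).1 = rm e τ u := by
          by_contra h7
          apply hn'
          exact if_neg h7
        rw [h3] at h6
        rw [if_pos (by rw [h6, hr])]
      · rw [hq] at hn'
        have h6 : (opr R x u S).1 = q.1 ∧ nxc R ac e x (rm e τ u) u S = q.2 := by
          by_contra h7
          apply hn'
          exact if_neg h7
        have h7 := hV u q hq
        rw [h2, h3] at h6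
        rw [if_neg (by rw [h6.2, ← hr]; exact h7), h6.1, h6.2]
  · intro h6
    by_contra h7
    apply h5
    refine ⟨h6, ?_⟩
    rw [h2, h6]
    exact h7

end

end TRU

/-- TRU. -/
theorem t_TRU : S_TRU := by
  intro P V Γ L D A O _ R ac e τ T w x
  refine ⟨fun t ht hT hw => TRU.part1 t ht hT hw, ?_⟩
  intro hV hn
  have key : ∀ t ≤ T, Tra R ac e τ x t := by
    intro t
    induction t with
    | zero => exact fun _ u hu => absurd hu (Nat.not_lt_zero u)
    | succ t ih =>
      intro ht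
      exact (TRU.back hV (by omega) (ih (by omega)) (hn t (by omega))).1
  refine ⟨key T le_rfl, fun h0 => ?_⟩
  obtain ⟨t, rfl⟩ : ∃ t, T = t + 1 := ⟨T - 1, by omega⟩
  exact (TRU.back hV (Nat.lt_succ_self t) (key t (by omega)) (hn t (Nat.lt_succ_self t))).2 rfl

end Pool.Agent.RMS
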