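import Pool.Agent.PPS.All
import Pool.Agent.PPS.DECO
import Pool.Agent.RMS.SHF
import Pool.Agent.RMS.TRU
import Pool.Agent.RMS.OWN
import Pool.Agent.RMS.LOC
import Pool.Agent.RMS.IDX
import Pool.Agent.RMS.SUMD
import Pool.Agent.RMS.SEL
import Pool.Agent.RMS.AVD
import Pool.Agent.RMS.CRD
import Pool.Agent.RMS.HCU
import Pool.Agent.RMS.ND1
import Pool.Agent.RMS.ND2
import Pool.Agent.RMS.TC1
import Pool.Agent.RMS.TC2
import Pool.Agent.RMS.TAX

/-!
# Project RMS: the theorems on deterministic machines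
-/

set_option autoImplicit false

namespace Pool.Agent.RMS

open Pool.Agent.TKN.ONE (t_SIZ)

theorem hcu : S_HCU :=
  t_HCU (t_CRD t_SHF (t_SUMD (t_LOC t_TRU t_OWN) t_IDX) t_SEL (t_AVD t_SHF)) PPL.t_AVG

theorem tc1 : S_TC1 := t_TC1 hcu t_ND1 PPS.mc1 t_SIZ

theorem tc2 : S_TC2 := t_TC2 hcu t_ND2 PPS.mc2 t_SIZ

theorem tax : S_TAX := t_TAX PPS.t_AUX

end Pool.Agent.RMS
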