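import Pool.Agent.RMS.St1

/-!
# Project RMS, module CHN (helper99): the visits of one room
-/

set_option autoImplicit false

open Finset
open scoped Classical

namespace Pool.Agent.RMS

namespace CHNx

variable {X Γ Q L D A O N : Type}

/-- The edges of the net for `(u, p) :: vs`, given the net for `vs`. -/
inductive Ed (G : TProg X Γ Q L D) (ac : D → L → L) (e : L ≃ A × O) (a : A) (u : Q) (p : L)
    (Ex : Q → O → Prop) (st : (O → Γ) → N) (T : N → List (X × Bool) → N → Prop) :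
    (((O → Γ) × Option (Q × O)) ⊕ N) → List (X × Bool) → (((O → Γ) × Option (Q × O)) ⊕ N) → Prop
  | enter (c : O → Γ) : (e p).1 = a → Ed G ac e a u p Ex st T (Sum.inl (c, none)) []
      (Sum.inl (c, some (u, (e p).2)))
  | skip (c : O → Γ) : (e p).1 ≠ a → Ed G ac e a u p Ex st T (Sum.inl (c, none)) []
      (Sum.inr (st c))
  | test (c : O → Γ) (w w' : Q) (h : O) (t : List (X × Bool)) : G.test w t w' →
      Ed G ac e a u p Ex st T (Sum.inl (c, some (w, h))) t (Sum.inl (c, some (w', h)))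
  | wr (c : O → Γ) (w w' : Q) (h : O) (b : Γ) : G.wr w (c h) b w' →
      Ed G ac e a u p Ex st T (Sum.inl (c, some (w, h))) []
        (Sum.inl (Function.update c h b, some (w', h)))
  | mv (c : O → Γ) (w w' : Q) (h h1 : O) (δ : D) : G.mv w δ w' →
      ac δ (e.symm (a, h)) = e.symm (a, h1) →
      Ed G ac e a u p Ex st T (Sum.inl (c, some (w, h))) [] (Sum.inl (c, some (w', h1)))
  | exit (c : O → Γ) (w : Q) (h : O) : Ex w h →
      Ed G ac e a u p Ex st T (Sum.inl (c, some (w, h))) [] (Sum.inr (st c))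
  | old (x y : N) (t : List (X × Bool)) : T x t y →
      Ed G ac e a u p Ex st T (Sum.inr x) t (Sum.inr y)

section

variable {G : TProg X Γ Q L D} {ac : D → L → L} {e : L ≃ A × O} {a : A} {u : Q} {p : L}
  {Ex : Q → O → Prop} {st : (O → Γ) → N} (T : Net X N)

/-- The net. -/
def net (G : TProg X Γ Q L D) (ac : D → L → L) (e : L ≃ A × O) (a : A) (u : Q) (p : L)
    (Ex : Q → O → Prop) (st : (O → Γ) → N) (T : Net X N) :
    Net X (((O → Γ) × Option (Q × O)) ⊕ N) where
  source := Sum.inr T.source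
  sink := Sum.inr T.sink
  test := Ed G ac e a u p Ex st T.test

theorem inr_of {x y : N} {l : List (X × Bool)} (h : T.Wk x y l) :
    (net G ac e a u p Ex st T).Wk (Sum.inr x) (Sum.inr y) l := by
  induction h with
  | nil u => exact Net.Wk.nil _
  | cons h1 h2 ih => exact Net.Wk.cons (Ed.old _ _ _ h1) ih

theorem of_inr {z z' : ((O → Γ) × Option (Q × O)) ⊕ N} {l : List (X × Bool)}
    (h : (net G ac e a u p Ex st T).Wk z z' l) :
    ∀ x y : N, z = Sum.inr x → z' = Sum.inr y → T.Wk x y l := by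
  induction h with
  | nil z =>
    intro x y hx hy
    rw [hx] at hy
    rw [Sum.inr.inj hy]
    exact Net.Wk.nil _
  | cons h1 h2 ih =>
    intro x y hx hy
    subst hx
    cases h1 with
    | old _ y' _ h3 => exact Net.Wk.cons h3 (ih y' y rfl hy)

/-- Inside a visit. -/
theorem of_inl {z z' : ((O → Γ) × Option (Q × O)) ⊕ N} {l : List (X × Bool)}
    (h : (net G ac e a u p Ex st T).Wk z z' l) :
    ∀ (c : O → Γ) (w : Q) (o : O) (y : N), z = Sum.inl (c, some (w, o)) → z' = Sum.inr y →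
    ∃ (w' : Q) (o' : O) (c' : O → Γ) (l1 l2 : List (X × Bool)), LR G ac e a w o c w' o' c' l1 ∧
      Ex w' o' ∧ T.Wk (st c') y l2 ∧ l = l1 ++ l2 := by
  induction h with
  | nil z =>
    intro c w o y hx hy
    rw [hx] at hy
    exact absurd hy (by simp)
  | cons h1 h2 ih =>
    intro c w o y hx hy
    subst hx
    cases h1 with
    | test _ _ w1 _ t h3 =>
      obtain ⟨w', o', c', l1, l2, h4, h5, h6, h7⟩ := ih c w1 o y rfl hy
      exact ⟨w', o', c', _ ++ l1, l2, LR.test h3 h4, h5, h6, by rw [h7, List.append_assoc]⟩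
    | wr _ _ w1 _ b h3 =>
      obtain ⟨w', o', c', l1, l2, h4, h5, h6, h7⟩ := ih _ w1 o y rfl hy
      exact ⟨w', o', c', l1, l2, LR.wr b h3 h4, h5, h6, by rw [h7, List.nil_append]⟩
    | mv _ _ w1 _ o1 δ h3 h3' =>
      obtain ⟨w', o', c', l1, l2, h4, h5, h6, h7⟩ := ih _ w1 o1 y rfl hy
      exact ⟨w', o', c', l1, l2, LR.mv δ h3 h3' h4, h5, h6, by rw [h7, List.nil_append]⟩
    | exit _ _ _ h3 =>
      exact ⟨w, o, c, [], _, LR.nil _ _ _, h3, of_inr T h2 _ _ rfl hy, by simp⟩

theorem inl_of {w w' : Q} {o o' : O} {c c' : O → Γ} {l1 : List (X × Bool)}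
    (h : LR G ac e a w o c w' o' c' l1) {y : N} {l2 : List (X × Bool)} (hx : Ex w' o')
    (h2 : T.Wk (st c') y l2) :
    (net G ac e a u p Ex st T).Wk (Sum.inl (c, some (w, o))) (Sum.inr y) (l1 ++ l2) := by
  induction h with
  | nil w o c =>
    exact Net.Wk.cons (t := []) (Ed.exit _ _ _ hx) (inr_of T h2)
  | test h3 h4 ih =>
    rw [List.append_assoc]
    exact Net.Wk.cons (Ed.test _ _ _ _ _ h3) (ih hx h2)
  | wr b h3 h4 ih =>
    exact Net.Wk.cons (t := []) (Ed.wr _ _ _ _ b h3) (ih hx h2)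
  | mv δ h3 h3' h4 ih =>
    exact Net.Wk.cons (t := []) (Ed.mv _ _ _ _ _ δ h3 h3') (ih hx h2)

/-- The start of a visit. -/
theorem start_iff (c : O → Γ) (y : N) (l : List (X × Bool)) :
    (net G ac e a u p Ex st T).Wk (Sum.inl (c, none)) (Sum.inr y) l ↔
      ((e p).1 ≠ a ∧ T.Wk (st c) y l) ∨ ((e p).1 = a ∧
        ∃ (w' : Q) (o' : O) (c' : O → Γ) (l1 l2 : List (X × Bool)),
          LR G ac e a u (e p).2 c w' o' c' l1 ∧ Ex w' o' ∧ T.Wk (st c') y l2 ∧ l = l1 ++ l2) := by
  constructor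
  · intro h
    generalize hz : (Sum.inl (c, none) : ((O → Γ) × Option (Q × O)) ⊕ N) = z at h
    generalize hz' : (Sum.inr y : ((O → Γ) × Option (Q × O)) ⊕ N) = z' at h
    cases h with
    | nil =>
      rw [← hz] at hz'
      exact absurd hz' (by simp)
    | cons h1 h2 =>
      subst hz
      cases h1 with
      | enter _ h3 => exact Or.inr ⟨h3, of_inl T h2 _ _ _ _ rfl hz'.symm⟩
      | skip _ h3 => exact Or.inl ⟨h3, of_inr T h2 _ _ rfl hz'.symm⟩
  · rintro (⟨h1, h2⟩ | ⟨h1, w', o', c', l1, l2, h3, h4, h5, rfl⟩)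
    · exact Net.Wk.cons (t := []) (Ed.skip _ h1) (inr_of T h2)
    · exact Net.Wk.cons (t := []) (Ed.enter _ h1) (inl_of T h3 h4 h5)

end

/-- The condition for the end of a visit. -/
def Exi (G : TProg X Γ Q L D) (ac : D → L → L) (e : L ≃ A × O) (a : A) :
    List (Q × L) → Q → O → Prop
  | [], w, _ => w = G.sink
  | (u', p') :: _, w, h => ∃ δ, G.mv w δ u' ∧ ac δ (e.symm (a, h)) = p'

theorem chn_cons (G : TProg X Γ Q L D) (ac : D → L → L) (e : L ≃ A × O) (a : A) (u : Q) (p : L)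
    (vs : List (Q × L)) (c : O → Γ) (l : List (X × Bool)) :
    Chn G ac e a ((u, p) :: vs) c l ↔ ((e p).1 ≠ a ∧ Chn G ac e a vs c l) ∨ ((e p).1 = a ∧
        ∃ (w' : Q) (o' : O) (c' : O → Γ) (l1 l2 : List (X × Bool)),
          LR G ac e a u (e p).2 c w' o' c' l1 ∧ Exi G ac e a vs w' o' ∧
            Chn G ac e a vs c' l2 ∧ l = l1 ++ l2) := by
  constructor
  · intro h
    cases h with
    | skip h1 h2 => exact Or.inl ⟨h1, h2⟩
    | last h1 h2 => exact Or.inr ⟨h1, _, _, _, l, [], h2, rfl, Chn.nil _, by simp⟩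
    | visit h1 h2 h3 h4 h5 => exact Or.inr ⟨h1, _, _, _, _, _, h2, ⟨_, h3, h4⟩, h5, rfl⟩
  · rintro (⟨h1, h2⟩ | ⟨h1, w', o', c', l1, l2, h3, h4, h5, rfl⟩)
    · exact Chn.skip h1 h2
    · cases vs with
      | nil =>
        cases h5
        have h6 : w' = G.sink := h4
        subst h6
        rw [List.append_nil]
        exact Chn.last h1 h3
      | cons q vs =>
        obtain ⟨u', p'⟩ := q
        obtain ⟨δ, h6, h7⟩ := h4
        exact Chn.visit h1 h3 h6 h7 h5

theorem main [Fintype Γ] [Fintype Q] [Fintype O] (G : TProg X Γ Q L D) (ac : D → L → L)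
    (e : L ≃ A × O) (a : A) (s : ℕ) (hs : ∀ u t v, G.test u t v → t.length ≤ s) :
    ∀ vs : List (Q × L), ∃ (N : Type) (_ : Fintype N) (T : Net X N) (st : (O → Γ) → N),
      Fintype.card N ≤ vs.length * (Fintype.card Γ ^ Fintype.card O *
        (Fintype.card Q * Fintype.card O + 1)) + 1 ∧
      (∀ u t v, T.test u t v → t.length ≤ s) ∧
      ∀ c l, Chn G ac e a vs c l ↔ T.Wk (st c) T.sink l := by
  intro vs
  induction vs with
  | nil =>
    refine ⟨Unit, inferInstance, ⟨(), (), fun _ _ _ => False⟩, fun _ => (), by simp,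
      fun _ _ _ h => h.elim, fun c l => ⟨fun h => ?_, fun h => ?_⟩⟩
    · cases h
      exact Net.Wk.nil _
    · cases h with
      | nil => exact Chn.nil _
      | cons h1 _ => exact h1.elim
  | cons q vs ih =>
    obtain ⟨u, p⟩ := q
    obtain ⟨N, hN, T, st, h1, h2, h3⟩ := ih
    refine ⟨((O → Γ) × Option (Q × O)) ⊕ N, inferInstance,
      net G ac e a u p (Exi G ac e a vs) st T, fun c => Sum.inl (c, none), ?_, ?_, ?_⟩
    · rw [Fintype.card_sum, Fintype.card_prod, Fintype.card_option, Fintype.card_prod,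
        Fintype.card_fun, List.length_cons, add_mul, one_mul]
      omega
    · intro u' t v' h
      cases h with
      | enter => exact Nat.zero_le _
      | skip => exact Nat.zero_le _
      | test _ _ _ _ _ h4 => exact hs _ _ _ h4
      | wr => exact Nat.zero_le _
      | mv => exact Nat.zero_le _
      | exit => exact Nat.zero_le _
      | old _ _ _ h4 => exact h2 _ _ _ h4
    · intro c l
      rw [chn_cons]
      refine Iff.trans ?_ (start_iff (G := G) (ac := ac) (e := e) (a := a) (u := u) (p := p)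
        (Ex := Exi G ac e a vs) (st := st) T c T.sink l).symm
      simp only [h3]

theorem wk_congr {G G' : Net X N} (h : ∀ u t v, G.test u t v → G'.test u t v) {x y : N}
    {l : List (X × Bool)} (hw : G.Wk x y l) : G'.Wk x y l := by
  induction hw with
  | nil u => exact Net.Wk.nil _
  | cons h1 _ ih => exact Net.Wk.cons (h _ _ _ h1) ih

end CHNx

open CHNx in
/-- CHN. -/
theorem t_CHN : S_CHN := by
  intro X Γ Q L D A O _ _ _ G ac e a s vs c hs
  obtain ⟨N, hN, T, st, h1, h2, h3⟩ := main G ac e a s hs vs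
  refine ⟨N, hN, ⟨st c, T.sink, T.test⟩, h1.trans ?_, h2, fun l => (h3 c l).trans
    ⟨fun h => wk_congr (G := T) (G' := ⟨st c, T.sink, T.test⟩) (fun _ _ _ h => h) h,
      fun h => wk_congr (G := ⟨st c, T.sink, T.test⟩) (G' := T) (fun _ _ _ h => h) h⟩⟩
  have h4 : 1 ≤ Fintype.card Γ ^ Fintype.card O := by
    rw [← Fintype.card_fun]
    exact Fintype.card_pos_iff.2 ⟨c⟩
  have h5 : 1 ≤ Fintype.card Γ ^ Fintype.card O * (Fintype.card Q * Fintype.card O + 1) :=
    Nat.mul_pos h4 (Nat.succ_pos _)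
  rw [add_mul]
  omega

end Pool.Agent.RMS
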