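import Pool.Agent.RMS.St1

/-!
# Project RMS: module CMP, completeness of the simulation room by room (helper11)
-/

set_option autoImplicit false

open Finset
open scoped Classical

namespace Pool.Agent.RMS

namespace CMPAux

variable {X Γ Q L D A O : Type}

theorem flat (ls : A → List (X × Bool)) (t : List (X × Bool)) (a : A) (rs : List A)
    (hn : rs.Nodup) (ha : a ∈ rs) :
    ((rs.map (Function.update ls a (t ++ ls a))).flatten).Perm (t ++ (rs.map ls).flatten) := by
  induction rs with
  | nil => simp at ha
  | cons b rs ih =>
    rw [List.nodup_cons] at hn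
    rw [List.map_cons, List.map_cons, List.flatten_cons, List.flatten_cons]
    by_cases hab : a = b
    · subst hab
      have h1 : rs.map (Function.update ls a (t ++ ls a)) = rs.map ls := by
        refine List.map_congr_left fun x hx => ?_
        rw [Function.update_of_ne]
        rintro rfl
        exact hn.1 hx
      rw [h1, Function.update_self, List.append_assoc]
    · have h2 : a ∈ rs := by
        rcases List.mem_cons.1 ha with h | h
        · exact absurd h hab
        · exact h
      rw [Function.update_of_ne (Ne.symm hab)]
      refine ((ih hn.2 h2).append_left _).trans ?_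
      rw [← List.append_assoc, ← List.append_assoc]
      exact List.perm_append_comm.append_right _

/-- the first visit is not in the room `a` -/
theorem chn_skip {G : TProg X Γ Q L D} {ac : D → L → L} {e : L ≃ A × O} {a : A} {u u' : Q}
    {p p' : L} {vs : List (Q × L)} {c : O → Γ} {l : List (X × Bool)} (hp : (e p).1 ≠ a)
    (hp' : (e p').1 ≠ a) (h : Chn G ac e a ((u', p') :: vs) c l) :
    Chn G ac e a ((u, p) :: vs) c l := by
  cases h with
  | skip _ h => exact Chn.skip hp h
  | last h1 _ => exact absurd h1 hp'
  | visit h1 _ _ _ _ => exact absurd h1 hp'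

/-- the first visit is in the room `a` and starts with something -/
theorem chn_step {G : TProg X Γ Q L D} {ac : D → L → L} {e : L ≃ A × O} {a : A} {u u' : Q}
    {p p' : L} {vs : List (Q × L)} {c c' : O → Γ} {l t : List (X × Bool)} (hp : (e p).1 = a)
    (hp' : (e p').1 = a) (hst : ∀ (v : Q) (h' : O) (c'' : O → Γ) (l' : List (X × Bool)),
      LR G ac e a u' (e p').2 c' v h' c'' l' → LR G ac e a u (e p).2 c v h' c'' (t ++ l'))
    (h : Chn G ac e a ((u', p') :: vs) c' l) :
    Chn G ac e a ((u, p) :: vs) c (t ++ l) := by
  cases h with
  | skip h1 _ => exact absurd hp' h1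
  | last _ h2 => exact Chn.last hp (hst _ _ _ _ h2)
  | visit _ h2 h3 h4 h5 =>
    rw [← List.append_assoc]
    exact Chn.visit hp (hst _ _ _ _ h2) h3 h4 h5

theorem main (G : TProg X Γ Q L D) (ac : D → L → L) (e : L ≃ A × O) (u v : Q) (p p' : L)
    (c c' : L → Γ) (l : List (X × Bool)) (ms : List (L × L))
    (h : TRun G ac u p c v p' c' l ms) (hv : v = G.sink) :
    ∃ (vs : List (Q × L)) (ls : A → List (X × Bool)),
      vs.length ≤ ms.countP (fun q => decide ((e q.2).1 ≠ (e q.1).1)) ∧
      (∀ q ∈ vs, q.2 ∈ ms.map Prod.snd) ∧
      (∀ a, Chn G ac e a ((u, p) :: vs) (fun o => c (e.symm (a, o))) (ls a)) ∧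
      ∀ rs : List A, rs.Nodup → (∀ q ∈ (u, p) :: vs, (e q.2).1 ∈ rs) →
        (rs.map ls).flatten.Perm l := by
  induction h with
  | nil u p c =>
    subst hv
    refine ⟨[], fun _ => [], by simp, by simp, fun a => ?_, fun rs _ _ => ?_⟩
    · by_cases ha : (e p).1 = a
      · exact Chn.last ha (LR.nil _ _ _)
      · exact Chn.skip ha (Chn.nil _)
    · rw [List.flatten_eq_nil_iff.2]
      intro x hx
      obtain ⟨_, _, rfl⟩ := List.mem_map.1 hx
      rfl
  | @test u u' v p p' c c' t l ms ht _ ih =>
    obtain ⟨vs, ls, h1, h2, h3, h4⟩ := ih hv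
    refine ⟨vs, Function.update ls (e p).1 (t ++ ls (e p).1), h1, h2, fun a => ?_,
      fun rs hn hrs => ?_⟩
    · by_cases ha : (e p).1 = a
      · subst ha
        rw [Function.update_self]
        exact chn_step rfl rfl (fun _ _ _ _ h => LR.test ht h) (h3 _)
      · rw [Function.update_of_ne (Ne.symm ha)]
        exact chn_skip ha ha (h3 a)
    · refine (flat ls t (e p).1 rs hn (hrs (u, p) List.mem_cons_self)).trans
        ((h4 rs hn fun q hq => ?_).append_left t)
      rcases List.mem_cons.1 hq with rfl | hq
      · exact hrs (u, p) List.mem_cons_self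
      · exact hrs q (List.mem_cons_of_mem _ hq)
  | @wr u u' v p p' c c' l ms b hw _ ih =>
    obtain ⟨vs, ls, h1, h2, h3, h4⟩ := ih hv
    refine ⟨vs, ls, h1, h2, fun a => ?_, fun rs hn hrs => h4 rs hn fun q hq => ?_⟩
    · by_cases ha : (e p).1 = a
      · subst ha
        have h5 := h3 (e p).1
        have h6 : (fun o => Function.update c p b (e.symm ((e p).1, o))) =
            Function.update (fun o => c (e.symm ((e p).1, o))) (e p).2 b := by
          funext o
          by_cases ho : o = (e p).2
          · subst ho
            rw [Function.update_self, Prod.mk.eta, Equiv.symm_apply_apply, Function.update_self]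
          · rw [Function.update_of_ne ho, Function.update_of_ne]
            intro h7
            apply ho
            rw [← h7, Equiv.apply_symm_apply]
        rw [h6] at h5
        refine chn_step (t := []) rfl rfl (fun _ _ _ _ h => ?_) h5
        rw [List.nil_append]
        refine LR.wr b ?_ h
        rw [Prod.mk.eta, Equiv.symm_apply_apply]
        exact hw
      · have h5 := h3 a
        have h6 : (fun o => Function.update c p b (e.symm (a, o))) =
            fun o => c (e.symm (a, o)) := by
          funext o
          rw [Function.update_of_ne]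
          intro h7
          apply ha
          rw [← h7, Equiv.apply_symm_apply]
        rw [h6] at h5
        exact chn_skip ha ha h5
    · rcases List.mem_cons.1 hq with rfl | hq
      · exact hrs (u, p) List.mem_cons_self
      · exact hrs q (List.mem_cons_of_mem _ hq)
  | @mv u u' v p p' c c' l ms δ hm _ ih =>
    obtain ⟨vs, ls, h1, h2, h3, h4⟩ := ih hv
    by_cases hr : (e (ac δ p)).1 = (e p).1
    · refine ⟨vs, ls, ?_, ?_, fun a => ?_, fun rs hn hrs => h4 rs hn fun q hq => ?_⟩
      · rw [List.countP_cons]
        omega
      · intro q hq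
        rw [List.map_cons]
        exact List.mem_cons_of_mem _ (h2 q hq)
      · by_cases ha : (e p).1 = a
        · subst ha
          refine chn_step (t := []) rfl hr (fun _ _ _ _ h => ?_) (h3 _)
          rw [List.nil_append]
          refine LR.mv δ hm ?_ h
          rw [Prod.mk.eta, Equiv.symm_apply_apply, ← hr, Prod.mk.eta, Equiv.symm_apply_apply]
        · exact chn_skip ha (by rw [hr]; exact ha) (h3 a)
      · rcases List.mem_cons.1 hq with rfl | hq
        · have h5 := hrs (u, p) List.mem_cons_self
          show (e (ac δ p)).1 ∈ rs
          rw [hr]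
          exact h5
        · exact hrs q (List.mem_cons_of_mem _ hq)
    · refine ⟨(u', ac δ p) :: vs, ls, ?_, ?_, fun a => ?_, fun rs hn hrs =>
        h4 rs hn fun q hq => hrs q (List.mem_cons_of_mem _ hq)⟩
      · rw [List.countP_cons_of_pos (by simpa using hr), List.length_cons]
        omega
      · intro q hq
        rw [List.map_cons]
        rcases List.mem_cons.1 hq with rfl | hq
        · exact List.mem_cons_self
        · exact List.mem_cons_of_mem _ (h2 q hq)
      · by_cases ha : (e p).1 = a
        · subst ha
          have h5 := Chn.visit (G := G) (ac := ac) (e := e) (a := (e p).1) (u := u) (p := p)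
            (c := fun o => c (e.symm ((e p).1, o))) rfl (LR.nil u (e p).2 _) hm
            (by rw [Prod.mk.eta, Equiv.symm_apply_apply]) (h3 (e p).1)
          rwa [List.nil_append] at h5
        · exact Chn.skip ha (h3 a)

end CMPAux

theorem t_CMP : S_CMP := by
  intro X Γ Q L D A O G ac e u p p' c c' l ms h
  exact CMPAux.main G ac e u G.sink p p' c c' l ms h rfl

end Pool.Agent.RMS
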