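import Pool.Agent.RMS.St4

/-!
# Project RMS: LV1
-/

set_option autoImplicit false

open Finset

namespace Pool.Agent.RMS

open Pool.Agent.TKB (Easy Level BasB LayB sizeB mbL FB)

namespace LV1

theorem num_mono {d T : ℕ} {z z' z1 : ℝ} (hz : z ≤ z') (h : NumN d T z' z1) : NumN d T z z1 :=
  fun v γ g y hy hyz hv hv1 hγ hγg hg hgz =>
    h v γ g y hy (hyz.trans hz) hv hv1 hγ hγg hg (hgz.trans hz)

theorem exps {Y W : ℕ} (hY : 4 ≤ Y) (hW : 1 ≤ W) : 60 + 4 * (Y + W) ≤ W * Y ^ 5 := by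
  have h1 : 256 * Y ≤ Y ^ 5 := by
    have h2 : 4 ^ 4 ≤ Y ^ 4 := Nat.pow_le_pow_left hY 4
    calc 256 * Y ≤ Y ^ 4 * Y := Nat.mul_le_mul_right _ (by omega)
      _ = Y ^ 5 := by ring
  have h3 : W * (256 * Y) ≤ W * Y ^ 5 := Nat.mul_le_mul_left _ h1
  have h4 : Y ≤ W * Y := Nat.le_mul_of_pos_left _ (by omega)
  have h5 : W ≤ W * Y := Nat.le_mul_of_pos_right _ (by omega)
  have h6 : W * (256 * Y) = 256 * (W * Y) := by ring
  omega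

end LV1

open LV1

/-- LV1. -/
theorem t_LV1 (hASN : S_ASN) (hNN1 : S_NN1) (hLWC : TKB.S_LWC) (hSIZ : TKB.S_SIZB) : S_LV1 := by
  obtain ⟨B1, hB⟩ := TKB.lowL hLWC
  refine ⟨B1 + 5, fun m k M hm hk hM β ly s hs => ?_⟩
  have hB' := hB m k M hm hk
  obtain ⟨Y, hY⟩ : ∃ Y, Y = (k + 1) * (m + 1) := ⟨_, rfl⟩
  rw [← hY] at hM hs hB' ⊢
  have hY4 : 4 ≤ Y := by
    rw [hY]
    nlinarith
  have hkY : k ≤ Y := by
    rw [hY]
    nlinarith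
  obtain ⟨W, hW⟩ : ∃ W, W = Y ^ B1 := ⟨_, rfl⟩
  have hW1 : 1 ≤ W := by
    rw [hW]
    exact Nat.one_le_pow _ _ (by omega)
  have hpow : Y ^ (B1 + 5) = W * Y ^ 5 := by rw [hW, pow_add]
  have hexp := exps hY4 hW1
  rw [← hpow] at hexp
  rw [← hW] at hB'
  obtain ⟨E, hE⟩ : ∃ E, E = Y ^ (B1 + 5) := ⟨_, rfl⟩
  rw [← hE] at hexp hM hs ⊢
  have hWE : W ≤ E := by omega
  -- the numbers
  have hk2 : k ≤ 2 ^ Y := hkY.trans (Nat.lt_two_pow_self).le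
  have hX1 : 1 ≤ 2 ^ W := Nat.one_le_two_pow
  have n1 : 2 ^ 60 * (k * 2 ^ W) ^ 4 ≤ 2 ^ E := by
    calc 2 ^ 60 * (k * 2 ^ W) ^ 4 ≤ 2 ^ 60 * (2 ^ Y * 2 ^ W) ^ 4 :=
          Nat.mul_le_mul_left _ (Nat.pow_le_pow_left (Nat.mul_le_mul_right _ hk2) 4)
      _ = 2 ^ (60 + 4 * (Y + W)) := by
          rw [← pow_add, ← pow_mul, ← pow_add]
          congr 1
          ring
      _ ≤ 2 ^ E := Nat.pow_le_pow_right (by norm_num) hexp
  have n2 : 2 ^ 10 * k * (2 ^ W) ^ 2 ≤ 2 ^ E := by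
    refine le_trans ?_ n1
    have a1 : k ≤ k ^ 4 := Nat.le_self_pow (by norm_num) k
    have a2 : (2 ^ W) ^ 2 ≤ (2 ^ W) ^ 4 := Nat.pow_le_pow_right hX1 (by norm_num)
    calc 2 ^ 10 * k * (2 ^ W) ^ 2 ≤ 2 ^ 60 * k ^ 4 * (2 ^ W) ^ 4 :=
          Nat.mul_le_mul (Nat.mul_le_mul (by norm_num) a1) a2
      _ = 2 ^ 60 * (k * 2 ^ W) ^ 4 := by ring
  have hM56 : 2 ^ 56 ≤ M := (Nat.pow_le_pow_right (by norm_num) (by omega)).trans hM
  have hsz : M ≤ sizeB M := by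
    have := (hSIZ (mbL m) M (TKB.okL hm) hM56).1.1
    omega
  have hnum := hNN1 k (2 ^ W) (sizeB M) hk hX1 (n1.trans (hM.trans hsz))
  have hN0 : (0 : ℝ) ≤ sizeB M := Nat.cast_nonneg _
  have c1 : (1 : ℝ) / 2 ^ E * sizeB M ≤ (sizeB M : ℝ) / (2 ^ 10 * k * ((2 ^ W : ℕ) : ℝ) ^ 2) := by
    rw [one_div, inv_mul_eq_div]
    have hk0 : (0 : ℝ) < k := by exact_mod_cast hk
    apply div_le_div_of_nonneg_left hN0 (by positivity)
    exact_mod_cast n2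
  have c2 : (1 : ℝ) / 2 ^ E * sizeB M ≤ 1 / 2 ^ W * sizeB M := by
    apply mul_le_mul_of_nonneg_right _ hN0
    apply one_div_le_one_div_of_le (by positivity)
    exact pow_le_pow_right₀ (by norm_num) hWE
  have c3 : (sizeB M : ℝ) / ((2 ^ W : ℕ) : ℝ) = 1 / 2 ^ W * sizeB M := by
    push_cast
    rw [one_div, inv_mul_eq_div]
  rw [c3] at hnum
  have hlev := hB' ((Nat.pow_le_pow_right (by norm_num) hWE).trans hM) β ly s (hs.trans c2)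
  intro q A De hq hA hf
  refine hlev q A De hq (fun i => ?_) hf
  rcases hA i with hi | hi
  · exact TKB.easy_mono le_rfl le_rfl c2 hi
  · exact hASN 1 (sizeB M) s (k * sizeB M) _ _ (A i) (num_mono c1 hnum) hi

end Pool.Agent.RMS
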