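import Pool.Agent.RMS.St4
import Pool.Agent.RMS.Pw

/-!
# Project RMS: LV2
-/

set_option autoImplicit false

open Finset

namespace Pool.Agent.RMS

open Pool.Agent.TKB (Easy Level BasB LayB sizeB mbL FB)

namespace LV2

theorem num_mono {d T : ℕ} {z z' z1 : ℝ} (hz : z ≤ z') (h : NumN d T z' z1) : NumN d T z z1 :=
  fun v γ g y hy hyz hv hv1 hγ hγg hg hgz =>
    h v γ g y hy (hyz.trans hz) hv hv1 hγ hγg hg (hgz.trans hz)

end LV2

open LV2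

/-- LV2. -/
theorem t_LV2 (hASN : S_ASN) (hNN2 : S_NN2) (hLWC : TKB.S_LWC) (hSIZ : TKB.S_SIZB) : S_LV2 := by
  obtain ⟨a, ha, hlow⟩ := TKB.lowLS hLWC
  refine ⟨a, ha, fun d ε hd hε => ?_⟩
  obtain ⟨ε1, hε1⟩ : ∃ ε1, ε1 = min ε (1 / 2) := ⟨_, rfl⟩
  have h1a : ε1 ≤ ε := by rw [hε1]; exact min_le_left _ _
  have h1b : ε1 < 1 := by
    rw [hε1]
    exact lt_of_le_of_lt (min_le_right _ _) (by norm_num)
  have h1c : 0 < ε1 := by
    rw [hε1]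
    exact lt_min hε (by norm_num)
  have hd1 : (1 : ℝ) ≤ d := by exact_mod_cast hd
  have hd4 : (0 : ℝ) < 4 * d := by linarith
  obtain ⟨ε2, hε2⟩ : ∃ ε2, ε2 = ε1 / (4 * d) := ⟨_, rfl⟩
  have h2a : 0 < ε2 := by
    rw [hε2]
    positivity
  have h2b : ε2 ≤ ε := by
    refine le_trans ?_ h1a
    rw [hε2]
    exact div_le_self h1c.le (by linarith)
  obtain ⟨M1, hM1⟩ := hlow ε2 h2a
  obtain ⟨N1, hN1⟩ := hNN2 d ε1 hd h1c h1b
  obtain ⟨N2, hN2⟩ := pw 1 1 (1 + ε2) ⌈a⌉₊ (by linarith)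
  refine ⟨M1 + N1 + N2 + 2 ^ 56, fun M hM m hm hml β ly s T hs hT => ?_⟩
  have hM56 : 2 ^ 56 ≤ M := by omega
  obtain ⟨⟨hz1, hz2⟩, -⟩ := hSIZ (mbL m) M (TKB.okL hm) hM56
  have hMN : M ≤ sizeB M := by omega
  have hlev := hM1 M (by omega) hz2 hMN m hm hml β ly s T
  have hN3 : (3 : ℝ) ≤ sizeB M := by
    have : 3 ≤ sizeB M := by omega
    exact_mod_cast this
  have hN1' : (1 : ℝ) ≤ sizeB M := by linarith
  have hlog : 1 ≤ Real.log (sizeB M : ℝ) := by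
    rw [Real.le_log_iff_exp_le (by linarith)]
    linarith [Real.exp_one_lt_d9]
  -- the time
  have hT2 : (T : ℝ) ≤ (sizeB M : ℝ) ^ (1 + ε1 / (4 * d)) := by
    rw [← hε2]
    refine le_trans (hT.trans ?_) (hN2 (sizeB M) (by omega))
    rw [one_mul, Real.rpow_one]
    apply mul_le_mul_of_nonneg_left _ (by linarith)
    rw [← Real.rpow_natCast]
    exact Real.rpow_le_rpow_of_exponent_le hlog (Nat.le_ceil a)
  obtain ⟨-, hnum⟩ := hN1 (sizeB M) (by omega) T hT2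
  rw [← hε2] at hnum
  have e1 : (sizeB M : ℝ) ^ (1 - ε) ≤ (sizeB M : ℝ) ^ (1 - ε1) :=
    Real.rpow_le_rpow_of_exponent_le hN1' (by linarith)
  have e2 : (sizeB M : ℝ) ^ (1 - ε) ≤ (sizeB M : ℝ) ^ (1 - ε2) :=
    Real.rpow_le_rpow_of_exponent_le hN1' (by linarith)
  intro q A De hq hA hf
  refine hlev (hs.trans e2) hT q A De hq (fun i => ?_) hf
  rcases hA i with hi | hi
  · exact TKB.easy_mono le_rfl le_rfl e2 hi
  · exact hASN d (sizeB M) s T _ _ (A i) (num_mono e1 hnum) hi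

end Pool.Agent.RMS
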