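import Pool.Agent.RMS.St1

/-!
# Project RMS, module MVS: the moves of a run (helper29)
-/

set_option autoImplicit false

open Finset
open scoped Classical

namespace Pool.Agent.RMS

namespace MVS

variable {X Γ Q : Type} {d : ℕ} {G : TProg X Γ Q (Cell d) (Dir d)}

theorem moves {u v : Q} {p p' : Cell d} {c c' : Cell d → Γ} {l : List (X × Bool)}
    {ms : List (Cell d × Cell d)} (h : TRun G act u p c v p' c' l ms) :
    ∀ q ∈ ms, ∃ δ, q.2 = act δ q.1 := by
  induction h with
  | nil u p c => intro q hq; simp at hq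
  | test _ _ ih => exact ih
  | wr _ _ _ ih => exact ih
  | mv δ _ _ ih =>
    intro q hq
    rcases List.mem_cons.mp hq with h1 | h1
    · exact ⟨δ, by rw [h1]⟩
    · exact ih q h1

theorem inbox (hS : S_SHF) {u v : Q} {p p' : Cell d} {c c' : Cell d → Γ} {l : List (X × Bool)}
    {ms : List (Cell d × Cell d)} (h : TRun G act u p c v p' c' l ms) :
    ∀ r : ℕ, p ∈ box d r → ∀ q ∈ ms, q.2 ∈ box d (r + ms.length) := by
  induction h with
  | nil u p c => intro r _ q hq; simp at hq
  | test _ _ ih => exact ih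
  | wr _ _ _ ih => exact ih
  | @mv u u' v p p' c c' l ms δ _ _ ih =>
    intro r hp q hq
    have h2 : act δ p ∈ box d (r + 1) := (hS d).2.1 δ p r hp
    rcases List.mem_cons.mp hq with h1 | h1
    · rw [h1]
      refine (hS d).2.2.1.2 (r + 1) _ ?_ h2
      rw [List.length_cons]
      omega
    · refine (hS d).2.2.1.2 (r + 1 + ms.length) _ ?_ (ih (r + 1) h2 q h1)
      rw [List.length_cons]
      omega

theorem sum_le (hS : S_SHF) (Z : ℕ) (hZ : 0 < Z) (ms : List (Cell d × Cell d))
    (h : ∀ q ∈ ms, ∃ δ : Dir d, q.2 = act δ q.1) :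
    ∑ o ∈ range Z, ms.countP (fun q => decide
      ((rmap d Z hZ o q.2).1 ≠ (rmap d Z hZ o q.1).1)) ≤ ms.length := by
  induction ms with
  | nil => simp
  | cons q ms ih =>
    simp only [List.countP_cons, List.length_cons]
    rw [Finset.sum_add_distrib]
    refine add_le_add (ih fun q' hq' => h q' (List.mem_cons_of_mem _ hq')) ?_
    obtain ⟨δ, hδ⟩ := h q List.mem_cons_self
    have h1 := (hS d).1 Z hZ δ q.1
    rw [← hδ, Finset.card_filter] at h1
    refine le_trans (le_of_eq ?_) h1
    refine Finset.sum_congr rfl fun o _ => ?_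
    simp only [decide_eq_true_eq]

end MVS

theorem t_MVS (h : S_SHF) : S_MVS := by
  intro X Γ Q d G u v p p' c c' l ms r hrun hp
  refine ⟨MVS.moves hrun, MVS.inbox h hrun r hp, fun Z hZ => ?_⟩
  by_contra hcon
  push Not at hcon
  have h1 := MVS.sum_le h Z hZ ms (MVS.moves hrun)
  have h2 : ∑ _o ∈ range Z, (ms.length + 1) ≤
      ∑ o ∈ range Z, Z * ms.countP (fun q => decide
        ((rmap d Z hZ o q.2).1 ≠ (rmap d Z hZ o q.1).1)) :=
    Finset.sum_le_sum fun o ho => hcon o (Finset.mem_range.mp ho)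
  rw [← Finset.mul_sum, Finset.sum_const, Finset.card_range, smul_eq_mul] at h2
  have h3 := Nat.le_of_mul_le_mul_left h2 hZ
  omega

end Pool.Agent.RMS
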