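import Pool.Agent.RMS.St4

/-!
# Project RMS: the numbers for length `k N` and dimension `1` (NN1)
-/

set_option autoImplicit false

open Finset
open scoped Classical

namespace Pool.Agent.RMS

namespace NN1

theorem sq_le (l : ℕ) (h : 60 ≤ l) : (l + 2) ^ 2 ≤ 2 ^ l := by
  induction l, h using Nat.le_induction with
  | base => norm_num
  | succ l hl ih =>
    rw [pow_succ 2 l]
    nlinarith

theorem key (K N L : ℕ) (hN : 2 ^ 60 * K ^ 4 ≤ N) (hL : (L + 1) ^ 2 ≤ N) :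
    256 * K ^ 2 * (L + 1) ≤ N := by
  have h1 : (256 * K ^ 2 * (L + 1)) ^ 2 ≤ N ^ 2 := by
    calc (256 * K ^ 2 * (L + 1)) ^ 2 = (2 ^ 16 * K ^ 4) * (L + 1) ^ 2 := by ring
      _ ≤ (2 ^ 60 * K ^ 4) * (L + 1) ^ 2 := by
          apply Nat.mul_le_mul_right
          apply Nat.mul_le_mul_right
          norm_num
      _ ≤ N * N := Nat.mul_le_mul hN hL
      _ = N ^ 2 := by ring
  exact (Nat.pow_le_pow_iff_left (by norm_num)).1 h1

theorem cnt (Z v T m γ : ℕ) (hZ : 1 ≤ Z) (hv : 1 ≤ v) (hγ : 1 ≤ γ) :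
    2 + Z * (v * (2 * T + 1) ^ 1 + 1) ^ m *
      ((m + 1) * ((m + 3) * (γ ^ (Z ^ 1) * (v * Z ^ 1 + 1))) + 1) ≤
    4 * (Z * (v * (2 * T + 2)) ^ m * ((m + 1) * ((m + 3) * (γ ^ Z * (v * (Z + 1)))))) := by
  have h1 : (v * (2 * T + 1) ^ 1 + 1) ^ m ≤ (v * (2 * T + 2)) ^ m := by
    apply Nat.pow_le_pow_left
    nlinarith
  have h2 : v * Z ^ 1 + 1 ≤ v * (Z + 1) := by nlinarith
  have h3 : 1 ≤ γ ^ Z := Nat.one_le_pow _ _ hγ
  have h4 : 1 ≤ (v * (2 * T + 2)) ^ m := Nat.one_le_pow _ _ (by positivity)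
  have h5 : (m + 1) * ((m + 3) * (γ ^ (Z ^ 1) * (v * Z ^ 1 + 1))) ≤
      (m + 1) * ((m + 3) * (γ ^ Z * (v * (Z + 1)))) := by
    rw [pow_one]
    apply Nat.mul_le_mul_left
    apply Nat.mul_le_mul_left
    apply Nat.mul_le_mul_left
    simpa using h2
  have h6 : 1 ≤ (m + 1) * ((m + 3) * (γ ^ Z * (v * (Z + 1)))) := by
    have hg0 : 0 < γ := hγ
    exact Nat.one_le_iff_ne_zero.2 (by positivity)
  generalize (m + 1) * ((m + 3) * (γ ^ Z * (v * (Z + 1)))) = C at *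
  generalize (v * (2 * T + 2)) ^ m = P at *
  have h7 : Z * (v * (2 * T + 1) ^ 1 + 1) ^ m *
      ((m + 1) * ((m + 3) * (γ ^ (Z ^ 1) * (v * Z ^ 1 + 1))) + 1) ≤ Z * P * (C + 1) :=
    Nat.mul_le_mul (Nat.mul_le_mul_left _ h1) (by omega)
  have h8 : 1 ≤ Z * P * C := Nat.one_le_iff_ne_zero.2 (by positivity)
  have h9 : Z * P * (C + 1) ≤ 2 * (Z * P * C) := by nlinarith [Nat.zero_le (Z * P)]
  nlinarith

theorem xle (k X : ℕ) (hk : 1 ≤ k) (hX : 1 ≤ X) : X ≤ k * X ^ 2 := by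
  calc X = 1 * (1 * X) := by ring
    _ ≤ k * (X * X) := Nat.mul_le_mul hk (Nat.mul_le_mul hX le_rfl)
    _ = k * X ^ 2 := by ring

end NN1

open NN1 in
theorem t_NN1 : S_NN1 := by
  intro k X N hk hX hN v γ g y hy hyz hv hv1 hγ1 hγ hg hgz
  have hK : 1 ≤ k * X := Nat.mul_pos hk hX
  have hN60 : 2 ^ 60 ≤ N :=
    le_trans (Nat.le_mul_of_pos_right _ (Nat.one_le_pow _ _ hK)) hN
  have hN0 : N ≠ 0 := by
    have : 0 < 2 ^ 60 := by norm_num
    omega
  obtain ⟨L, hL⟩ : ∃ L, L = Nat.log 2 N + 1 := ⟨_, rfl⟩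
  have hL1 : N < 2 ^ L := by rw [hL]; exact Nat.lt_pow_succ_log_self (by norm_num) N
  have hL2 : 2 ^ (Nat.log 2 N) ≤ N := Nat.pow_log_le_self 2 hN0
  have hl60 : 60 ≤ Nat.log 2 N := Nat.le_log_of_pow_le (by norm_num) hN60
  have hLsq : (L + 1) ^ 2 ≤ N := by
    rw [hL]
    exact (sq_le _ hl60).trans hL2
  have hkey := key (k * X) N L hN hLsq
  -- reals
  have kR : (1 : ℝ) ≤ k := by exact_mod_cast hk
  have XR : (1 : ℝ) ≤ X := by exact_mod_cast hX
  have NR : (0 : ℝ) < N := by exact_mod_cast Nat.pos_of_ne_zero hN0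
  have gR : (1 : ℝ) ≤ g := by exact_mod_cast hg
  have k0 : (0 : ℝ) < k := by linarith
  have X0 : (0 : ℝ) < X := by linarith
  have g0 : (0 : ℝ) < g := by linarith
  have hkeyR : 256 * ((k : ℝ) * X) ^ 2 * (L + 1) ≤ N := by exact_mod_cast hkey
  have hgz' : (g : ℝ) * (2 ^ 10 * k * X ^ 2) ≤ N := by
    rwa [le_div_iff₀ (by positivity)] at hgz
  have hgzN : g * (2 ^ 10 * k * X ^ 2) ≤ N := by exact_mod_cast hgz'
  have hyz1 : y * (2 ^ 10 * k * X ^ 2) ≤ N := by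
    rw [pow_one] at hyz
    rwa [le_div_iff₀ (by positivity)] at hyz
  obtain ⟨Z, hZ⟩ : ∃ Z, Z = N / (8 * g * X) := ⟨_, rfl⟩
  have hd : 0 < 8 * g * X := by positivity
  have hZ1 : Z * (8 * g * X) ≤ N := by rw [hZ]; exact Nat.div_mul_le_self _ _
  have hZ2 : N < (Z + 1) * (8 * g * X) := by
    rw [hZ, Nat.succ_mul]
    exact Nat.lt_div_mul_add (a := N) hd
  have hZ0 : 1 ≤ Z := by
    rw [hZ]
    refine (Nat.one_le_div_iff hd).2 (le_trans ?_ hgzN)
    have h1 : g * X ≤ g * (k * X ^ 2) := Nat.mul_le_mul_left _ (xle k X hk hX)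
    calc 8 * g * X = 8 * (g * X) := by ring
      _ ≤ 2 ^ 10 * (g * (k * X ^ 2)) := Nat.mul_le_mul (by norm_num) h1
      _ = g * (2 ^ 10 * k * X ^ 2) := by ring
  have hZ1R : (Z : ℝ) * (8 * g * X) ≤ N := by exact_mod_cast hZ1
  have hZ2R : (N : ℝ) < (Z + 1) * (8 * g * X) := by exact_mod_cast hZ2
  have hZN : Z + 1 ≤ N := by
    have h1 : Z * 8 ≤ N := le_trans (Nat.mul_le_mul_left _ (by
      have : 1 ≤ g * X := Nat.mul_pos hg hX
      calc 8 = 8 * 1 := rfl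
        _ ≤ 8 * (g * X) := Nat.mul_le_mul_left _ this
        _ = 8 * g * X := by ring)) hZ1
    omega
  have hkX2 : (X : ℝ) ≤ k * X ^ 2 := by exact_mod_cast xle k X hk hX
  have hgX : (g : ℝ) * (16 * X) * 64 ≤ N := by
    refine le_trans ?_ hgz'
    have h1 : (g : ℝ) * X ≤ g * (k * X ^ 2) := mul_le_mul_of_nonneg_left hkX2 g0.le
    calc (g : ℝ) * (16 * X) * 64 = 1024 * (g * X) := by ring
      _ ≤ 1024 * (g * (k * X ^ 2)) := mul_le_mul_of_nonneg_left h1 (by norm_num)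
      _ = g * (2 ^ 10 * k * X ^ 2) := by ring
  refine ⟨Z, 16 * (k * X), hZ0, ?_, ?_⟩
  · have h1 : (N : ℝ) < (g * Z) * (16 * X) := by
      have e1 : ((Z : ℝ) + 1) * (8 * g * X) = g * Z * (8 * X) + g * (8 * X) := by ring
      have e2 : (g : ℝ) * (16 * X) * 64 = 128 * (g * (8 * X)) := by ring
      have e3 : (g : ℝ) * Z * (16 * X) = 2 * (g * Z * (8 * X)) := by ring
      rw [e1] at hZ2R
      rw [e2] at hgX
      rw [e3]
      linarith
    have h1N : N < (g * Z) * (16 * X) := by exact_mod_cast h1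
    calc k * N < k * ((g * Z) * (16 * X)) := Nat.mul_lt_mul_of_pos_left h1N (by omega)
      _ = 16 * (k * X) * (g * Z) := by ring
      _ ≤ (16 * (k * X) + 1) * (g * Z) := Nat.mul_le_mul_right _ (by omega)
  · have hc := cnt Z v (k * N) (16 * (k * X)) γ hZ0 hv1 hγ1
    refine lt_of_le_of_lt (Nat.cast_le.2 hc) ?_
    have hKN : 16 * (k * X) + 3 ≤ N := by
      have h1 : k * X ≤ (k * X) ^ 4 := Nat.le_self_pow (by norm_num) _
      omega
    have hkN : k ≤ N := by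
      have h1 : k ≤ k * X := Nat.le_mul_of_pos_right _ hX
      omega
    -- each factor
    have two : (1 : ℝ) < 2 := by norm_num
    have hN2 : (N : ℝ) ≤ (2 : ℝ) ^ (L : ℝ) := by
      rw [Real.rpow_natCast]; exact_mod_cast hL1.le
    have f0 : ((4 : ℕ) : ℝ) ≤ (2 : ℝ) ^ (2 : ℝ) := by norm_num
    have f1 : (Z : ℝ) ≤ (2 : ℝ) ^ (L : ℝ) := le_trans (by exact_mod_cast (by omega : Z ≤ N)) hN2
    have f2 : ((v * (2 * (k * N) + 2) : ℕ) : ℝ) ≤ (2 : ℝ) ^ (y + (2 * L + 2)) := by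
      have h1 : 2 * (k * N) + 2 ≤ 4 * (N * N) := by
        have h3 := Nat.mul_le_mul hkN (Nat.le_refl N)
        have h4 : 1 ≤ N * N := Nat.mul_pos (Nat.pos_of_ne_zero hN0) (Nat.pos_of_ne_zero hN0)
        omega
      have h2 : ((2 * (k * N) + 2 : ℕ) : ℝ) ≤ (2 : ℝ) ^ ((2 * L + 2 : ℝ)) := by
        calc ((2 * (k * N) + 2 : ℕ) : ℝ) ≤ ((4 * (N * N) : ℕ) : ℝ) := Nat.cast_le.2 h1
          _ = 4 * (N * N) := by push_cast; ring
          _ ≤ (2 : ℝ) ^ (2 : ℝ) * ((2 : ℝ) ^ (L : ℝ) * (2 : ℝ) ^ (L : ℝ)) := by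
              apply mul_le_mul (by norm_num) _ (by positivity) (by positivity)
              exact mul_le_mul hN2 hN2 NR.le (by positivity)
          _ = (2 : ℝ) ^ ((2 * L + 2 : ℝ)) := by
              rw [← Real.rpow_add (by norm_num), ← Real.rpow_add (by norm_num)]
              congr 1; ring
      rw [Real.rpow_add (by norm_num), Nat.cast_mul]
      exact mul_le_mul hv.le h2 (by positivity) (by positivity)
    have f3 : (((v * (2 * (k * N) + 2)) ^ (16 * (k * X)) : ℕ) : ℝ) ≤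
        (2 : ℝ) ^ ((y + (2 * L + 2)) * (16 * (k * X))) := by
      rw [Nat.cast_pow]
      refine (pow_le_pow_left₀ (by positivity) f2 _).trans (le_of_eq ?_)
      rw [← Real.rpow_natCast, ← Real.rpow_mul (by norm_num)]
      push_cast
      ring_nf
    have f4 : ((16 * (k * X) + 1 : ℕ) : ℝ) ≤ (2 : ℝ) ^ (L : ℝ) :=
      le_trans (by exact_mod_cast (by omega : 16 * (k * X) + 1 ≤ N)) hN2
    have f5 : ((16 * (k * X) + 3 : ℕ) : ℝ) ≤ (2 : ℝ) ^ (L : ℝ) :=
      le_trans (by exact_mod_cast hKN) hN2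
    have f6 : ((γ ^ Z : ℕ) : ℝ) ≤ (2 : ℝ) ^ ((g : ℝ) * Z) := by
      have h1 : γ ^ Z ≤ 2 ^ (g * Z) := by
        rw [pow_mul]; exact Nat.pow_le_pow_left hγ Z
      rw [← Nat.cast_mul, Real.rpow_natCast]
      exact_mod_cast h1
    have f7 : ((v * (Z + 1) : ℕ) : ℝ) ≤ (2 : ℝ) ^ (y + L) := by
      rw [Real.rpow_add (by norm_num), Nat.cast_mul]
      exact mul_le_mul hv.le (le_trans (by exact_mod_cast hZN) hN2) (by positivity) (by positivity)
    have tot : ((4 * (Z * (v * (2 * (k * N) + 2)) ^ (16 * (k * X)) * ((16 * (k * X) + 1) *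
        ((16 * (k * X) + 3) * (γ ^ Z * (v * (Z + 1)))))) : ℕ) : ℝ) ≤
        (2 : ℝ) ^ (2 + ((L + (y + (2 * L + 2)) * (16 * (k * X))) + (L + (L + (g * Z + (y + L)))))) := by
      rw [Nat.cast_mul, Nat.cast_mul, Nat.cast_mul Z, Nat.cast_mul (16 * (k * X) + 1),
        Nat.cast_mul (16 * (k * X) + 3), Nat.cast_mul (γ ^ Z)]
      rw [Real.rpow_add (by norm_num) 2, Real.rpow_add (by norm_num) (L + _),
        Real.rpow_add (by norm_num) (L : ℝ) ((y + (2 * L + 2)) * (16 * (k * X))),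
        Real.rpow_add (by norm_num) (L : ℝ) (L + (g * Z + (y + L))),
        Real.rpow_add (by norm_num) (L : ℝ) (g * Z + (y + L)),
        Real.rpow_add (by norm_num) ((g : ℝ) * Z) (y + L)]
      have p (x : ℝ) : (0 : ℝ) ≤ (2 : ℝ) ^ x := by positivity
      have q (n : ℕ) : (0 : ℝ) ≤ (n : ℝ) := Nat.cast_nonneg n
      refine mul_le_mul f0 ?_ (by positivity) (p _)
      refine mul_le_mul (mul_le_mul f1 f3 (q _) (p _)) ?_ (by positivity) (mul_nonneg (p _) (p _))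
      refine mul_le_mul f4 ?_ (by positivity) (p _)
      refine mul_le_mul f5 ?_ (by positivity) (p _)
      exact mul_le_mul f6 f7 (q _) (p _)
    refine lt_of_le_of_lt tot (Real.rpow_lt_rpow_of_exponent_lt two ?_)
    -- exponents
    have L1 : (1 : ℝ) ≤ L := by
      have : 1 ≤ L := by omega
      exact_mod_cast this
    have e1 : y * (16 * (k * X)) ≤ N / X / 64 := by
      rw [div_div, le_div_iff₀ (by positivity)]
      calc y * (16 * (k * X)) * (X * 64) = y * (2 ^ 10 * k * X ^ 2) := by ring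
        _ ≤ N := hyz1
    have e2 : (2 * (L : ℝ) + 2) * (16 * (k * X)) ≤ N / X / 8 := by
      rw [div_div, le_div_iff₀ (by positivity)]
      have h1 : (k : ℝ) * X ^ 2 ≤ (k * X) ^ 2 := by
        rw [mul_pow]
        exact mul_le_mul_of_nonneg_right (le_self_pow₀ kR (by norm_num)) (by positivity)
      have h2 : 256 * ((k : ℝ) * X ^ 2) * (L + 1) ≤ 256 * (k * X) ^ 2 * (L + 1) := by
        apply mul_le_mul_of_nonneg_right _ (by positivity)
        linarith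
      calc (2 * (L : ℝ) + 2) * (16 * (k * X)) * (X * 8) = 256 * ((k : ℝ) * X ^ 2) * (L + 1) := by ring
        _ ≤ 256 * (k * X) ^ 2 * (L + 1) := h2
        _ ≤ N := hkeyR
    have e3 : (g : ℝ) * Z ≤ N / X / 8 := by
      rw [div_div, le_div_iff₀ (by positivity)]
      calc (g : ℝ) * Z * (X * 8) = Z * (8 * g * X) := by ring
        _ ≤ N := hZ1R
    have e4 : y ≤ N / X / 64 := by
      rw [div_div, le_div_iff₀ (by positivity)]
      refine le_trans ?_ hyz1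
      apply mul_le_mul_of_nonneg_left _ hy
      calc (X : ℝ) * 64 ≤ 1024 * X := by linarith
        _ ≤ 1024 * (k * X ^ 2) := mul_le_mul_of_nonneg_left hkX2 (by norm_num)
        _ = 2 ^ 10 * k * X ^ 2 := by ring
    have e5 : 2 + 4 * (L : ℝ) ≤ N / X / 8 := by
      rw [div_div, le_div_iff₀ (by positivity)]
      refine le_trans ?_ hkeyR
      have h1 : (X : ℝ) ≤ (k * X) ^ 2 := by
        refine hkX2.trans ?_
        rw [mul_pow]
        exact mul_le_mul_of_nonneg_right (le_self_pow₀ kR (by norm_num)) (by positivity)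
      have h2 : (X : ℝ) * (L + 1) ≤ (k * X) ^ 2 * (L + 1) :=
        mul_le_mul_of_nonneg_right h1 (by positivity)
      calc (2 + 4 * (L : ℝ)) * (X * 8) ≤ (4 + 4 * L) * (X * 8) :=
            mul_le_mul_of_nonneg_right (by linarith) (by positivity)
        _ = 32 * (X * (L + 1)) := by ring
        _ ≤ 256 * ((k * X) ^ 2 * (L + 1)) :=
            mul_le_mul (by norm_num) h2 (by positivity) (by norm_num)
        _ = 256 * ((k : ℝ) * X) ^ 2 * (L + 1) := by ring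
    have e6 : 0 < (N : ℝ) / X := by positivity
    have e7 : (y + (2 * (L : ℝ) + 2)) * (16 * (k * X)) = y * (16 * (k * X)) +
        (2 * (L : ℝ) + 2) * (16 * (k * X)) := by ring
    rw [e7]
    linarith

end Pool.Agent.RMS
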