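import Pool.Agent.RMS.St4
import Pool.Agent.RMS.Pw

/-!
# Project RMS: the numbers for superlinear length
-/

set_option autoImplicit false

open Finset

namespace Pool.Agent.RMS

theorem nn2_two_pow (a b : ℝ) : (2 : ℝ) ^ a * 2 ^ b = 2 ^ (a + b) :=
  (Real.rpow_add (by norm_num) a b).symm

theorem nn2_one_le (l : ℝ) (hl : 0 ≤ l) : (1 : ℝ) ≤ 2 ^ l :=
  Real.one_le_rpow (by norm_num) hl

/-- the size of the program -/
theorem nn2_cnt (Z v T d m γ g : ℕ) (l y X : ℝ) (hl : 0 ≤ l) (hy : 0 ≤ y)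
    (hZ1 : 1 ≤ Z) (hZ : (Z : ℝ) ≤ 2 ^ l) (hZd : (Z : ℝ) ^ d ≤ 2 ^ l) (hv1 : 1 ≤ v)
    (hv : (v : ℝ) < 2 ^ y) (hT : ((2 * T + 1 : ℕ) : ℝ) ≤ 2 ^ (3 * l))
    (hm : ((m + 3 : ℕ) : ℝ) ≤ 2 ^ (4 * l)) (hγ1 : 1 ≤ γ) (hγ : γ ≤ 2 ^ g)
    (hg : (g : ℝ) * (Z : ℝ) ^ d ≤ X / 8)
    (hX : 3 + 10 * l + (1 + y + 3 * l * d) * m + X / 8 + y < X) :
    (((2 + Z * (v * (2 * T + 1) ^ d + 1) ^ m *
      ((m + 1) * ((m + 3) * (γ ^ (Z ^ d) * (v * Z ^ d + 1))) + 1) : ℕ) : ℝ) < (2 : ℝ) ^ X) := by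
  have h1 : 2 + Z * (v * (2 * T + 1) ^ d + 1) ^ m *
      ((m + 1) * ((m + 3) * (γ ^ (Z ^ d) * (v * Z ^ d + 1))) + 1) ≤
      8 * (Z * ((v * (2 * T + 1) ^ d + 1) ^ m * (((m + 3) * (m + 3)) *
        (γ ^ (Z ^ d) * (v * Z ^ d))))) := by
    obtain ⟨P, hP⟩ : ∃ P, P = Z * (v * (2 * T + 1) ^ d + 1) ^ m := ⟨_, rfl⟩
    obtain ⟨R, hR⟩ : ∃ R, R = γ ^ (Z ^ d) := ⟨_, rfl⟩
    obtain ⟨S, hS⟩ : ∃ S, S = v * Z ^ d := ⟨_, rfl⟩
    have hP1 : 1 ≤ P := by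
      rw [hP]
      exact Nat.mul_pos hZ1 (pow_pos (Nat.succ_pos _) _)
    have hR1 : 1 ≤ R := by rw [hR]; exact Nat.one_le_pow _ _ (by omega)
    have hS1 : 1 ≤ S := by rw [hS]; exact Nat.mul_pos hv1 (pow_pos hZ1 _)
    rw [← hP, ← hR, ← hS]
    have e : 8 * (Z * ((v * (2 * T + 1) ^ d + 1) ^ m * (((m + 3) * (m + 3)) * (R * S)))) =
        8 * (P * ((m + 3) * (m + 3) * (R * S))) := by rw [hP]; ring
    rw [e]
    have h2 : (m + 1) * ((m + 3) * (R * (S + 1))) ≤ 2 * ((m + 3) * (m + 3) * (R * S)) := by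
      have : S + 1 ≤ 2 * S := by omega
      calc (m + 1) * ((m + 3) * (R * (S + 1))) ≤ (m + 3) * ((m + 3) * (R * (2 * S))) := by
            gcongr
            omega
        _ = _ := by ring
    obtain ⟨K, hK⟩ : ∃ K, K = (m + 3) * (m + 3) * (R * S) := ⟨_, rfl⟩
    rw [← hK] at h2 ⊢
    have hK1 : 1 ≤ K := by
      rw [hK]
      exact Nat.mul_pos (Nat.mul_pos (by omega) (by omega)) (Nat.mul_pos hR1 hS1)
    have h3 : P * ((m + 1) * ((m + 3) * (R * (S + 1))) + 1) ≤ P * (3 * K) :=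
      Nat.mul_le_mul_left P (by omega)
    have h4 : 1 ≤ P * K := Nat.mul_pos hP1 hK1
    have e2 : P * (3 * K) = 3 * (P * K) := by ring
    omega
  have h2 : (((2 + Z * (v * (2 * T + 1) ^ d + 1) ^ m *
      ((m + 1) * ((m + 3) * (γ ^ (Z ^ d) * (v * Z ^ d + 1))) + 1) : ℕ) : ℝ)) ≤
      8 * ((Z : ℝ) * (((v : ℝ) * ((2 * T + 1 : ℕ) : ℝ) ^ d + 1) ^ m *
        ((((m + 3 : ℕ) : ℝ) * ((m + 3 : ℕ) : ℝ)) * ((γ : ℝ) ^ (Z ^ d) * ((v : ℝ) * (Z : ℝ) ^ d))))) := by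
    exact_mod_cast h1
  have p2 : (0 : ℝ) < 2 := by norm_num
  have hB : ((v : ℝ) * ((2 * T + 1 : ℕ) : ℝ) ^ d + 1) ^ m ≤ 2 ^ ((1 + y + 3 * l * d) * m) := by
    rw [Real.rpow_mul_natCast p2.le]
    refine pow_le_pow_left₀ (by positivity) ?_ m
    have h3 : ((2 * T + 1 : ℕ) : ℝ) ^ d ≤ 2 ^ (3 * l * d) := by
      rw [Real.rpow_mul_natCast p2.le]
      exact pow_le_pow_left₀ (by positivity) hT d
    have h4 : (v : ℝ) * ((2 * T + 1 : ℕ) : ℝ) ^ d ≤ 2 ^ y * 2 ^ (3 * l * d) :=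
      mul_le_mul hv.le h3 (by positivity) (by positivity)
    have h5 : (1 : ℝ) ≤ 2 ^ y * 2 ^ (3 * l * d) := by
      rw [nn2_two_pow]
      exact nn2_one_le _ (by positivity)
    have e : (2 : ℝ) ^ (1 + y + 3 * l * d) = 2 * (2 ^ y * 2 ^ (3 * l * d)) := by
      rw [nn2_two_pow, show 1 + y + 3 * l * d = 1 + (y + 3 * l * d) by ring,
        Real.rpow_add p2, Real.rpow_one]
    rw [e]
    linarith
  have hG : (γ : ℝ) ^ (Z ^ d) ≤ 2 ^ (X / 8) := by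
    have h3 : (γ : ℝ) ≤ 2 ^ g := by exact_mod_cast hγ
    calc (γ : ℝ) ^ (Z ^ d) ≤ ((2 : ℝ) ^ g) ^ (Z ^ d) := pow_le_pow_left₀ (by positivity) h3 _
      _ = 2 ^ ((g : ℝ) * (Z : ℝ) ^ d) := by
          rw [← pow_mul, ← Real.rpow_natCast]
          push_cast
          rfl
      _ ≤ 2 ^ (X / 8) := Real.rpow_le_rpow_of_exponent_le (by norm_num) hg
  have hM : ((m + 3 : ℕ) : ℝ) * ((m + 3 : ℕ) : ℝ) ≤ 2 ^ (8 * l) := by
    calc ((m + 3 : ℕ) : ℝ) * ((m + 3 : ℕ) : ℝ) ≤ 2 ^ (4 * l) * 2 ^ (4 * l) :=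
          mul_le_mul hm hm (by positivity) (by positivity)
      _ = 2 ^ (8 * l) := by rw [nn2_two_pow]; congr 1; ring
  have hV : (v : ℝ) * (Z : ℝ) ^ d ≤ 2 ^ y * 2 ^ l :=
    mul_le_mul hv.le hZd (by positivity) (by positivity)
  have h8 : ∀ w : ℝ, 8 * (2 : ℝ) ^ w = 2 ^ (3 + w) := by
    intro w
    rw [← nn2_two_pow, show (3 : ℝ) = ((3 : ℕ) : ℝ) by norm_num, Real.rpow_natCast]
    norm_num
  calc _ ≤ _ := h2
    _ ≤ 8 * (2 ^ l * (2 ^ ((1 + y + 3 * l * d) * m) *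
        (2 ^ (8 * l) * (2 ^ (X / 8) * (2 ^ y * 2 ^ l))))) := by
        gcongr
    _ = 2 ^ (3 + 10 * l + (1 + y + 3 * l * d) * m + X / 8 + y) := by
        simp only [nn2_two_pow, h8]
        congr 1
        ring
    _ < 2 ^ X := Real.rpow_lt_rpow_of_exponent_lt (by norm_num) hX

theorem nn2_le_two (x : ℝ) (hx : 1 ≤ x) : x ≤ 2 ^ (2 * Real.log x) := by
  have h1 : (0 : ℝ) < x := by linarith
  have h2 : x = 2 ^ (Real.log x / Real.log 2) := by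
    rw [Real.rpow_def_of_pos (by norm_num), mul_div_cancel₀ _ (Real.log_pos (by norm_num)).ne',
      Real.exp_log h1]
  have h3 : Real.log x / Real.log 2 ≤ 2 * Real.log x := by
    rw [div_le_iff₀ (Real.log_pos (by norm_num))]
    have := Real.log_two_gt_d9
    have h4 := Real.log_nonneg hx
    nlinarith
  calc x = 2 ^ (Real.log x / Real.log 2) := h2
    _ ≤ _ := Real.rpow_le_rpow_of_exponent_le (by norm_num) h3

theorem nn2_pow_le_two (x : ℝ) (hx : 1 ≤ x) (k : ℕ) : x ^ k ≤ 2 ^ (k * (2 * Real.log x)) := by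
  rw [mul_comm, Real.rpow_mul_natCast (by norm_num)]
  exact pow_le_pow_left₀ (by linarith) (nn2_le_two x hx) k

/-- NN2. -/
theorem t_NN2 : S_NN2 := by
  intro d ε hd hε hε1
  have hd0 : (0 : ℝ) < d := by exact_mod_cast hd
  have hd1 : (1 : ℝ) ≤ d := by exact_mod_cast hd
  obtain ⟨e, he⟩ : ∃ e : ℝ, e = ε / (4 * d) := ⟨_, rfl⟩
  have he0 : 0 < e := by rw [he]; positivity
  have hed : 4 * e * d = ε := by rw [he]; field_simp
  have he4 : e ≤ ε / 4 := by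
    rw [he]
    apply div_le_div_of_nonneg_left hε.le (by norm_num)
    linarith
  obtain ⟨α, hα⟩ : ∃ α : ℝ, α = 1 + e - (1 - e) / d := ⟨_, rfl⟩
  obtain ⟨β, hβ⟩ : ∃ β : ℝ, β = (1 - ε) / d := ⟨_, rfl⟩
  have hβ0 : 0 ≤ β := by rw [hβ]; apply div_nonneg <;> linarith
  have hq : (1 - e) / d ≤ 1 - e := by
    rw [div_le_iff₀ hd0]
    nlinarith
  have hα0 : 0 ≤ α := by rw [hα]; linarith
  have hα1 : α ≤ 1 + e := by
    rw [hα]
    have : 0 ≤ (1 - e) / d := by apply div_nonneg <;> linarith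
    linarith
  have hab : α + β ≤ 1 - 2 * e := by
    have h1 : α + β = 1 + e - (ε - e) / d := by
      rw [hα, hβ]; ring
    have h2 : (ε - e) / d = 4 * e - e / d := by
      rw [← hed]; field_simp
    have h3 : e / d ≤ e := div_le_self he0.le hd1
    rw [h1, h2]
    linarith
  have ha : α < 1 - e := by
    have h1 : 2 * e < (1 - e) / d := by
      rw [lt_div_iff₀ hd0]
      nlinarith
    rw [hα]
    linarith
  obtain ⟨n1, h1⟩ := pw 136 (α + β) (1 - e) 0 (by linarith)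
  obtain ⟨n2, h2⟩ := pw 136 α (1 - e) 0 ha
  obtain ⟨n3, h3⟩ := pw (816 * d) α (1 - e) 1 ha
  obtain ⟨n4, h4⟩ := pw 8 (1 - ε) (1 - e) 0 (by nlinarith)
  obtain ⟨n5, h5⟩ := pw 48 0 (1 - e) 0 (by linarith)
  obtain ⟨n6, h6⟩ := pw 320 0 (1 - e) 1 (by linarith)
  refine ⟨n1 + n2 + n3 + n4 + n5 + n6 + 5, fun N hN T hT => ?_⟩
  rw [← he] at hT ⊢
  have hN5 : (5 : ℝ) ≤ N := by exact_mod_cast (by omega : 5 ≤ N)
  have hN1 : (1 : ℝ) ≤ N := by linarith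
  have hN0 : (0 : ℝ) < N := by linarith
  refine ⟨Real.rpow_le_rpow_of_exponent_le hN1 (by nlinarith), ?_⟩
  obtain ⟨X, hX⟩ : ∃ X : ℝ, X = (N : ℝ) ^ (1 - e) := ⟨_, rfl⟩
  obtain ⟨z, hz⟩ : ∃ z : ℝ, z = (N : ℝ) ^ (1 - ε) := ⟨_, rfl⟩
  obtain ⟨L, hL⟩ : ∃ L : ℝ, L = Real.log N := ⟨_, rfl⟩
  have hL0 : 0 ≤ L := by rw [hL]; exact Real.log_nonneg hN1
  have g1 := h1 N (by omega)
  have g2 := h2 N (by omega)
  have g3 := h3 N (by omega)
  have g4 := h4 N (by omega)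
  have g5 := h5 N (by omega)
  have g6 := h6 N (by omega)
  rw [← hX] at g1 g2 g3 g4 g5 g6 ⊢
  rw [← hz] at g4 ⊢
  rw [← hL] at g1 g2 g3 g4 g5 g6
  rw [pow_zero, mul_one] at g1 g2 g4 g5
  rw [pow_one] at g3 g6
  rw [Real.rpow_zero, mul_one] at g5 g6
  have hz1 : 1 ≤ z := by rw [hz]; exact Real.one_le_rpow hN1 (by linarith)
  have hXN : X ≤ N := by
    rw [hX]
    calc (N : ℝ) ^ (1 - e) ≤ (N : ℝ) ^ (1 : ℝ) :=
          Real.rpow_le_rpow_of_exponent_le hN1 (by linarith)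
      _ = N := Real.rpow_one _
  have hX0 : 0 < X := by linarith
  intro v γ g y hy hyz hv hv1 hγ1 hγ hg1 hgz
  have hg0 : (0 : ℝ) < g := by exact_mod_cast hg1
  have hg1' : (1 : ℝ) ≤ g := by exact_mod_cast hg1
  -- bounds for y
  have hyB : y ≤ (N : ℝ) ^ β := by
    have h7 : y = (y ^ d) ^ ((1 : ℝ) / d) := by
      rw [← Real.rpow_natCast, ← Real.rpow_mul hy, mul_one_div_cancel hd0.ne', Real.rpow_one]
    have h8 : (N : ℝ) ^ β = z ^ ((1 : ℝ) / d) := by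
      rw [hz, ← Real.rpow_mul hN0.le, hβ]
      congr 1
      ring
    rw [h7, h8]
    exact Real.rpow_le_rpow (by positivity) hyz (by positivity)
  have hyz' : y ≤ z := by
    have h8 : (N : ℝ) ^ β ≤ z := by
      rw [hz]
      apply Real.rpow_le_rpow_of_exponent_le hN1
      rw [hβ, div_le_iff₀ hd0]
      nlinarith
    linarith
  -- the number Z
  obtain ⟨q, hq'⟩ : ∃ q : ℝ, q = (X / (8 * g)) ^ ((1 : ℝ) / d) := ⟨_, rfl⟩
  have hb1 : 1 ≤ X / (8 * g) := by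
    rw [le_div_iff₀ (by positivity)]
    linarith
  have hb0 : 0 < X / (8 * g) := by linarith
  have hq1 : 1 ≤ q := by rw [hq']; exact Real.one_le_rpow hb1 (by positivity)
  have hqd : q ^ d = X / (8 * g) := by
    rw [hq', ← Real.rpow_natCast, ← Real.rpow_mul hb0.le, one_div_mul_cancel hd0.ne', Real.rpow_one]
  obtain ⟨Z, hZ⟩ : ∃ Z : ℕ, Z = ⌊q⌋₊ := ⟨_, rfl⟩
  have hZ1 : 1 ≤ Z := by rw [hZ]; exact (Nat.one_le_floor_iff q).2 hq1
  have hZq : (Z : ℝ) ≤ q := by rw [hZ]; exact Nat.floor_le (by linarith)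
  have hqZ : q < Z + 1 := by rw [hZ]; exact Nat.lt_floor_add_one q
  have hZ1' : (1 : ℝ) ≤ Z := by exact_mod_cast hZ1
  have hZd : (Z : ℝ) ^ d ≤ X / (8 * g) := by
    rw [← hqd]
    exact pow_le_pow_left₀ (by linarith) hZq d
  have hgZ : (g : ℝ) * (Z : ℝ) ^ d ≤ X / 8 := by
    calc (g : ℝ) * (Z : ℝ) ^ d ≤ g * (X / (8 * g)) := by gcongr
      _ = X / 8 := by field_simp
  have hZdN : (Z : ℝ) ^ d ≤ N := by
    have : (Z : ℝ) ^ d ≤ (g : ℝ) * (Z : ℝ) ^ d := le_mul_of_one_le_left (by positivity) hg1'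
    linarith
  have hZN : (Z : ℝ) ≤ N := by
    have : (Z : ℝ) ≤ (Z : ℝ) ^ d := le_self_pow₀ hZ1' (by omega)
    linarith
  -- the number U
  obtain ⟨U, hU⟩ : ∃ U : ℝ, U = (X / 8) ^ ((1 : ℝ) / d) := ⟨_, rfl⟩
  have hU0 : 0 < U := by rw [hU]; positivity
  have hgU : U ≤ g * q := by
    have h7 : U = (g : ℝ) ^ ((1 : ℝ) / d) * q := by
      rw [hU, hq', ← Real.mul_rpow hg0.le hb0.le]
      congr 1
      field_simp
    rw [h7]
    apply mul_le_mul_of_nonneg_right _ (by linarith)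
    calc (g : ℝ) ^ ((1 : ℝ) / d) ≤ (g : ℝ) ^ (1 : ℝ) := by
          apply Real.rpow_le_rpow_of_exponent_le hg1'
          rw [div_le_iff₀ hd0]
          linarith
      _ = g := Real.rpow_one _
  have hgZU : U / 2 ≤ g * Z := by
    have h7 : q ≤ 2 * Z := by linarith
    have h8 : (g : ℝ) * q ≤ g * (2 * Z) := by gcongr
    linarith
  have hUN : (N : ℝ) ^ ((1 - e) / d) / 8 ≤ U := by
    have h7 : U = (N : ℝ) ^ ((1 - e) / d) / 8 ^ ((1 : ℝ) / d) := by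
      rw [hU, hX, Real.div_rpow (by positivity) (by norm_num), ← Real.rpow_mul hN0.le]
      congr 2
      ring
    rw [h7]
    apply div_le_div_of_nonneg_left (by positivity) (by positivity)
    calc (8 : ℝ) ^ ((1 : ℝ) / d) ≤ (8 : ℝ) ^ (1 : ℝ) := by
          apply Real.rpow_le_rpow_of_exponent_le (by norm_num)
          rw [div_le_iff₀ hd0]
          linarith
      _ = 8 := Real.rpow_one _
  obtain ⟨m, hm⟩ : ∃ m : ℕ, m = ⌈2 * (T : ℝ) / U⌉₊ := ⟨_, rfl⟩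
  have hm1 : 2 * (T : ℝ) / U ≤ m := by rw [hm]; exact Nat.le_ceil _
  have hm2 : (m : ℝ) < 2 * (T : ℝ) / U + 1 := by
    rw [hm]
    exact Nat.ceil_lt_add_one (by positivity)
  have hNα : 1 ≤ (N : ℝ) ^ α := Real.one_le_rpow hN1 hα0
  have hm3 : (m : ℝ) ≤ 17 * (N : ℝ) ^ α := by
    have h7 : 2 * (T : ℝ) / U ≤ 16 * (N : ℝ) ^ α := by
      rw [div_le_iff₀ hU0]
      have h8 : (N : ℝ) ^ (1 + e) = (N : ℝ) ^ α * (N : ℝ) ^ ((1 - e) / d) := by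
        rw [← Real.rpow_add hN0, hα]
        congr 1
        ring
      have h9 : 16 * (N : ℝ) ^ α * ((N : ℝ) ^ ((1 - e) / d) / 8) ≤ 16 * (N : ℝ) ^ α * U := by
        gcongr
      have h10 : 16 * (N : ℝ) ^ α * ((N : ℝ) ^ ((1 - e) / d) / 8) = 2 * (N : ℝ) ^ (1 + e) := by
        rw [h8]; ring
      linarith
    linarith
  have hTN : (T : ℝ) ≤ (N : ℝ) ^ 2 := by
    refine hT.trans ?_
    rw [← Real.rpow_natCast]
    apply Real.rpow_le_rpow_of_exponent_le hN1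
    push_cast
    linarith
  have hmN : (m : ℝ) ≤ 17 * (N : ℝ) ^ 2 := by
    refine hm3.trans ?_
    have : (N : ℝ) ^ α ≤ (N : ℝ) ^ 2 := by
      rw [← Real.rpow_natCast]
      apply Real.rpow_le_rpow_of_exponent_le hN1
      push_cast
      linarith
    linarith
  have hl := nn2_le_two N hN1
  rw [← hL] at hl
  refine ⟨Z, m, hZ1, ?_, ?_⟩
  · have h7 : (T : ℝ) < (m + 1) * (g * Z) := by
      have h8 : ((m : ℝ) + 1) * (U / 2) ≤ (m + 1) * (g * Z) := by gcongr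
      have h9 : 2 * (T : ℝ) ≤ m * U := by rwa [div_le_iff₀ hU0] at hm1
      linarith
    exact_mod_cast h7
  · refine nn2_cnt Z v T d m γ g (2 * L) y X (by positivity) hy hZ1 (hZN.trans hl)
      (hZdN.trans hl) hv1 hv ?_ ?_ hγ1 hγ hgZ ?_
    · have h7 := nn2_pow_le_two N hN1 3
      rw [← hL] at h7
      push_cast at h7 ⊢
      refine le_trans ?_ h7
      have h8 : (1 : ℝ) ≤ (N : ℝ) ^ 2 := one_le_pow₀ hN1
      have h9 : (5 : ℝ) * (N : ℝ) ^ 2 ≤ N * (N : ℝ) ^ 2 :=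
        mul_le_mul_of_nonneg_right hN5 (by positivity)
      have h10 : (N : ℝ) ^ 3 = N * (N : ℝ) ^ 2 := by ring
      rw [h10]
      linarith
    · have h7 := nn2_pow_le_two N hN1 4
      rw [← hL] at h7
      push_cast at h7 ⊢
      refine le_trans ?_ h7
      have h8 : (25 : ℝ) ≤ (N : ℝ) ^ 2 := by
        calc (25 : ℝ) = 5 ^ 2 := by norm_num
          _ ≤ (N : ℝ) ^ 2 := pow_le_pow_left₀ (by norm_num) hN5 2
      have h9 : (25 : ℝ) * (N : ℝ) ^ 2 ≤ (N : ℝ) ^ 2 * (N : ℝ) ^ 2 :=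
        mul_le_mul_of_nonneg_right h8 (by positivity)
      have h10 : (N : ℝ) ^ 4 = (N : ℝ) ^ 2 * (N : ℝ) ^ 2 := by ring
      rw [h10]
      linarith
    · have k1 : (N : ℝ) ^ (α + β) = (N : ℝ) ^ α * (N : ℝ) ^ β := Real.rpow_add hN0 _ _
      rw [k1] at g1
      have k2 : (1 + y + 3 * (2 * L) * d) * m ≤
          (1 + (N : ℝ) ^ β + 3 * (2 * L) * d) * (17 * (N : ℝ) ^ α) := by
        gcongr
      have k3 : (1 + (N : ℝ) ^ β + 3 * (2 * L) * d) * (17 * (N : ℝ) ^ α) =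
          17 * (N : ℝ) ^ α + 17 * ((N : ℝ) ^ α * (N : ℝ) ^ β) +
            (816 * d * (N : ℝ) ^ α * L) / 8 := by
        ring
      linarith

end Pool.Agent.RMS
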