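import Pool.Agent.RMS.St1

/-!
# Project RMS, module REP: unions and concatenations of programs without memory
-/

set_option autoImplicit false

open Finset
open scoped Classical

namespace Pool.Agent.RMS

namespace REP

variable {X : Type}

/-- walks can be composed -/
theorem wk_trans {Q : Type} (G : Net X Q) {u v w : Q} {l l' : List (X × Bool)}
    (h : G.Wk u v l) (h' : G.Wk v w l') : G.Wk u w (l ++ l') := by
  induction h with
  | nil u => simpa using h'
  | cons ht _ ih => rw [List.append_assoc]; exact Net.Wk.cons ht (ih h')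

/-- a walk is mapped to a walk -/
theorem wk_map {Q Q' : Type} (G : Net X Q) (G' : Net X Q') (f : Q → Q')
    (hf : ∀ u t v, G.test u t v → G'.test (f u) t (f v)) {u v : Q} {l : List (X × Bool)}
    (h : G.Wk u v l) : G'.Wk (f u) (f v) l := by
  induction h with
  | nil u => exact Net.Wk.nil _
  | cons ht _ ih => exact Net.Wk.cons (hf _ _ _ ht) ih

/-! ## Unions -/

section union

variable {ι : Type} {Q : ι → Type} (G : ∀ i, Net X (Q i))

/-- the edges of the union -/
inductive UT : Option (Option (Σ i, Q i)) → List (X × Bool) → Option (Option (Σ i, Q i)) → Prop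
  | src (i : ι) : UT none [] (some (some ⟨i, (G i).source⟩))
  | snk (i : ι) : UT (some (some ⟨i, (G i).sink⟩)) [] (some none)
  | inn (i : ι) (u v : Q i) (t : List (X × Bool)) : (G i).test u t v →
      UT (some (some ⟨i, u⟩)) t (some (some ⟨i, v⟩))

/-- the union -/
def UN : Net X (Option (Option (Σ i, Q i))) where
  source := none
  sink := some none
  test := UT G

/-- the meaning of the nodes of the union -/
def UM : Option (Option (Σ i, Q i)) → List (X × Bool) → Prop
  | none, l => ∃ i, (G i).Wk (G i).source (G i).sink l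
  | some none, l => l = []
  | some (some q), l => (G q.1).Wk q.2 (G q.1).sink l

theorem UM_of_wk {u v : Option (Option (Σ i, Q i))} {l : List (X × Bool)}
    (h : (UN G).Wk u v l) (hv : v = some none) : UM G u l := by
  induction h with
  | nil u => subst hv; rfl
  | @cons u v w t l ht _ ih =>
    have h2 := ih hv
    cases ht with
    | src i => exact ⟨i, h2⟩
    | snk i =>
      have h3 : l = [] := h2
      subst h3
      exact Net.Wk.nil _
    | inn i u v t h1 => exact Net.Wk.cons h1 h2

theorem wk_union (l : List (X × Bool)) :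
    (∃ i, (G i).Wk (G i).source (G i).sink l) ↔ (UN G).Wk (UN G).source (UN G).sink l := by
  constructor
  · rintro ⟨i, h⟩
    have h1 : (UN G).Wk (some (some ⟨i, (G i).source⟩)) (some (some ⟨i, (G i).sink⟩)) l :=
      wk_map (G i) (UN G) (fun u => some (some ⟨i, u⟩)) (fun u t v h => UT.inn i u v t h) h
    have h2 : (UN G).Wk (some (some ⟨i, (G i).sink⟩)) (some none) ([] ++ []) :=
      Net.Wk.cons (UT.snk i) (Net.Wk.nil _)
    have h3 : (UN G).Wk none (some none) ([] ++ (l ++ ([] ++ []))) :=
      Net.Wk.cons (UT.src i) (wk_trans _ h1 h2)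
    rw [List.nil_append, List.append_nil, List.append_nil] at h3
    exact h3
  · intro h
    exact UM_of_wk G h rfl

end union

/-! ## Concatenations -/

section cat

variable {Q Q' : Type} (G : Net X Q) (G' : Net X Q')

/-- the edges of the concatenation -/
inductive CT : Q ⊕ Q' → List (X × Bool) → Q ⊕ Q' → Prop
  | lft (u v : Q) (t : List (X × Bool)) : G.test u t v → CT (Sum.inl u) t (Sum.inl v)
  | mid : CT (Sum.inl G.sink) [] (Sum.inr G'.source)
  | rgt (u v : Q') (t : List (X × Bool)) : G'.test u t v → CT (Sum.inr u) t (Sum.inr v)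

/-- the concatenation -/
def CN : Net X (Q ⊕ Q') where
  source := Sum.inl G.source
  sink := Sum.inr G'.sink
  test := CT G G'

/-- the meaning of the nodes of the concatenation -/
def CM : Q ⊕ Q' → List (X × Bool) → Prop
  | Sum.inl u, l => ∃ l1 l2, G.Wk u G.sink l1 ∧ G'.Wk G'.source G'.sink l2 ∧ l = l1 ++ l2
  | Sum.inr u, l => G'.Wk u G'.sink l

theorem CM_of_wk {u v : Q ⊕ Q'} {l : List (X × Bool)}
    (h : (CN G G').Wk u v l) (hv : v = Sum.inr G'.sink) : CM G G' u l := by
  induction h with
  | nil u => subst hv; exact Net.Wk.nil _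
  | @cons u v w t l ht _ ih =>
    have h2 := ih hv
    cases ht with
    | lft u v t h1 =>
      obtain ⟨l1, l2, h3, h4, h5⟩ := h2
      exact ⟨t ++ l1, l2, Net.Wk.cons h1 h3, h4, by rw [h5, List.append_assoc]⟩
    | mid => exact ⟨[], l, Net.Wk.nil _, h2, rfl⟩
    | rgt u v t h1 => exact Net.Wk.cons h1 h2

theorem wk_cat (l : List (X × Bool)) :
    (∃ l1 l2, G.Wk G.source G.sink l1 ∧ G'.Wk G'.source G'.sink l2 ∧ l = l1 ++ l2) ↔
      (CN G G').Wk (CN G G').source (CN G G').sink l := by
  constructor
  · rintro ⟨l1, l2, h1, h2, rfl⟩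
    have h3 : (CN G G').Wk (Sum.inl G.source) (Sum.inl G.sink) l1 :=
      wk_map G (CN G G') Sum.inl (fun u t v h => CT.lft u v t h) h1
    have h4 : (CN G G').Wk (Sum.inr G'.source) (Sum.inr G'.sink) l2 :=
      wk_map G' (CN G G') Sum.inr (fun u t v h => CT.rgt u v t h) h2
    have h5 : (CN G G').Wk (Sum.inl G.source) (Sum.inr G'.sink) (l1 ++ ([] ++ l2)) :=
      wk_trans _ h3 (Net.Wk.cons CT.mid h4)
    rw [List.nil_append] at h5
    exact h5
  · intro h
    exact CM_of_wk G G' h rfl

end cat

/-- the walks of a program without edges -/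
theorem wk_unit (l : List (X × Bool)) :
    l = [] ↔ (⟨(), (), fun _ _ _ => False⟩ : Net X Unit).Wk () () l := by
  constructor
  · rintro rfl
    exact Net.Wk.nil _
  · intro h
    cases h with
    | nil => rfl
    | cons ht _ => exact ht.elim

end REP

theorem t_REP : S_REP := by
  intro X s n
  refine ⟨fun ι _ B hB => ?_, fun Bs => ?_⟩
  · choose Q iQ G hc hs hw using hB
    refine ⟨Option (Option (Σ i, Q i)), inferInstance, REP.UN G, ?_, ?_, fun l => ?_⟩
    · rw [Fintype.card_option, Fintype.card_option, Fintype.card_sigma]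
      have h1 : ∑ i, Fintype.card (Q i) ≤ ∑ _i : ι, n := Finset.sum_le_sum fun i _ => hc i
      rw [Finset.sum_const, Finset.card_univ, smul_eq_mul] at h1
      omega
    · intro u t v h
      cases h with
      | src i => simp
      | snk i => simp
      | inn i u v t h1 => exact hs i u t v h1
    · rw [← REP.wk_union G l]
      exact exists_congr fun i => hw i l
  · induction Bs with
    | nil =>
      intro _
      refine ⟨Unit, inferInstance, ⟨(), (), fun _ _ _ => False⟩, by simp, fun u t v h => h.elim,
        fun l => REP.wk_unit l⟩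
    | cons B Bs ih =>
      intro hB
      obtain ⟨Q, iQ, G, hc, hs, hw⟩ := hB B (by simp)
      obtain ⟨Q', iQ', G', hc', hs', hw'⟩ := ih fun B' h => hB B' (by simp [h])
      refine ⟨Q ⊕ Q', inferInstance, REP.CN G G', ?_, ?_, fun l => ?_⟩
      · rw [Fintype.card_sum, List.length_cons, Nat.succ_mul]
        omega
      · intro u t v h
        cases h with
        | lft u v t h1 => exact hs u t v h1
        | mid => simp
        | rgt u v t h1 => exact hs' u t v h1
      · rw [← REP.wk_cat G G' l]
        constructor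
        · rintro ⟨l1, l2, h1, h2, h3⟩
          exact ⟨l1, l2, (hw l1).1 h1, (hw' l2).1 h2, h3⟩
        · rintro ⟨l1, l2, h1, h2, h3⟩
          exact ⟨l1, l2, (hw l1).2 h1, (hw' l2).2 h2, h3⟩

end Pool.Agent.RMS
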