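import Pool.Agent.RMS.St1

/-!
# RMS_SND: soundness of the room by room simulation (helper16)
-/

set_option autoImplicit false

open Finset
open scoped Classical

namespace Pool.Agent.RMS

open Pool.Agent.Lib_helper20.SRO (Agrees)

namespace SND

variable {X Γ Q L D A O : Type} {G : TProg X Γ Q L D} {ac : D → L → L} {e : L ≃ A × O}

/-- a run inside of a room is a run -/
lemma lrun {a : A} {u w : Q} {h h' : O} {c0 c1 : O → Γ} {l : List (X × Bool)}
    (H : LR G ac e a u h c0 w h' c1 l) : ∀ c : L → Γ, (∀ o, c (e.symm (a, o)) = c0 o) →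
    ∃ c' ms, TRun G ac u (e.symm (a, h)) c w (e.symm (a, h')) c' l ms ∧
      (∀ o, c' (e.symm (a, o)) = c1 o) ∧
      ∀ a' o, a' ≠ a → c' (e.symm (a', o)) = c (e.symm (a', o)) := by
  induction H with
  | nil u h c0 => exact fun c hc => ⟨c, [], TRun.nil _ _ _, hc, fun _ _ _ => rfl⟩
  | test ht _ ih =>
    intro c hc
    obtain ⟨c', ms, h1, h2, h3⟩ := ih c hc
    exact ⟨c', ms, TRun.test ht h1, h2, h3⟩
  | @wr u u' v h h' c0 c1 l b hw _ ih =>
    intro c hc
    obtain ⟨c', ms, h1, h2, h3⟩ := ih (Function.update c (e.symm (a, h)) b) (by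
      intro o
      by_cases ho : o = h
      · subst ho
        rw [Function.update_self, Function.update_self]
      · rw [Function.update_of_ne ho, Function.update_of_ne, hc]
        intro h0
        exact ho (congrArg Prod.snd (e.symm.injective h0)))
    refine ⟨c', ms, TRun.wr b (by rw [hc]; exact hw) h1, h2, fun a' o ha => ?_⟩
    rw [h3 a' o ha, Function.update_of_ne]
    intro h0
    exact ha (congrArg Prod.fst (e.symm.injective h0))
  | mv δ hm hac _ ih =>
    intro c hc
    obtain ⟨c', ms, h1, h2, h3⟩ := ih c hc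
    rw [← hac] at h1
    exact ⟨c', _, TRun.mv δ hm h1, h2, h3⟩

/-- runs can be composed -/
lemma trans {u v w : Q} {p p' p'' : L} {c c' c'' : L → Γ} {l l' : List (X × Bool)}
    {ms ms' : List (L × L)} (H : TRun G ac u p c v p' c' l ms) :
    TRun G ac v p' c' w p'' c'' l' ms' → TRun G ac u p c w p'' c'' (l ++ l') (ms ++ ms') := by
  induction H with
  | nil => exact id
  | test ht _ ih =>
    intro h
    rw [List.append_assoc]
    exact TRun.test ht (ih h)
  | wr b hw _ ih => exact fun h => TRun.wr b hw (ih h)
  | mv δ hm _ ih => exact fun h => TRun.mv δ hm (ih h)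

end SND

open SND in
theorem t_SND : S_SND := by
  intro X Γ Q L D A O G ac e b u p vs
  induction vs generalizing u p with
  | nil =>
    intro c H
    obtain ⟨l, hl, hb⟩ := H (u, p) (List.mem_singleton.2 rfl)
    cases hl with
    | skip h0 _ => exact absurd rfl h0
    | last _ h2 =>
      obtain ⟨c', ms, h3, -, -⟩ := lrun h2 c (fun _ => rfl)
      rw [show e.symm ((e (u, p).2).1, (e p).2) = p from e.symm_apply_apply p] at h3
      exact ⟨l, ms, _, c', h3, hb⟩
  | cons q vs ih =>
    obtain ⟨u', p'⟩ := q
    intro c H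
    obtain ⟨l, hl, hb⟩ := H (u, p) List.mem_cons_self
    cases hl with
    | skip h0 _ => exact absurd rfl h0
    | @visit _ w _ _ _ _ _ c1 h δ l1 l2 _ h2 hm hac h5 =>
      obtain ⟨c', ms, h3, h6, h7⟩ := lrun h2 c (fun _ => rfl)
      rw [show e.symm ((e (u, p).2).1, (e p).2) = p from e.symm_apply_apply p] at h3
      obtain ⟨l', ms', p'', c'', h8, h9⟩ := ih u' p' c' (by
        intro q hq
        by_cases ha : (e q.2).1 = (e p).1
        · refine ⟨l2, ?_, fun t ht => hb t (List.mem_append_right _ ht)⟩
          rw [ha]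
          have : (fun o => c' (e.symm ((e p).1, o))) = c1 := funext h6
          rw [this]
          exact h5
        · obtain ⟨l3, h10, h11⟩ := H q (List.mem_cons_of_mem _ hq)
          refine ⟨l3, ?_, h11⟩
          have : (fun o => c' (e.symm ((e q.2).1, o))) = fun o => c (e.symm ((e q.2).1, o)) :=
            funext fun o => h7 _ o ha
          rw [this]
          cases h10 with
          | skip _ h12 => exact h12
          | visit h12 _ _ _ _ => exact absurd h12.symm ha)
      refine ⟨l1 ++ l', ms ++ _, p'', c'', trans h3 (TRun.mv δ hm (by rw [hac]; exact h8)), ?_⟩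
      intro t ht
      rcases List.mem_append.1 ht with ht | ht
      · exact hb t (List.mem_append_left _ ht)
      · exact h9 t ht

end Pool.Agent.RMS
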