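import Pool.Agent.TKB.AllH
import Pool.Agent.RMS.SHF
import Pool.Agent.RMS.REP
import Pool.Agent.RMS.CHN
import Pool.Agent.RMS.SND
import Pool.Agent.RMS.CMP
import Pool.Agent.RMS.MVS
import Pool.Agent.RMS.ASN
import Pool.Agent.RMS.NN1
import Pool.Agent.RMS.NN2
import Pool.Agent.RMS.LV1
import Pool.Agent.RMS.LV2

/-!
# Project RMS: the theorems for nondeterministic programs
-/

set_option autoImplicit false

namespace Pool.Agent.RMS

theorem asn : S_ASN := t_ASN t_SHF t_REP t_CHN t_SND t_CMP (t_MVS t_SHF)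

theorem lv1 : S_LV1 := t_LV1 asn t_NN1 TKB.lwc TKB.t_SIZB

theorem lv2 : S_LV2 := t_LV2 asn t_NN2 TKB.lwc TKB.t_SIZB

end Pool.Agent.RMS
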