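import Pool.Agent.Lib_helper20.SRO.Model

/-!
# Project RMS: machines and programs with one unlimited tape

A tape has the cells `L` and the moves `D` (`act δ p` is the cell reached from `p` by the move `δ`); the head
starts at the cell `0`. The tapes of dimension `d` are `L = Fin d → ℤ`, `D = Fin d × Bool`. The tape is cut
into rooms: a bijection `e : L ≃ A × O` (room, offset).
-/

set_option autoImplicit false

open Finset
open scoped Classical

namespace Pool.Agent.RMS

open Pool.Agent.Lib_helper20.SRO (Agrees)

/-! ## Tapes of dimension `d` -/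

/-- the cells of a tape of dimension `d` -/
abbrev Cell (d : ℕ) : Type := Fin d → ℤ

/-- the moves of the head: a coordinate and a direction -/
abbrev Dir (d : ℕ) : Type := Fin d × Bool

/-- the head moves to a neighbouring cell -/
def act {d : ℕ} (δ : Dir d) (p : Cell d) : Cell d :=
  Function.update p δ.1 (if δ.2 = true then p δ.1 + 1 else p δ.1 - 1)

/-- a move, or no move -/
def mvo {L D : Type} (ac : D → L → L) : Option D → L → L
  | none, p => p
  | some δ, p => ac δ p

/-- the cells whose coordinates have absolute value at most `r` -/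
noncomputable def box (d r : ℕ) : Finset (Cell d) :=
  Fintype.piFinset fun _ => Finset.Icc (-(r : ℤ)) r

/-- The rooms of side `Z`, shifted by `o`. -/
noncomputable def rmap (d Z : ℕ) (hZ : 0 < Z) (o : ℕ) : Cell d ≃ Cell d × (Fin d → Fin Z) where
  toFun p := (fun i => (p i + o) / Z, fun i => ⟨((p i + o) % Z).toNat, by
    have h1 : (0 : ℤ) < Z := by exact_mod_cast hZ
    have h2 := Int.emod_nonneg (p i + o) h1.ne'
    have h3 := Int.emod_lt_of_pos (p i + o) h1
    omega⟩)
  invFun q := fun i => q.1 i * Z + (q.2 i : ℕ) - o
  left_inv p := by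
    have h1 : (0 : ℤ) < Z := by exact_mod_cast hZ
    funext i
    have h2 := Int.emod_nonneg (p i + o) h1.ne'
    have h4 := Int.mul_ediv_add_emod (p i + o) Z
    have h5 : ((p i + (o : ℤ)) / Z) * Z = Z * ((p i + (o : ℤ)) / Z) := mul_comm _ _
    simp only []
    rw [Int.toNat_of_nonneg h2]
    omega
  right_inv q := by
    have h1 : (0 : ℤ) < Z := by exact_mod_cast hZ
    refine Prod.ext (funext fun i => ?_) (funext fun i => ?_)
    · have h2 : q.1 i * (Z : ℤ) + ((q.2 i : ℕ) : ℤ) - o + o = ((q.2 i : ℕ) : ℤ) + q.1 i * Z := by ring
      have h3 : ((q.2 i : ℕ) : ℤ) / Z = 0 :=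
        Int.ediv_eq_zero_of_lt (by positivity) (by exact_mod_cast (q.2 i).2)
      simp only [h2]
      rw [Int.add_mul_ediv_right _ _ h1.ne', h3, zero_add]
    · have h2 : q.1 i * (Z : ℤ) + ((q.2 i : ℕ) : ℤ) - o + o = ((q.2 i : ℕ) : ℤ) + q.1 i * Z := by ring
      have h3 : ((q.2 i : ℕ) : ℤ) % Z = ((q.2 i : ℕ) : ℤ) :=
        Int.emod_eq_of_lt (by positivity) (by exact_mod_cast (q.2 i).2)
      apply Fin.ext
      simp only [h2, Int.add_mul_emod_self_right, h3, Int.toNat_natCast]

/-! ## Deterministic machines with a tape -/

/-- state, cell of the head, contents of the tape -/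
structure Cf (V L Γ : Type) : Type where
  v : V
  p : L
  c : L → Γ

/-- A deterministic machine with a tape: at time `t` in state `v` with the scanned letter `a` it reads the
input bits `rd t v a`; they determine the new state, the new letter and the move of the head. -/
structure TM (P V Γ L D : Type) where
  /-- the initial state -/
  start : V
  /-- the initial contents of the tape -/
  init : L → Γ
  /-- the input bits read at time `t` in state `v` if the scanned letter is `a` -/
  rd : ℕ → V → Γ → Finset P
  /-- new state, new letter, move -/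
  op : ℕ → V → Γ → (P → Bool) → V × Γ × Option D
  /-- this only depends on the bits read -/
  loc : ∀ t v a x y, (∀ p ∈ rd t v a, x p = y p) → op t v a x = op t v a y

variable {P V Γ L D A O : Type}

/-- the configuration after `t` steps; the head starts at the cell `0` -/
noncomputable def TM.conf [Zero L] (R : TM P V Γ L D) (ac : D → L → L) (x : P → Bool) :
    ℕ → Cf V L Γ
  | 0 => ⟨R.start, 0, R.init⟩
  | t + 1 =>
    let S := R.conf ac x t
    let o := R.op t S.v (S.c S.p) x
    ⟨o.1, mvo ac o.2.2 S.p, Function.update S.c S.p o.2.1⟩

/-- the number of the bits read in the step at time `t` -/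
noncomputable def TM.bits [Zero L] (R : TM P V Γ L D) (ac : D → L → L) (x : P → Bool) (t : ℕ) : ℕ :=
  (R.rd t (R.conf ac x t).v ((R.conf ac x t).c (R.conf ac x t).p)).card

/-- `1` if the head moves in the step at time `t`, otherwise `0` -/
noncomputable def TM.movs [Zero L] (R : TM P V Γ L D) (ac : D → L → L) (x : P → Bool) (t : ℕ) : ℕ :=
  if (R.op t (R.conf ac x t).v ((R.conf ac x t).c (R.conf ac x t).p) x).2.2 = none then 0 else 1

/-- `1` if the room changes in the step at time `t`, otherwise `0` -/
noncomputable def TM.chg [Zero L] (R : TM P V Γ L D) (ac : D → L → L) (e : L ≃ A × O)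
    (x : P → Bool) (t : ℕ) : ℕ :=
  if (e (R.conf ac x (t + 1)).p).1 = (e (R.conf ac x t).p).1 then 0 else 1

/-! ## The simulation room by room

A trace `τ` gives for each time `t ≥ 1` at which the room changes the state and the cell at time `t`. -/

/-- the room at time `t` according to the trace -/
def rm [Zero L] (e : L ≃ A × O) (τ : ℕ → Option (V × L)) : ℕ → A
  | 0 => (e 0).1
  | t + 1 => match τ (t + 1) with
    | some q => (e q.2).1
    | none => rm e τ t

/-- up to time `t` the trace of the run on `x` is `τ` -/
def Tra [Zero L] (R : TM P V Γ L D) (ac : D → L → L) (e : L ≃ A × O) (τ : ℕ → Option (V × L))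
    (x : P → Bool) (t : ℕ) : Prop :=
  ∀ u < t, τ (u + 1) = if (e (R.conf ac x (u + 1)).p).1 = (e (R.conf ac x u).p).1 then none
    else some ((R.conf ac x (u + 1)).v, (R.conf ac x (u + 1)).p)

/-- a change leads to another room -/
def Vld [Zero L] (e : L ≃ A × O) (τ : ℕ → Option (V × L)) : Prop :=
  ∀ t q, τ (t + 1) = some q → (e q.2).1 ≠ rm e τ t

/-- a state of the simulation of one room: state of the machine, offset of the head, contents -/
structure Rs (V O Γ : Type) : Type where
  v : V
  h : O
  c : O → Γ

/-- what the machine does at time `t` for the state `S` of the simulation -/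
def opr (R : TM P V Γ L D) (x : P → Bool) (t : ℕ) (S : Rs V O Γ) : V × Γ × Option D :=
  R.op t S.v (S.c S.h) x

/-- the new cell of the head, if the room is `a` -/
def nxc (R : TM P V Γ L D) (ac : D → L → L) (e : L ≃ A × O) (x : P → Bool) (a : A) (t : ℕ)
    (S : Rs V O Γ) : L :=
  mvo ac (opr R x t S).2.2 (e.symm (a, S.h))

/-- One step of the simulation of the room `a` at time `t`. If the room at time `t` is `a` then a step of the
machine is made and the claims of the trace for time `t + 1` are checked (and the claim that the state at
time `T` is `w`). If the room changes then the state and the offset of the trace are used from now on. -/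
noncomputable def stp [Zero L] (R : TM P V Γ L D) (ac : D → L → L) (e : L ≃ A × O)
    (τ : ℕ → Option (V × L)) (T : ℕ) (w : V) (x : P → Bool) (a : A) (t : ℕ) (S : Rs V O Γ) :
    Option (Rs V O Γ) :=
  if rm e τ t = a then
    if t + 1 = T ∧ (opr R x t S).1 ≠ w then none else
    match τ (t + 1) with
    | some q =>
      if (opr R x t S).1 = q.1 ∧ nxc R ac e x a t S = q.2 then
        some ⟨q.1, (e q.2).2, Function.update S.c S.h (opr R x t S).2.1⟩
      else none
    | none =>
      if (e (nxc R ac e x a t S)).1 = a then
        some ⟨(opr R x t S).1, (e (nxc R ac e x a t S)).2,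
          Function.update S.c S.h (opr R x t S).2.1⟩
      else none
  else match τ (t + 1) with
    | some q => some ⟨q.1, (e q.2).2, S.c⟩
    | none => some S

/-- the initial state of the simulation of the room `a` -/
def ini [Zero L] (R : TM P V Γ L D) (e : L ≃ A × O) (a : A) : Rs V O Γ :=
  ⟨R.start, (e 0).2, fun o => R.init (e.symm (a, o))⟩

/-- the simulation of the room `a` until time `t` -/
noncomputable def phs [Zero L] (R : TM P V Γ L D) (ac : D → L → L) (e : L ≃ A × O)
    (τ : ℕ → Option (V × L)) (T : ℕ) (w : V) (x : P → Bool) (a : A) : ℕ → Option (Rs V O Γ)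
  | 0 => some (ini R e a)
  | t + 1 => (phs R ac e τ T w x a t).bind (stp R ac e τ T w x a t)

/-! ## Nondeterministic programs with a tape -/

/-- A nondeterministic program with the nodes `Q` and a tape with the letters `Γ`: an edge carries a block of
tests, or it replaces the scanned letter `a` by `b`, or it moves the head. -/
structure TProg (X Γ Q L D : Type) where
  source : Q
  sink : Q
  /-- the initial contents of the tape -/
  init : L → Γ
  test : Q → List (X × Bool) → Q → Prop
  wr : Q → Γ → Γ → Q → Prop
  mv : Q → D → Q → Prop

variable {X Q : Type}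

/-- `TRun G ac u p c v p' c' l ms`: there is a run from the node `u` with the head at `p` and the contents
`c` of the tape to `v`, `p'`, `c'`, whose tests are the list `l` and whose moves (old cell, new cell) are
the list `ms`. -/
inductive TRun (G : TProg X Γ Q L D) (ac : D → L → L) :
    Q → L → (L → Γ) → Q → L → (L → Γ) → List (X × Bool) → List (L × L) → Prop
  | nil (u : Q) (p : L) (c : L → Γ) : TRun G ac u p c u p c [] []
  | test {u u' v : Q} {p p' : L} {c c' : L → Γ} {t l : List (X × Bool)} {ms : List (L × L)} :
      G.test u t u' → TRun G ac u' p c v p' c' l ms → TRun G ac u p c v p' c' (t ++ l) ms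
  | wr {u u' v : Q} {p p' : L} {c c' : L → Γ} {l : List (X × Bool)} {ms : List (L × L)} (b : Γ) :
      G.wr u (c p) b u' → TRun G ac u' p (Function.update c p b) v p' c' l ms →
      TRun G ac u p c v p' c' l ms
  | mv {u u' v : Q} {p p' : L} {c c' : L → Γ} {l : List (X × Bool)} {ms : List (L × L)} (δ : D) :
      G.mv u δ u' → TRun G ac u' (ac δ p) c v p' c' l ms →
      TRun G ac u p c v p' c' l ((p, ac δ p) :: ms)

/-- there is a run from the source, with the head at `0` and the initial contents, to the sink with the
tests `l` and the moves `ms` -/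
def TProg.Full [Zero L] (G : TProg X Γ Q L D) (ac : D → L → L) (l : List (X × Bool))
    (ms : List (L × L)) : Prop :=
  ∃ p c, TRun G ac G.source 0 G.init G.sink p c l ms

/-- `b` is accepted if some run from the source to the sink has only tests that `b` passes -/
def TProg.Accepts [Zero L] (G : TProg X Γ Q L D) (ac : D → L → L) (b : X → Bool) : Prop :=
  ∃ l ms, G.Full ac l ms ∧ Agrees b l

/-- Runs inside the room `a`; the contents of the room is `c : O → Γ`. -/
inductive LR (G : TProg X Γ Q L D) (ac : D → L → L) (e : L ≃ A × O) (a : A) :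
    Q → O → (O → Γ) → Q → O → (O → Γ) → List (X × Bool) → Prop
  | nil (u : Q) (h : O) (c : O → Γ) : LR G ac e a u h c u h c []
  | test {u u' v : Q} {h h' : O} {c c' : O → Γ} {t l : List (X × Bool)} :
      G.test u t u' → LR G ac e a u' h c v h' c' l → LR G ac e a u h c v h' c' (t ++ l)
  | wr {u u' v : Q} {h h' : O} {c c' : O → Γ} {l : List (X × Bool)} (b : Γ) :
      G.wr u (c h) b u' → LR G ac e a u' h (Function.update c h b) v h' c' l →
      LR G ac e a u h c v h' c' l
  | mv {u u' v : Q} {h h1 h' : O} {c c' : O → Γ} {l : List (X × Bool)} (δ : D) :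
      G.mv u δ u' → ac δ (e.symm (a, h)) = e.symm (a, h1) → LR G ac e a u' h1 c v h' c' l →
      LR G ac e a u h c v h' c' l

/-- A list `vs` of visits (node and cell at the start of the visit). `Chn G ac e a vs c l`: the visits of the
room `a` can be made one after the other, if the contents is `c` before, with the tests `l` in total. A visit
ends with a move to the cell at which the next visit starts, the last visit ends at the sink. -/
inductive Chn (G : TProg X Γ Q L D) (ac : D → L → L) (e : L ≃ A × O) (a : A) :
    List (Q × L) → (O → Γ) → List (X × Bool) → Prop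
  | nil (c : O → Γ) : Chn G ac e a [] c []
  | skip {u : Q} {p : L} {vs : List (Q × L)} {c : O → Γ} {l : List (X × Bool)} :
      (e p).1 ≠ a → Chn G ac e a vs c l → Chn G ac e a ((u, p) :: vs) c l
  | last {u : Q} {p : L} {c c' : O → Γ} {h : O} {l : List (X × Bool)} :
      (e p).1 = a → LR G ac e a u (e p).2 c G.sink h c' l → Chn G ac e a [(u, p)] c l
  | visit {u w u' : Q} {p p' : L} {vs : List (Q × L)} {c c' : O → Γ} {h : O} {δ : D}
      {l l' : List (X × Bool)} :
      (e p).1 = a → LR G ac e a u (e p).2 c w h c' l → G.mv w δ u' →
      ac δ (e.symm (a, h)) = p' → Chn G ac e a ((u', p') :: vs) c' l' →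
      Chn G ac e a ((u, p) :: (u', p') :: vs) c (l ++ l')

/-! ## Programs without memory -/

/-- a program without memory -/
structure Net (X Q : Type) where
  source : Q
  sink : Q
  test : Q → List (X × Bool) → Q → Prop

/-- a walk from `u` to `v` with the tests `l` -/
inductive Net.Wk (G : Net X Q) : Q → Q → List (X × Bool) → Prop
  | nil (u : Q) : Net.Wk G u u []
  | cons {u v w : Q} {t l : List (X × Bool)} :
      G.test u t v → Net.Wk G v w l → Net.Wk G u w (t ++ l)

/-- `B` is the set of the test lists of the walks from the source to the sink of a program without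
memory with at most `n` nodes, whose edges have at most `s` tests. -/
def Rep (s n : ℕ) (B : List (X × Bool) → Prop) : Prop :=
  ∃ (Q : Type) (_ : Fintype Q) (G : Net X Q), Fintype.card Q ≤ n ∧
    (∀ u t v, G.test u t v → t.length ≤ s) ∧ ∀ l, B l ↔ G.Wk G.source G.sink l

/-- concatenation -/
def Cat : List (List (X × Bool) → Prop) → List (X × Bool) → Prop
  | [], l => l = []
  | B :: Bs, l => ∃ l1 l2, B l1 ∧ Cat Bs l2 ∧ l = l1 ++ l2

end Pool.Agent.RMS
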