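import Pool.Agent.RMS.Defs
import Pool.Agent.PPS.Defs

/-!
# Project RMS: the deterministic machine which treats the rooms one after the other

It needs no tape. It treats the rooms `as 0`, `as 1`, ...; for each room it goes through the times
`0, …, T - 1` (its own time is `n = i * T + t`).
-/

set_option autoImplicit false

open Finset
open scoped Classical

namespace Pool.Agent.RMS

open Pool.Agent.PPS (SS Op)

variable {P V Γ L D A O : Type}

/-- a state of this machine: state of the simulation of the present room, `j` counters up to `M`, the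
number of the bits read so far (at most `K`) -/
structure Ow (V O Γ : Type) (j M K : ℕ) : Type where
  s : Rs V O Γ
  n : Fin j → Fin (M + 1)
  β : Fin (K + 1)

/-- `n`, but at most `M` -/
def cap (M n : ℕ) : Fin (M + 1) := ⟨min M n, Nat.lt_succ_of_le (min_le_left _ _)⟩

/-- the number of the bits read at time `t` in the room `a` in the state `S` of the simulation -/
noncomputable def bit [Zero L] (R : TM P V Γ L D) (e : L ≃ A × O) (τ : ℕ → Option (V × L)) (a : A)
    (t : ℕ) (S : Rs V O Γ) : ℕ :=
  if rm e τ t = a then (R.rd t S.v (S.c S.h)).card else 0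

/-- `1` if the step at time `t` in the room `a` changes the room of the room map `e'`, otherwise `0` -/
noncomputable def cgo [Zero L] (R : TM P V Γ L D) (ac : D → L → L) (e : L ≃ A × O)
    (τ : ℕ → Option (V × L)) (e' : L ≃ A × O) (x : P → Bool) (a : A) (t : ℕ) (S : Rs V O Γ) : ℕ :=
  if rm e τ t = a ∧ (e' (nxc R ac e x a t S)).1 ≠ (e' (e.symm (a, S.h))).1 then 1 else 0

/-- at the beginning of a new room the simulation starts again -/
def rst [Zero L] {j M K : ℕ} (R : TM P V Γ L D) (e : L ≃ A × O) (a : A) (t : ℕ)
    (S : Ow V O Γ j M K) : Ow V O Γ j M K :=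
  if t = 0 then ⟨ini R e a, S.n, S.β⟩ else S

/-- one step at time `t` in the room `a`; `none` if a check fails or too many bits would be read -/
noncomputable def ows [Zero L] {j M K : ℕ} (R : TM P V Γ L D) (ac : D → L → L) (e : L ≃ A × O)
    (τ : ℕ → Option (V × L)) (T : ℕ) (w : V) (es : Fin j → L ≃ A × O) (x : P → Bool) (a : A) (t : ℕ)
    (S : Ow V O Γ j M K) : Option (Ow V O Γ j M K) :=
  if S.β.val + bit R e τ a t S.s ≤ K then
    match stp R ac e τ T w x a t S.s with
    | none => none
    | some s' => some ⟨s', fun i => cap M ((S.n i).val + cgo R ac e τ (es i) x a t S.s),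
        cap K (S.β.val + bit R e τ a t S.s)⟩
  else none

theorem opr_loc {R : TM P V Γ L D} {x y : P → Bool} {t : ℕ} {S : Rs V O Γ}
    (h : ∀ p ∈ R.rd t S.v (S.c S.h), x p = y p) : opr R x t S = opr R y t S :=
  R.loc _ _ _ _ _ h

theorem ows_loc [Zero L] {j M K : ℕ} {R : TM P V Γ L D} {ac : D → L → L} {e : L ≃ A × O}
    {τ : ℕ → Option (V × L)} {T : ℕ} {w : V} {es : Fin j → L ≃ A × O} {x y : P → Bool} {a : A}
    {t : ℕ} {S : Ow V O Γ j M K}
    (h : rm e τ t = a ∧ S.β.val + bit R e τ a t S.s ≤ K → opr R x t S.s = opr R y t S.s) :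
    ows R ac e τ T w es x a t S = ows R ac e τ T w es y a t S := by
  unfold ows
  by_cases hK : S.β.val + bit R e τ a t S.s ≤ K
  · by_cases ha : rm e τ t = a
    · have h1 := h ⟨ha, hK⟩
      have h2 : nxc R ac e x a t S.s = nxc R ac e y a t S.s := by
        unfold nxc
        rw [h1]
      have h3 : stp R ac e τ T w x a t S.s = stp R ac e τ T w y a t S.s := by
        unfold stp
        rw [h1, h2]
      have h4 : ∀ i, cgo R ac e τ (es i) x a t S.s = cgo R ac e τ (es i) y a t S.s := by
        intro i
        unfold cgo
        rw [h2]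
      rw [h3]
      simp only [h4]
    · have h3 : stp R ac e τ T w x a t S.s = stp R ac e τ T w y a t S.s := by
        unfold stp
        rw [if_neg ha, if_neg ha]
      have h4 : ∀ i, cgo R ac e τ (es i) x a t S.s = cgo R ac e τ (es i) y a t S.s := by
        intro i
        unfold cgo
        rw [if_neg fun hh => ha hh.1, if_neg fun hh => ha hh.1]
      rw [h3]
      simp only [h4]
  · rw [if_neg hK, if_neg hK]

/-- the machine without tape -/
noncomputable def own [Zero L] {j : ℕ} (R : TM P V Γ L D) (ac : D → L → L) (e : L ≃ A × O)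
    (τ : ℕ → Option (V × L)) (T : ℕ) (w : V) (es : Fin j → L ≃ A × O) (M K : ℕ) (as : ℕ → A) :
    SS P (Option (Ow V O Γ j M K)) Unit where
  start := some ⟨ini R e (as 0), fun _ => cap M 0, cap K 0⟩
  rd n S := match S with
    | none => ∅
    | some S =>
      if rm e τ (n % T) = as (n / T) ∧ (rst R e (as (n / T)) (n % T) S).β.val +
          bit R e τ (as (n / T)) (n % T) (rst R e (as (n / T)) (n % T) S).s ≤ K then
        R.rd (n % T) (rst R e (as (n / T)) (n % T) S).s.v
          ((rst R e (as (n / T)) (n % T) S).s.c (rst R e (as (n / T)) (n % T) S).s.h)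
      else ∅
  op n S x := match S with
    | none => Op.stay none
    | some S => Op.stay (ows R ac e τ T w es x (as (n / T)) (n % T)
        (rst R e (as (n / T)) (n % T) S))
  loc n S x y h := by
    cases S with
    | none => rfl
    | some S =>
      show Op.stay _ = Op.stay _
      rw [ows_loc (y := y)]
      intro hc
      refine opr_loc fun p hp => h p ?_
      show p ∈ (if _ then _ else _)
      rw [if_pos hc]
      exact hp

/-- the bits read at time `t` by the simulation of the room `a` -/
noncomputable def evb [Zero L] (R : TM P V Γ L D) (ac : D → L → L) (e : L ≃ A × O)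
    (τ : ℕ → Option (V × L)) (T : ℕ) (w : V) (x : P → Bool) (a : A) (t : ℕ) : ℕ :=
  match phs R ac e τ T w x a t with
  | none => 0
  | some S => bit R e τ a t S

/-- the changes of the room of `e'` at time `t` in the simulation of the room `a` -/
noncomputable def evc [Zero L] (R : TM P V Γ L D) (ac : D → L → L) (e : L ≃ A × O)
    (τ : ℕ → Option (V × L)) (T : ℕ) (w : V) (e' : L ≃ A × O) (x : P → Bool) (a : A) (t : ℕ) : ℕ :=
  match phs R ac e τ T w x a t with
  | none => 0
  | some S => cgo R ac e τ e' x a t S

end Pool.Agent.RMS
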