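import Pool.Agent.RMS.Defs

/-!
# Project RMS: statements, part 1 (shifts of the rooms; nondeterministic programs with a tape)

Every module proves one `S_XXX` as `theorem Pool.Agent.RMS.t_XXX : S_XXX`, or, if it uses other
statements, `theorem t_XXX (h : S_YYY) ... : S_XXX` with exactly the hypotheses named in the doc string, in
this order; so nobody waits.

IDEA. The tape is cut into rooms. The change of the room is rare for a suitable shift of the rooms. A program
without tape guesses the node and the cell after each change of the room (the list of the visits) and then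
treats the rooms one after the other: all visits of the first room, then all visits of the second room, ...;
it only has to store the contents of one room.
-/

set_option autoImplicit false

open Finset
open scoped Classical

namespace Pool.Agent.RMS

open Pool.Agent.Lib_helper20.SRO (Agrees)

/-- SHF.  The shifts of the rooms and the boxes.
Proof.  (1) The move changes the coordinate `i = δ.1` by `1` or `-1`, the other coordinates of the room are the
same. If it adds `1` then the room changes iff `Z ∣ p i + 1 + o`, if it subtracts `1` iff `Z ∣ p i + o`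
(`Int.emod_emod_of_dvd`, `Int.ediv`, or: `(a + 1) / Z ≠ a / Z ↔ (a + 1) % Z = 0` from
`Z * (a / Z) + a % Z = a`); two such `o < Z` are congruent mod `Z`, so equal. `Finset.card_le_one`.
(2), (3) `Fintype.mem_piFinset`, `Finset.mem_Icc`, `Function.update`. (4) `Fintype.card_piFinset`,
`Int.card_Icc`. -/
def S_SHF : Prop := ∀ d : ℕ,
  (∀ (Z : ℕ) (hZ : 0 < Z) (δ : Dir d) (p : Cell d), ((range Z).filter fun o =>
    (rmap d Z hZ o (act δ p)).1 ≠ (rmap d Z hZ o p).1).card ≤ 1) ∧
  (∀ (δ : Dir d) (p : Cell d) (r : ℕ), p ∈ box d r → act δ p ∈ box d (r + 1)) ∧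
  ((0 : Cell d) ∈ box d 0 ∧ ∀ r r' : ℕ, r ≤ r' → box d r ⊆ box d r') ∧
  ∀ r : ℕ, (box d r).card = (2 * r + 1) ^ d

/-- REP.  Unions and concatenations.
Proof.  (1) nodes `Option (Option (Σ i, Q i))`: `none` the source, `some none` the sink; edges without tests
from the source to the source of each program and from each sink to the sink. (2) Induction on `Bs`: for
`[]` one node `Unit` without edges; for `B :: Bs` nodes `Q ⊕ Q'` with an edge without tests from `inl G.sink`
to `inr G'.source`. For the direction `←` prove by induction on the walk a statement for all start nodes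
(for `inl u`: the list is `l1 ++ l2` with `Wk u G.sink l1` and `Cat Bs l2`; for `inr u'`: `Wk u' G'.sink`). -/
def S_REP : Prop := ∀ (X : Type) (s n : ℕ),
  (∀ (ι : Type) [Fintype ι] (B : ι → List (X × Bool) → Prop), (∀ i, Rep s n (B i)) →
    Rep s (2 + Fintype.card ι * n) (fun l => ∃ i, B i l)) ∧
  ∀ Bs : List (List (X × Bool) → Prop), (∀ B ∈ Bs, Rep s n B) → Rep s (Bs.length * n + 1) (Cat Bs)

/-- CHN.  The visits of one room.
Proof.  Nodes `Option (Fin (vs.length + 1) × (O → Γ) × Option (Q × O))`: `none` is the sink,
`some (i, c, none)` is the state before the visit `i`, `some (i, c, some (u, h))` is in the visit `i`. Source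
`some (0, c, none)`. Edges: for `vs[i] = (u, p)`: if `(e p).1 ≠ a` then `(i, c, none) → (i + 1, c, none)`,
otherwise `(i, c, none) → (i, c, some (u, (e p).2))`; the edges of `LR` (test, wr, mv);
`(i, c, some (w, h)) → (i + 1, c, none)` if `i + 1 < vs.length`, `vs[i + 1] = (u', p')`, `G.mv w δ u'` and
`ac δ (e.symm (a, h)) = p'` for some `δ`, or `i + 1 = vs.length` and `w = G.sink`;
`(vs.length, c, none) → none`. All edges but `test` have no tests.
(→) from `Chn (vs.drop i) c l` a walk from `(i, c, none)` to `none` with the tests `l` (induction on `Chn`).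
(←) induction on the walk with the meaning of the nodes: `(i, c, none)`: `Chn (vs.drop i) c l`;
`(i, c, some (u, h))`: `l = l1 ++ l2`, `LR u h c w h' c' l1`, the exit condition for `(w, h')`, and
`Chn (vs.drop (i + 1)) c' l2`; `none`: `l = []`.
The number of the nodes is `1 + (len + 1) * (γ ^ o * (q * o + 1))`, and `γ ^ o ≥ 1` as `O → Γ` is not
empty. -/
def S_CHN : Prop := ∀ (X Γ Q L D A O : Type) [Fintype Γ] [Fintype Q] [Fintype O]
  (G : TProg X Γ Q L D) (ac : D → L → L) (e : L ≃ A × O) (a : A) (s : ℕ) (vs : List (Q × L))
  (c : O → Γ), (∀ u t v, G.test u t v → t.length ≤ s) →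
  Rep s ((vs.length + 2) * (Fintype.card Γ ^ Fintype.card O *
    (Fintype.card Q * Fintype.card O + 1))) (Chn G ac e a vs c)

/-- SND.  Soundness: if the visits of all rooms can be made with tests that `b` passes then there is a run.
Proof.  (a) `LR G ac e a u h c0 w h' c1 l` and `c0 = fun o => c (e.symm (a, o))` give
`TRun G ac u (e.symm (a, h)) c w (e.symm (a, h')) c' l ms` with `c' (e.symm (a, o)) = c1 o` and
`c' (e.symm (a', o)) = c (e.symm (a', o))` for `a' ≠ a` (induction on `LR`). (b) `TRun` can be composed.
(c) Induction on `vs` for all `u p c`. For the room `a = (e p).1` of the first visit `Chn` is `last` (then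
(a) is the run), or `visit`: (a), then the move `δ`, `Chn a ((u', p') :: vs) c1 l'`; for the other rooms `a'`
it is `skip`, and the contents of `a'` is the same in `c'`. Apply the induction hypothesis to `u'`, `p'`,
`c'`. (`p = e.symm ((e p).1, (e p).2)`.) -/
def S_SND : Prop := ∀ (X Γ Q L D A O : Type) (G : TProg X Γ Q L D) (ac : D → L → L) (e : L ≃ A × O)
  (b : X → Bool) (u : Q) (p : L) (vs : List (Q × L)) (c : L → Γ),
  (∀ q ∈ (u, p) :: vs, ∃ l, Chn G ac e (e q.2).1 ((u, p) :: vs)
    (fun o => c (e.symm ((e q.2).1, o))) l ∧ Agrees b l) →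
  ∃ l ms p' c', TRun G ac u p c G.sink p' c' l ms ∧ Agrees b l

/-- CMP.  Completeness: a run gives the visits and for each room the tests `ls a`; the lists `ls a` of all
rooms together are a permutation of the tests of the run.
Proof.  Induction on `TRun` (generalize `G.sink = v`).
`nil`: `vs = []`, `ls = fun _ => []`; `Chn.last` with `LR.nil` for the room of `p`, `skip` for the others.
`test t`: the same `vs`, `ls a = t ++ ls' a` for the room `a` of `p`: `Chn a ((u', p) :: vs) c l` gives
`Chn a ((u, p) :: vs) c (t ++ l)` (cases `last`, `visit`; `LR.test`); for the other rooms the first visit is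
skipped, so `u` does not matter.
`wr b`: the same; for the room of `p` the contents before is `Function.update` of the old contents at
`(e p).2`, for the other rooms it is the same.
`mv δ` inside of the room: for the room of `p` use `LR.mv`, the other rooms skip the first visit.
`mv δ` with `(e (ac δ p)).1 ≠ (e p).1`: the new `vs` is `(u', ac δ p) :: vs`; the room of `p` gets
`Chn.visit` with `LR.nil`, the others `skip`; `countP` increases.
For `Perm`: if `rs.Nodup` and `a ∈ rs` then `(rs.map (Function.update ls a (t ++ ls a))).flatten` is a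
permutation of `t ++ (rs.map ls).flatten` (induction on `rs`). -/
def S_CMP : Prop := ∀ (X Γ Q L D A O : Type) (G : TProg X Γ Q L D) (ac : D → L → L) (e : L ≃ A × O)
  (u : Q) (p p' : L) (c c' : L → Γ) (l : List (X × Bool)) (ms : List (L × L)),
  TRun G ac u p c G.sink p' c' l ms →
  ∃ (vs : List (Q × L)) (ls : A → List (X × Bool)),
    vs.length ≤ ms.countP (fun q => decide ((e q.2).1 ≠ (e q.1).1)) ∧
    (∀ q ∈ vs, q.2 ∈ ms.map Prod.snd) ∧
    (∀ a, Chn G ac e a ((u, p) :: vs) (fun o => c (e.symm (a, o))) (ls a)) ∧
    ∀ rs : List A, rs.Nodup → (∀ q ∈ (u, p) :: vs, (e q.2).1 ∈ rs) → (rs.map ls).flatten.Perm l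

/-- MVS (uses `S_SHF`).  The moves of a run; a shift with few changes of the room.
Proof.  (1), (2) induction on `TRun`. (3) The sum over the shifts `o < Z` of the number of the changes is at
most `ms.length` by SHF (1) (`List.countP` as a sum, or induction on `ms`); so for some `o` it is at most
`ms.length / Z`. -/
def S_MVS : Prop := ∀ (X Γ Q : Type) (d : ℕ) (G : TProg X Γ Q (Cell d) (Dir d)) (u v : Q)
  (p p' : Cell d) (c c' : Cell d → Γ) (l : List (X × Bool)) (ms : List (Cell d × Cell d)) (r : ℕ),
  TRun G act u p c v p' c' l ms → p ∈ box d r →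
  (∀ q ∈ ms, ∃ δ, q.2 = act δ q.1) ∧ (∀ q ∈ ms, q.2 ∈ box d (r + ms.length)) ∧
  ∀ (Z : ℕ) (hZ : 0 < Z), ∃ o < Z, Z * ms.countP (fun q => decide
    ((rmap d Z hZ o q.2).1 ≠ (rmap d Z hZ o q.1).1)) ≤ ms.length

end Pool.Agent.RMS
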