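import Pool.Agent.RMS.Own
import Pool.Agent.RMS.St1

/-!
# Project RMS: statements, part 2 (deterministic machines with a tape)

IDEA. Fix a room map `e` and a trace `τ` (time, state and cell at each change of the room). The machine `own`
without tape treats the rooms one after the other and checks the trace; it accepts iff `τ` is the trace of
the run and the final state is `w`. There are few traces if the room changes at most `m` times; the sum over
all traces and final states gives the run. For `q` room maps we take the first one which is good, that is, at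
most `m` changes; the machine also checks by counters that the earlier ones are bad.
-/

set_option autoImplicit false

open Finset
open scoped Classical

namespace Pool.Agent.RMS

open Pool.Agent.PPS (SS)
open Pool.Agent.PPL (sgP)

/-- TRU.  The simulation of the rooms and the run.
Proof.  (1) Induction on `t`. `t = 0`: definitions. Step: `Tra (t + 1)` gives `Tra t` and `τ (t + 1)`; let
`S` be the state for the room `a` at time `t`. If `rm τ t = a` then `S.v`, `S.h` are the state and the offset
of the head `p` of the run, `e.symm (a, S.h) = p`, so `S.c S.h` is the scanned letter, `opr` is what the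
machine does, `nxc` is the new cell and all checks of `stp` hold. If `rm τ t ≠ a` then the letter which is
changed is not in the room `a`. In both cases, if the room changes the new state and offset are those of
`τ (t + 1)`.
(2) By induction `Tra t` for all `t ≤ T`: by (1) the state for the room `a = rm τ t` at time `t` is the one
of the run; the step does not fail, so the checks hold: if `τ (t + 1) = some q` then `q` is right, and the
room of `q.2` is not `rm τ t` by `Vld`; if `τ (t + 1) = none` then the new cell is in the same room. The check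
at time `t + 1 = T` gives the final state. -/
def S_TRU : Prop := ∀ (P V Γ L D A O : Type) [Zero L] (R : TM P V Γ L D) (ac : D → L → L)
  (e : L ≃ A × O) (τ : ℕ → Option (V × L)) (T : ℕ) (w : V) (x : P → Bool),
  (∀ t ≤ T, Tra R ac e τ x t → (t = T → (R.conf ac x T).v = w) →
    rm e τ t = (e (R.conf ac x t).p).1 ∧ ∀ a, ∃ S, phs R ac e τ T w x a t = some S ∧
      (∀ o, S.c o = (R.conf ac x t).c (e.symm (a, o))) ∧
      (rm e τ t = a → S.v = (R.conf ac x t).v ∧ S.h = (e (R.conf ac x t).p).2)) ∧
  (Vld e τ → (∀ t < T, phs R ac e τ T w x (rm e τ t) (t + 1) ≠ none) →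
    Tra R ac e τ x T ∧ (0 < T → (R.conf ac x T).v = w))

/-- OWN.  The machine `own`.
Proof.  (1) As long as the state is `some S`, `S.β` is the number of the bits read so far (`rst` does not
change it; if `rm τ t ≠ a` then `bit = 0` and nothing is read; `cap K n = n` for `n ≤ K`); if it is `none`
nothing is read any more.
(2), (3) Induction on `len`, inside on `t ≤ T` (time `i * T + t`; `(i * T + t) / T = i`,
`(i * T + t) % T = t` for `t < T`): for `0 < t ≤ T` the state at time `i * T + t` is `≠ none` iff
`phs (as i') T ≠ none` for all `i' < i`, `phs (as i) t ≠ none` and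
`∑ i' < i, ∑ t' < T, evb (as i') t' + ∑ t' < t, evb (as i) t' ≤ K`; if it is `some S` then
`phs (as i) t = some S.s`, `S.β` is this sum and `S.n i'` is the corresponding sum of `evc`, but at most `M`
(`min M (min M a + b) = min M (a + b)`). For `t = 0` the same without the condition for `phs (as i) 0`,
which is `some (ini ..)`, the state after `rst`. (`(conf n).2 = []` always, as all operations are `stay`;
`T = 0` is trivial.) -/
def S_OWN : Prop := ∀ (P V Γ L D A O : Type) [Zero L] (R : TM P V Γ L D) (ac : D → L → L)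
  (e : L ≃ A × O) (τ : ℕ → Option (V × L)) (T M K j : ℕ) (w : V) (es : Fin j → L ≃ A × O)
  (as : ℕ → A) (x : P → Bool),
  (∀ n, ∑ u ∈ range n, ((own R ac e τ T w es M K as).rd u
    ((own R ac e τ T w es M K as).conf x u).1).card ≤ K) ∧
  ∀ len, (((own R ac e τ T w es M K as).conf x (len * T)).1 ≠ none ↔
      (∀ i < len, phs R ac e τ T w x (as i) T ≠ none) ∧
        ∑ i ∈ range len, ∑ t ∈ range T, evb R ac e τ T w x (as i) t ≤ K) ∧
    ∀ S, ((own R ac e τ T w es M K as).conf x (len * T)).1 = some S → ∀ i' : Fin j,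
      (S.n i').val = min M (∑ i ∈ range len, ∑ t ∈ range T, evc R ac e τ T w (es i') x (as i) t)

/-- LOC (uses `S_TRU`, `S_OWN`).  The event that `τ` is the trace, `w` the final state and all maps `es i` are
bad is decided by a machine without tape.
Proof.  Let `as 0, …, as (f - 1)` be the different elements of `(range T).image (rm e τ)`, `f ≤ len`, and
`T' = f * T`; `acc S` iff (`T = 0 → w = R.start`) and `S = some S'` with `S'.n i = M` for all `i`.
`Ow` is equivalent to `(V × O × (O → Γ)) × (Fin j → Fin (M + 1)) × Fin (K + 1)`.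
For each `t < T` there is exactly one `i < f` with `as i = rm τ t`; if `Tra T` and the final state is `w` then
`evb (as i) t = bits t` for this `i` and `0` for the others, by TRU (1) (for `t < T` the condition
`t = T → ..` is empty), the same for `evc` and `chg (es i')` (`nxc` is the cell at time `t + 1`); so the
sums over `i`, `t` (`Finset.sum_comm`) are `∑ bits ≤ K` and `∑ chg`.
(→) OWN (2): `phs (as i) T ≠ none`, so `phs (as i) t ≠ none` for all `t ≤ T` (`Option.bind`); TRU (2).
(←) TRU (1), OWN (2), (3). -/
def S_LOC : Prop := ∀ (P V Γ L D A O : Type) [Zero L] [Fintype V] [Fintype Γ] [Fintype O]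
  (R : TM P V Γ L D) (ac : D → L → L) (e : L ≃ A × O) (τ : ℕ → Option (V × L))
  (T M K len j s : ℕ) (w : V) (es : Fin j → L ≃ A × O), Vld e τ →
  (∀ t v a, (R.rd t v a).card ≤ s) → (∀ x, ∑ t ∈ range T, R.bits ac x t ≤ K) →
  ((range T).image (rm e τ)).card ≤ len →
  ∃ (V' : Type) (_ : Fintype V') (R' : SS P V' Unit) (acc : V' → Prop) (T' : ℕ), T' ≤ len * T ∧
    Fintype.card V' ≤ 1 + Fintype.card V * Fintype.card O * Fintype.card Γ ^ Fintype.card O *
      (M + 1) ^ j * (K + 1) ∧
    (∀ t v, (R'.rd t v).card ≤ s) ∧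
    (∀ x, ∑ t ∈ range T', (R'.rd t (R'.conf x t).1).card ≤ K) ∧
    ∀ x, acc (R'.conf x T').1 ↔ Tra R ac e τ x T ∧ (R.conf ac x T).v = w ∧
      ∀ i, M ≤ ∑ t ∈ range T, R.chg ac (es i) x t

/-- IDX.  The traces with at most `m` changes.
Proof.  `ι` = the functions `f : Fin T → Option (V × B)` with at most `m` values `≠ none` such that
`τ (t + 1) = f t` (for `t < T`, otherwise `none`) is `Vld`. The number: such an `f` is given by a finset of at
most `m` elements of `Fin T × V × B`, which is the range of a map from `Fin m` to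
`Option (Fin T × V × B)`. The rooms `rm e τ t` are the first one and those of the `τ (t + 1) ≠ none`.
If the room changes at most `m` times then the trace of `x` is a member (`Vld`, as
`rm e τ t = (e p_t).1` by induction), and `Tra .. T` determines `f`. -/
def S_IDX : Prop := ∀ (P V Γ L D A O : Type) [Zero L] [Fintype V] (R : TM P V Γ L D)
  (ac : D → L → L) (e : L ≃ A × O) (T m : ℕ) (B : Finset L),
  (∀ x, ∀ t ≤ T, (R.conf ac x t).p ∈ B) →
  ∃ (ι : Type) (_ : Fintype ι) (τ : ι → ℕ → Option (V × L)),
    Fintype.card ι ≤ ((T + 1) * Fintype.card V * B.card + 1) ^ m ∧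
    (∀ i, Vld e (τ i) ∧ ((range T).image (rm e (τ i))).card ≤ m + 1) ∧
    ∀ x, (∑ t ∈ range T, R.chg ac e x t ≤ m → ∃! i, Tra R ac e (τ i) x T) ∧
      (m < ∑ t ∈ range T, R.chg ac e x t → ∀ i, ¬ Tra R ac e (τ i) x T)

/-- SUMD (uses `S_LOC`, `S_IDX`).  The sum over the traces.
Proof.  For `j < q`, `i : ι j` (IDX for `es j`) and `w : V` let `E j i w v` be the event of LOC with
`M = m + 1` and the maps `es j'`, `j' < j`. If `v` is good (some `j` has at most `m` changes) then exactly one
`(j, i, w)` has `E j i w v`: the first good `j`, its trace, the final state. If `v` is bad there is none. So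
`∑ v ∈ H, sgP (acc ..) * sgP (Lf v)` is the sum over `(j, i, w)` of
`sgP (acc w) * ∑ v ∈ H, [E j i w v] * sgP (Lf v)` plus the sum over the bad `v`. Now
`[E] = (1 - sgP E) / 2`; both `∑ v ∈ H, sgP (Lf v)` (the machine with `acc' = False`) and
`∑ v ∈ H, sgP (E v) * sgP (Lf v)` are at most `κ` in absolute value. `(m + 2) ^ j ≤ (m + 2) ^ q`. (If there
is no triple `(j, i, w)`, then the claim is trivial.) -/
def S_SUMD : Prop := ∀ (P V Γ L D A O : Type) [Zero L] [Fintype V] [Fintype Γ] [Fintype O]
  (R : TM P V Γ L D) (ac : D → L → L) (acc : V → Prop) (T K m q s : ℕ) (es : Fin q → L ≃ A × O)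
  (B : Finset L) (H : Finset (P → Bool)) (Lf : (P → Bool) → Prop) (κ : ℝ),
  (∀ x, ∀ t ≤ T, (R.conf ac x t).p ∈ B) → (∀ t v a, (R.rd t v a).card ≤ s) →
  (∀ x, ∑ t ∈ range T, R.bits ac x t ≤ K) →
  (∀ (V' : Type) [Fintype V'] (R' : SS P V' Unit) (acc' : V' → Prop) (T' : ℕ),
    T' ≤ (m + 1) * T → Fintype.card V' ≤ 1 + Fintype.card V * Fintype.card O *
      Fintype.card Γ ^ Fintype.card O * (m + 2) ^ q * (K + 1) →
    (∀ t v, (R'.rd t v).card ≤ s) →
    (∀ x, ∑ t ∈ range T', (R'.rd t (R'.conf x t).1).card ≤ K) →
    |∑ v ∈ H, sgP (acc' (R'.conf v T').1) * sgP (Lf v)| ≤ κ) →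
  |∑ v ∈ H, sgP (acc (R.conf ac v T).v) * sgP (Lf v)| ≤
    ((q * ((T + 1) * Fintype.card V * B.card + 1) ^ m * Fintype.card V : ℕ) : ℝ) * κ +
      (H.filter fun v => ∀ i, m < ∑ t ∈ range T, R.chg ac (es i) v t).card

/-- SEL.  The choice of the shifts.
Proof.  Induction on `q`: let `B` be the set of the `x ∈ H` which are bad for the first `q` shifts; by double
counting some `o < Z` is bad for at most half of the `x ∈ B`. -/
def S_SEL : Prop := ∀ (X : Type) (H : Finset X) (Z : ℕ) (bad : ℕ → X → Prop), 1 ≤ Z →
  (∀ x ∈ H, 2 * ((range Z).filter fun o => bad o x).card ≤ Z) →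
  ∀ q : ℕ, ∃ f : Fin q → ℕ, (∀ i, f i < Z) ∧
    2 ^ q * (H.filter fun x => ∀ i, bad (f i) x).card ≤ H.card

/-- AVD (uses `S_SHF`).  The cells and the changes of the room for the shifts.
Proof.  (1) Induction on `t`, SHF (2). (2) For each `t` the sum over `o < Z` of `chg` is at most `movs t`:
`0` if the head does not move, at most `1` by SHF (1) if it does. `Finset.sum_comm`.
(3) `(m + 1) * #{o < Z | m < ∑ chg} ≤ ∑ o, ∑ t, chg ≤ ∑ movs`. -/
def S_AVD : Prop := ∀ (P V Γ : Type) (d : ℕ) (R : TM P V Γ (Cell d) (Dir d)) (x : P → Bool),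
  (∀ t, (R.conf act x t).p ∈ box d t) ∧
  ∀ (Z : ℕ) (hZ : 0 < Z) (T : ℕ),
    ∑ o ∈ range Z, ∑ t ∈ range T, R.chg act (rmap d Z hZ o) x t ≤ ∑ t ∈ range T, R.movs act x t ∧
    ∀ m : ℕ, 2 * ∑ t ∈ range T, R.movs act x t ≤ (m + 1) * Z →
      2 * ((range Z).filter fun o => m < ∑ t ∈ range T, R.chg act (rmap d Z hZ o) x t).card ≤ Z

end Pool.Agent.RMS
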