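import Pool.Agent.RMS.St2
import Pool.Agent.PPS.St3

/-!
# Project RMS: statements, part 3 (the class of the machines with a tape; the lower bounds)
-/

set_option autoImplicit false

open Finset
open scoped Classical

namespace Pool.Agent.RMS

open Pool.Agent.PPS (SS Mcs HardC cube)
open Pool.Agent.PPL (sgP fP)
open Pool.Agent.TKN.ONE (size Bas Lay)

/-- The sets of inputs decided by deterministic machines with one unlimited tape of dimension `d`: at most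
`2 ^ y` nodes (pairs of a time `t ≤ T` and a state), `y ^ d ≤ b`; at most `2 ^ g` letters, `1 ≤ g ≤ b`; at
most `b` bits are read at once, and the cost (number of the bits read, plus `g` for each move of the
head) is at most `τ` on each input. The initial contents of the tape is arbitrary. -/
def Mct (d : ℕ) (I : Type) (τ b : ℝ) (P : (I → Bool) → Prop) : Prop :=
  ∃ (T : ℕ) (V Γ : Type) (_ : Fintype V) (_ : Fintype Γ) (g : ℕ) (y : ℝ)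
    (R : TM I V Γ (Cell d) (Dir d)) (acc : V → Prop),
    0 ≤ y ∧ y ^ d ≤ b ∧ 1 ≤ g ∧ (g : ℝ) ≤ b ∧ Fintype.card Γ ≤ 2 ^ g ∧
    ((((T + 1) * Fintype.card V : ℕ) : ℝ) ≤ (2 : ℝ) ^ y) ∧
    (∀ t v a, ((R.rd t v a).card : ℝ) ≤ b) ∧
    (∀ x, ((∑ t ∈ range T, (R.bits act x t + g * R.movs act x t) : ℕ) : ℝ) ≤ τ) ∧
    ∀ x, P x ↔ acc (R.conf act x T).v

/-- machines with one unlimited stack, or with one unlimited tape of dimension `d` -/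
def Mcu (d : ℕ) (I : Type) (τ b : ℝ) (P : (I → Bool) → Prop) : Prop :=
  Mcs I τ b P ∨ Mct d I τ b P

/-- the numeric conditions for the reduction of `Mct d I τ b` to `Mcs I τ b1` -/
def NumD (d : ℕ) (τ b b1 : ℝ) : Prop := ∀ (T v γ g K : ℕ) (y : ℝ), 0 ≤ y → y ^ d ≤ b →
  ((((T + 1) * v : ℕ) : ℝ) ≤ (2 : ℝ) ^ y) → 1 ≤ v → 1 ≤ γ → γ ≤ 2 ^ g → 1 ≤ g → (g : ℝ) ≤ b →
  (K : ℝ) ≤ τ → ∃ Z m q : ℕ, 1 ≤ Z ∧ 2 * τ ≤ ((m : ℝ) + 1) * (g * Z) ∧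
    (((((m + 1) * T + 1) * (1 + v * Z ^ d * γ ^ (Z ^ d) * (m + 2) ^ q * (K + 1)) : ℕ) : ℝ) ≤
      (2 : ℝ) ^ b1) ∧
    ((q * ((T + 1) * v * (2 * T + 1) ^ d + 1) ^ m * v : ℕ) : ℝ) * (2 : ℝ) ^ (-b1) +
      (2 : ℝ) ^ (-(q : ℝ)) ≤ (2 : ℝ) ^ (-b)

/-- CRD (uses `S_SHF`, `S_SUMD`, `S_SEL`, `S_AVD`).  The correlation of a machine with a tape.
Proof.  `K = ⌊τ⌋₊` (`0 ≤ τ` as the costs are `≥ 0`), `s = ⌊b⌋₊`, `v = card V ≥ 1`, `γ = card Γ ≥ 1`; `Z`, `m`,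
`q` from `NumD`. `2 g ∑ movs ≤ 2 τ ≤ (m + 1) g Z`, so `2 ∑ movs ≤ (m + 1) Z`, and AVD (3) holds for all
inputs; SEL for `H = cube D w` (`2 ^ D.card` elements: `PPS.MCx.cube_card` in Pool/Agent/PPS/MC.lean; copy the
proof) gives `f : Fin q → ℕ`. SUMD with `es i = rmap d Z _ (f i)`, `O = Fin d → Fin Z` (`Z ^ d` elements),
`B = box d T` (SHF, AVD (1)), `κ = 2 ^ (-b1) * 2 ^ D.card`: a machine without tape of SUMD is in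
`Mcs (Fin N) τ b1` (`G = Unit`): nodes by `NumD`, blocks `≤ s ≤ b ≤ b1`, time `≤ K ≤ τ`. -/
def S_CRD : Prop := ∀ (N d : ℕ) (τ b b1 : ℝ) (D : Finset (Fin N)) (w : Fin N → Bool)
  (Lf : (Fin N → Bool) → Prop), b ≤ b1 → NumD d τ b b1 →
  (∀ P, Mcs (Fin N) τ b1 P →
    |∑ v ∈ cube D w, sgP (P v) * sgP (Lf v)| ≤ (2 : ℝ) ^ (-b1) * 2 ^ D.card) →
  ∀ P, Mct d (Fin N) τ b P →
    |∑ v ∈ cube D w, sgP (P v) * sgP (Lf v)| ≤ (2 : ℝ) ^ (-b) * 2 ^ D.card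

/-- HCU (uses `S_CRD`, `PPL.S_AVG`).  From machines with a stack to machines with a stack or a tape.
Proof.  Let `D`, `w` be the subcube. CRD for `b + 3`: all `P` in `Mct d (Fin N) τ (b + 3)`, so all `P` in
`Mct d (Fin N) τ b` (it is monotone in `b`; `2 ^ (-(b + 3)) ≤ 2 ^ (-b)`) have correlation at most
`2 ^ (-(b + 3))`; all `P` in `Mcs (Fin N) τ b` too (monotone: `MS.mcs_mono` in Pool/Agent/PPS/MS.lean).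
`PPL.S_AVG` with `C = Mcu ..`, `b + 3`, `H = cube D w`, as in `t_MC1` (Pool/Agent/PPS/MC.lean);
`C P → C fun _ => False`: change `acc`. -/
def S_HCU : Prop := ∀ (N d : ℕ) (τ b b1 : ℝ) (Lf : (Fin N → Bool) → Prop), b + 3 ≤ b1 →
  NumD d τ (b + 3) b1 → HardC (Mcs (Fin N) τ b1) b1 Lf → HardC (Mcu d (Fin N) τ b) b Lf

/-- ND1.  The numbers for time `k N` and dimension `1`.
Proof.  `b1 = N / X`, `b = N / (2 ^ 16 k X ^ 2)`. `Z = ⌊b1 / (8 g)⌋₊`, so `b1 / 16 ≤ g Z ≤ b1 / 8` (as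
`b1 / (8 g) ≥ b1 / (8 b) ≥ 1`); `m = 32 k X`, so `m g Z ≥ 2 k N`; `q = ⌊b1 / (8 (m + 2))⌋₊`, so
`(m + 2) ^ q ≤ 2 ^ ((m + 2) q) ≤ 2 ^ (b1 / 8)` and `q ≥ N / (264 k X ^ 2) - 1 ≥ b + 1` (`m + 2 ≤ 33 k X`).
(1) the number of the nodes is at most `2 (m + 2) * (T + 1) v * Z * γ ^ Z * (m + 2) ^ q * (K + 1)
≤ 2 (m + 2) N (k N + 1) * 2 ^ (b + b1 / 8 + b1 / 8)`, and `2 (m + 2) N (k N + 1) ≤ N ^ 3 ≤ 2 ^ (b1 / 8)` (as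
`N ≥ 2 ^ 60 (k X) ^ 4`, for example from `n ^ 2 ≤ 2 ^ n` for `n ≥ 4`, or `log N ≤ 4 N ^ (1/4)`).
(2) `(T + 1) v ≤ 2 ^ b`, `2 T + 1 ≤ 2 ^ (b + 1)`, so the power is at most `2 ^ ((2 b + 2) m)` and
`(2 b + 2) m ≤ 4 b m = b1 / 512`; `v ≤ 2 ^ b`, `q ≤ N ≤ 2 ^ (b1 / 8)`; the first term is at most
`2 ^ (b1 / 8 + b1 / 512 + b - b1) ≤ 2 ^ (-b - 1)`, the second one is `2 ^ (-q) ≤ 2 ^ (-b - 1)`. -/
def S_ND1 : Prop := ∀ k X N : ℕ, 2 ≤ k → 1 ≤ X → 2 ^ 60 * (k * X) ^ 4 ≤ N →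
  NumD 1 (k * N) ((N : ℝ) / (2 ^ 16 * k * X ^ 2)) ((N : ℝ) / X)

/-- ND2.  The numbers for superlinear time and dimension `d`.
Proof.  `ε' = ε / (4 d)`, `b1 = N ^ (1 - ε')`, `b = N ^ (1 - ε) + 3`, `U = (b1 / 8) ^ (1 / d)`;
`Z = ⌊(b1 / (8 g)) ^ (1 / d)⌋₊ ≥ 1` (as `8 b ≤ b1`), so `g Z ^ d ≤ b1 / 8` and
`g Z ≥ g ^ (1 - 1 / d) U / 2 ≥ U / 2`; `m = ⌈4 τ / U⌉₊`, so `(m + 1) g Z ≥ 2 τ`; `m + 2 ≤ N ^ 3`;
`q = ⌈b⌉₊ + 1`, so `(m + 2) ^ q ≤ N ^ (3 q) ≤ 2 ^ (b1 / 8)` and `2 ^ (-q) ≤ 2 ^ (-b - 1)`. `y ≤ b + 1` and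
`y ≤ b ^ (1 / d)`.
(1) the number of the nodes is at most `2 (m + 2) * (T + 1) v * Z ^ d * γ ^ (Z ^ d) * (m + 2) ^ q * (K + 1)
≤ 2 N ^ 3 * 2 ^ (b + 1) * N * 2 ^ (b1 / 8) * 2 ^ (b1 / 8) * (N ^ 2 + 1) ≤ 2 ^ b1`.
(2) `(T + 1) v (2 T + 1) ^ d + 1 ≤ 2 ^ ((d + 1) (y + 1))`, and
`(d + 1) (y + 1) m ≤ (d + 1) (b ^ (1 / d) + 1) (4 N ^ (1 + ε') / U + 1) ≤ b1 / 8`, since the exponent of `N`
is `1 + ε' + (ε' - ε) / d < 1 - ε'`; the rest as in ND1. All inequalities between powers of `N` hold for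
large `N` (choose `N0` before `τ`, `T`, `v`, `γ`, `g`, `K`, `y`). -/
def S_ND2 : Prop := ∀ (d : ℕ) (ε : ℝ), 1 ≤ d → 0 < ε → ε < 1 → ∃ N0 : ℕ, ∀ N ≥ N0, ∀ τ : ℝ,
  0 ≤ τ → τ ≤ (N : ℝ) ^ (1 + ε / (4 * d)) →
  (N : ℝ) ^ (1 - ε) + 3 ≤ (N : ℝ) ^ (1 - ε / (4 * d)) ∧
    NumD d τ ((N : ℝ) ^ (1 - ε) + 3) ((N : ℝ) ^ (1 - ε / (4 * d)))

/-- TC1 (uses `S_HCU`, `S_ND1`, `PPS.S_MC1`, `TKN.ONE.S_SIZ`).  Fixed `k`.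
Proof.  `A = 4 A1 + 40`, `X = k ^ (A1 k)`; `N ≥ M ≥ k ^ (A k) ≥ 2 ^ 60 (k X) ^ 4`, and
`c N + 3 ≤ N / (2 ^ 16 k X ^ 2)` for `c = 1 / k ^ (A k)`; `NumD` is monotone in `b` (a smaller `b` is easier);
`HardC (Mcs ..) (N / X)` by MC1 (`1 / X * N = N / X`). Thresholds as in `t_MC1` (Pool/Agent/PPS/MC.lean). -/
def S_TC1 : Prop := ∃ A : ℕ, ∀ k M : ℕ, 2 ≤ k → k ^ (A * k) ≤ M → ∀ (β : Bas M) (ly : Lay M)
  (N : ℕ) (c : ℝ), N = size M → c = 1 / (k : ℝ) ^ (A * k) →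
  HardC (Mcu 1 (Fin (size M)) (k * N) (c * N)) (c * N) (fun v => fP β ly v = true)

/-- TC2 (uses `S_HCU`, `S_ND2`, `PPS.S_MC2`, `TKN.ONE.S_SIZ`).  Superlinear time, dimension `d`.
Proof.  MC2 for `ε / (4 d)` gives `c`; `c N log N / log log N ≤ N ^ (1 + ε / (4 d))` and `≥ 0` for
large `N`. -/
def S_TC2 : Prop := ∀ (d : ℕ) (ε : ℝ), 1 ≤ d → 0 < ε → ε < 1 → ∃ c : ℝ, 0 < c ∧ ∃ M0 : ℕ,
  ∀ M ≥ M0, ∀ (β : Bas M) (ly : Lay M) (N : ℕ) (b : ℝ), N = size M → b = (N : ℝ) ^ (1 - ε) →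
  HardC (Mcu d (Fin (size M)) (c * N * Real.log N / Real.log (Real.log N)) b) b
    (fun v => fP β ly v = true)

/-- TAX (uses `PPS.S_AUX`).  Proof.  (1) As in Pool/Agent/PPS/AUXM.lean (`UM.MODES.pp`): the class contains
with `P` the constants (change `acc`). (2) `Mcs` is a part of `Mcu d`. -/
def S_TAX : Prop :=
  (∀ (d : ℕ) (I : Type) (τ b : ℝ) (W : ℕ) (L : (I → Bool) → Prop),
    UM.InPP (Mcu d I τ b) W L → UM.InPSPACE (Mcu d I τ b) (W * (W + 3) / 2) L) ∧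
  ∀ (d N : ℕ) (b : ℝ) (L : (Fin N → Bool) → Prop), 0 < N → 1 ≤ b →
    2 * ((N : ℝ) + 1) ≤ (2 : ℝ) ^ b → UM.InPP (Mcu d (Fin N) N b) (N + 1) L

end Pool.Agent.RMS
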