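import Pool.Agent.RMS.St1
import Pool.Agent.TKB.CorH

/-!
# Project RMS: statements, part 4 (the Boolean hierarchy over nondeterministic programs with a tape)
-/

set_option autoImplicit false

open Finset
open scoped Classical

namespace Pool.Agent.RMS

open Pool.Agent.Lib_helper20.SRO (Agrees)
open Pool.Agent.TKN (Out)
open Pool.Agent.TKB (Easy Level BasB LayB sizeB mbL FB)

/-- The property `A` is decided by a nondeterministic program with one unlimited tape of dimension `d`: fewer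
than `2 ^ y` nodes, `y ^ d ≤ z`; at most `2 ^ g` letters, `1 ≤ g ≤ z`; at most `s` tests on an edge; each
accepted input has an accepting run whose cost (number of the tests of variables outside a set of at most
`s` variables, plus `g` for each move of the head) is at most `T`. -/
def EasyT (d N s T : ℕ) (z : ℝ) (A : (Fin N → Bool) → Prop) : Prop :=
  ∃ (Γ Q : Type) (_ : Fintype Γ) (_ : Fintype Q) (g : ℕ) (y : ℝ)
    (G : TProg (Fin N) Γ Q (Cell d) (Dir d)),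
    0 ≤ y ∧ y ^ d ≤ z ∧ ((Fintype.card Q : ℝ) < 2 ^ y) ∧ 1 ≤ g ∧ (g : ℝ) ≤ z ∧
    Fintype.card Γ ≤ 2 ^ g ∧ (∀ u t v, G.test u t v → t.length ≤ s) ∧
    (∀ b, G.Accepts act b → ∃ l ms, G.Full act l ms ∧ Agrees b l ∧
      ∃ R : Finset (Fin N), R.card ≤ s ∧ Out R l + g * ms.length ≤ T) ∧
    ∀ b, G.Accepts act b ↔ A b

/-- programs with one stack, fork programs, or programs with one tape of dimension `d` -/
def EasyU (d N s T : ℕ) (z : ℝ) (A : (Fin N → Bool) → Prop) : Prop :=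
  Easy N s T z A ∨ EasyT d N s T z A

/-- `f` is no Boolean function of fewer than `m` properties in `EasyU`, and no Boolean function of `m` such
properties that is true if all of them are false. -/
def LevelU (d m N s T : ℕ) (z : ℝ) (f : (Fin N → Bool) → Prop) : Prop :=
  ∀ (q : ℕ) (A : Fin q → (Fin N → Bool) → Prop) (De : (Fin q → Prop) → Prop), q ≤ m →
    (∀ i, EasyU d N s T z (A i)) → (∀ v, (f v ↔ De fun i => A i v)) → q = m ∧ ¬ De fun _ => False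

/-- the numeric conditions for the reduction of `EasyT d N s T z` to `Easy N s T z1` -/
def NumN (d T : ℕ) (z z1 : ℝ) : Prop := ∀ (v γ g : ℕ) (y : ℝ), 0 ≤ y → y ^ d ≤ z →
  ((v : ℝ) < (2 : ℝ) ^ y) → 1 ≤ v → 1 ≤ γ → γ ≤ 2 ^ g → 1 ≤ g → (g : ℝ) ≤ z →
  ∃ Z m : ℕ, 1 ≤ Z ∧ T < (m + 1) * (g * Z) ∧
    (((2 + Z * (v * (2 * T + 1) ^ d + 1) ^ m *
      ((m + 1) * ((m + 3) * (γ ^ (Z ^ d) * (v * Z ^ d + 1))) + 1) : ℕ) : ℝ) < (2 : ℝ) ^ z1)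

/-- ASN (uses `S_SHF`, `S_REP`, `S_CHN`, `S_SND`, `S_CMP`, `S_MVS`).  The simulation.
Proof.  `Z`, `m` from `NumN`. For `o < Z` and `f : Fin m → Option (Q × box d T)` let `tr` be the list of the
values `≠ none` of `f` (`(List.ofFn f).reduceOption`), `vs = (G.source, 0) :: tr`,
`rs = (vs.map fun q => (e q.2).1).dedup` with `e = rmap d Z _ o`, and
`B (o, f) = Cat (rs.map fun a => Chn G act e a vs (fun p => G.init (e.symm (a, p))))`. By REP and CHN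
(`vs.length ≤ m + 1`, `rs.length ≤ m + 1`, `card (Fin d → Fin Z) = Z ^ d`, SHF (4)) the union of the
`B (o, f)` is `Rep s n` with the number `n` of `NumN`; pad `Cat` to `m + 1` factors by monotonicity of
`Rep` in `n`. A program without memory is an `STK.Prog (Fin N) 1 Unit Q'` without push and pop (`Full l` iff
`Wk source sink l`), so it is enough for `Easy N s T z1 A` (first case) that
(1) if `B (o, f) l` and `Agrees b l` then `b` is accepted: from `Cat` for each room `a ∈ rs` a part `l_a` of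
`l` with `Chn .. l_a`; SND; (2) if `b` is accepted take the run with cost `≤ T`, `l`, `ms`, `R`; MVS (3) gives
`o` with `Z * #changes ≤ ms.length`, and `g * ms.length ≤ T < (m + 1) * (g * Z)`, so `#changes ≤ m`; CMP gives
`vs'`, `ls` with `vs'.length ≤ m`, cells in `box d T` (MVS (2), `ms.length ≤ T`); extend `vs'` by `none`
to `f`. Then `l' = (rs.map ls).flatten` is a permutation of `l`, `B (o, f) l'`, so `Agrees b l'` and
`Out R l' = Out R l ≤ T`. -/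
def S_ASN : Prop := ∀ (d N s T : ℕ) (z z1 : ℝ) (A : (Fin N → Bool) → Prop), NumN d T z z1 →
  EasyT d N s T z A → Easy N s T z1 A

/-- NN1.  The numbers for length `k N` and dimension `1`.
Proof.  `z1 = N / X`, `z = N / (2 ^ 10 k X ^ 2)`. `Z = ⌊z1 / (8 g)⌋₊`, so `z1 / 16 ≤ g Z ≤ z1 / 8` (as
`z1 / (8 g) ≥ z1 / (8 z) ≥ 1`); `m = 16 k X`, so `m g Z ≥ k N` and `(m + 1) g Z > k N`. The number is at most
`8 N * (2 ^ y (2 k N + 1) * 2) ^ m * (m + 1) (m + 3) * 2 ^ (g Z) * 2 ^ y * (N + 1)`; `y m ≤ z m = z1 / 64`;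
`(log2 (2 k N + 1) + 1) m ≤ z1 / 8` as `128 k X ^ 2 (log2 (2 k N + 1) + 1) ≤ N`, from
`N ≥ 2 ^ 60 (k X) ^ 4`; the other factors `8 N (N + 1) (m + 1) (m + 3) ≤ 2 ^ (z1 / 8)`. In total less than
`2 ^ z1`. -/
def S_NN1 : Prop := ∀ k X N : ℕ, 1 ≤ k → 1 ≤ X → 2 ^ 60 * (k * X) ^ 4 ≤ N →
  NumN 1 (k * N) ((N : ℝ) / (2 ^ 10 * k * X ^ 2)) ((N : ℝ) / X)

/-- NN2.  The numbers for superlinear length and dimension `d`.
Proof.  `ε' = ε / (4 d)`, `z1 = N ^ (1 - ε')`, `z = N ^ (1 - ε)`, `U = (z1 / 8) ^ (1 / d)`;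
`Z = ⌊(z1 / (8 g)) ^ (1 / d)⌋₊ ≥ 1` (as `8 z ≤ z1`), so `g Z ^ d ≤ z1 / 8` and
`g Z ≥ g ^ (1 - 1 / d) U / 2 ≥ U / 2`; `m = ⌈2 T / U⌉₊`, so `(m + 1) g Z > T`. `y ≤ z + 1`, `y ≤ z ^ (1 / d)`;
`v (2 T + 1) ^ d + 1 ≤ 2 ^ (y + d log2 (2 T + 1) + 1)` and
`(y + d log2 (2 T + 1) + 1) m ≤ (z ^ (1 / d) + 3 d log2 N + 1) (2 N ^ (1 + ε') / U + 1) ≤ z1 / 8`, since
the exponents of `N` are `1 + ε' + (ε' - ε) / d < 1 - ε'` and `1 + ε' - (1 - ε') / d < 1 - ε'`; all other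
factors are at most `2 ^ (z1 / 8)`. All inequalities hold for large `N` (choose `N0` before `T`, `v`, `γ`,
`g`, `y`). -/
def S_NN2 : Prop := ∀ (d : ℕ) (ε : ℝ), 1 ≤ d → 0 < ε → ε < 1 → ∃ N0 : ℕ, ∀ N ≥ N0, ∀ T : ℕ,
  (T : ℝ) ≤ (N : ℝ) ^ (1 + ε / (4 * d)) →
  (N : ℝ) ^ (1 - ε) ≤ (N : ℝ) ^ (1 - ε / (4 * d)) ∧
    NumN d T ((N : ℝ) ^ (1 - ε)) ((N : ℝ) ^ (1 - ε / (4 * d)))

/-- LV1 (uses `S_ASN`, `S_NN1`, `TKB.S_LWC`, `TKB.S_SIZB`).  Fixed `k`.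
Proof.  `TKB.lowL` gives `B1`; `Y = (k + 1) (m + 1) ≥ 4`, `X = 2 ^ (Y ^ B1)`. For `B = B1 + c0`, `c0` a constant,
`2 ^ (Y ^ B) ≥ 2 ^ 60 (k X) ^ 4` (`Y ^ B ≥ 4 Y ^ B1 + 60 + 4 Y` and `k ≤ 2 ^ Y`) and
`≥ 2 ^ 10 k X ^ 2`; so with `c = 1 / 2 ^ (Y ^ B)`, `s ≤ c N`: each property in `EasyU 1 N s (k N) (c N)` is in
`Easy N s (k N) (N / X)`, by ASN, NN1 (`NumN` is monotone in `z`: a smaller `z` is easier) and
`TKB.easy_mono`. `N = sizeB M ≥ 2 M` by SIZB for `2 ^ 56 ≤ M`. -/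
def S_LV1 : Prop := ∃ B : ℕ, ∀ m k M : ℕ, 1 ≤ m → 1 ≤ k → 2 ^ (((k + 1) * (m + 1)) ^ B) ≤ M →
  ∀ (β : BasB (mbL m) M) (ly : LayB (mbL m) M) (s : ℕ),
    (s : ℝ) ≤ 1 / 2 ^ (((k + 1) * (m + 1)) ^ B) * sizeB M →
    LevelU 1 m (sizeB M) s (k * sizeB M) (1 / 2 ^ (((k + 1) * (m + 1)) ^ B) * sizeB M) (FB β ly)

/-- LV2 (uses `S_ASN`, `S_NN2`, `TKB.S_LWC`, `TKB.S_SIZB`).  Superlinear length, dimension `d`.
Proof.  `TKB.lowLS` gives `a`. Let `ε1 = min ε (1 / 2)`: `N ^ (1 - ε) ≤ N ^ (1 - ε1)` (`EasyU` is monotone in `z`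
and `s`). Apply `TKB.lowLS` for `ε1 / (4 d)`, ASN, NN2 for `ε1`; `N (log N) ^ a ≤ N ^ (1 + ε1 / (4 d))` for
large `N`. -/
def S_LV2 : Prop := ∃ a : ℝ, 0 < a ∧ ∀ (d : ℕ) (ε : ℝ), 1 ≤ d → 0 < ε → ∃ M0 : ℕ, ∀ M ≥ M0,
  ∀ m : ℕ, 1 ≤ m → (m : ℝ) ≤ Real.log (sizeB M) ^ a →
    ∀ (β : BasB (mbL m) M) (ly : LayB (mbL m) M) (s T : ℕ), (s : ℝ) ≤ (sizeB M : ℝ) ^ (1 - ε) →
      (T : ℝ) ≤ sizeB M * Real.log (sizeB M) ^ a →
      LevelU d m (sizeB M) s T ((sizeB M : ℝ) ^ (1 - ε)) (FB β ly)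

end Pool.Agent.RMS
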